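import Pool.Agent.H812.SF.Stm

/-!
Project SF (helper812), problem MP_83fd13_an: statements of the new parts.  Every large zero `ρ` of
`J_1` is the radius of a disc near which there are domains that solve Schiffer's problem.
The proofs are in the docstrings.
-/

set_option autoImplicit false

open Set Filter Topology MeasureTheory

namespace Pool.Agent.H812.SF

open Pool.Agent.N229.SC

/-! ### Recurrences with coefficients near the golden ratio -/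

/-- SF-BLK: five steps of `x_{i+2} = c_i x_{i+1} - x_i` with `c_i` slightly larger than the golden
ratio `φ = 2 cos (π / 5)` (for `c_i = φ` five steps are the map `-1`).

Proof. Let `e_i` be the unperturbed sequence `e_0 = x_0`, `e_1 = x_1`, `e_{i+2} = φ e_{i+1} - e_i`:
with `a = x 0`, `b = x 1`: `e_2 = φ b - a`, `e_3 = φ b - φ a` , `e_4 = b - φ a`, `e_5 = - a`,
`e_6 = - b` (use `φ ^ 2 = φ + 1`).  Put `d_i = c_i - φ ∈ [δ, 2 δ]` and `S = |a| + |b|`.  Bound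
successively `|x_i - e_i| ≤ C_i δ S` (`|x_{i+2} - e_{i+2}| ≤ φ |x_{i+1} - e_{i+1}| + 2 δ |x_{i+1}| +
|x_i - e_i|`, `φ ≤ 1.6181`, all `C_i ≤ 30`).  The first two claims follow (the true constant is 15).
For the third claim the Wronskian `W_i = e_i x_{i+1} - e_{i+1} x_i` satisfies `W_0 = 0`,
`W_{i+1} = W_i + d_i e_{i+1} x_{i+1}`, so `W_5 = e_5 x_6 - e_6 x_5 = a (-x_6) - b (-x_5)` is
`Σ_{i<5} d_i e_{i+1} x_{i+1} ≥ δ Σ e_{i+1}^2 - 2 δ Σ |e_{i+1}| C_{i+1} δ S`, and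
`Σ_{i=1}^5 e_i^2 = (4 + 2 φ)(a^2 + b^2) - (6 φ + 2) a b ≥ 1.38 (a^2 + b^2)`; `δ ≤ 10⁻⁴`. -/
def S_BLK : Prop :=
  ∀ (φ δ : ℝ) (c x : ℕ → ℝ), φ ^ 2 = φ + 1 → 0 < φ → 0 < δ → δ ≤ 1 / 10 ^ 4 →
    (∀ i < 5, φ + δ ≤ c i ∧ c i ≤ φ + 2 * δ) →
    (∀ i < 5, x (i + 2) = c i * x (i + 1) - x i) →
    |-(x 5) - x 0| ≤ 100 * δ * (|x 0| + |x 1|) ∧ |-(x 6) - x 1| ≤ 100 * δ * (|x 0| + |x 1|) ∧
    δ * (x 0 ^ 2 + x 1 ^ 2) ≤ x 0 * (-(x 6)) - x 1 * (-(x 5))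

/-- SF-SCH: a slow rotation hits a given direction.

Proof. Put `p j = a j + 2 ε b j`, `q j = b j`, `S j = a j b_{j+1} - b j a_{j+1} =
p j q_{j+1} - q j p_{j+1} ≥ δ (a j ^ 2 + b j ^ 2)`.  By induction `(a j, b j) ≠ (0, 0)` (if it is not
zero then `S j > 0`).  Replacing `(a, b)` by `(-a, -b)` assume `0 ≤ p 0`.
Claim A: there is `j < N` with `p j ≥ 0`, `p (j + 1) ≤ 0`, or `p j = 0` for some `j ≤ N`.
Otherwise `p j > 0` for all `j ≤ N`; put `r j = q j / p j`.  (1) `r (j+1) - r j = S j / (p j p_{j+1})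
≥ δ / 2`, because `0 < p j p_{j+1} ≤ 2 (a j ^ 2 + b j ^ 2)` (`100 δ ≤ 1/20`, `ε ≤ 1/10`).  (2) `r 1 ≥ -2 / δ`: clear if
`r 0 ≥ -1` or `q 1 ≥ 0`; otherwise `|a 0| ≤ 1.2 |q 0|`, `|q 1| ≤ 2 |q 0|` and `p 1 |q 0| = S 0 + p 0 |q 1| ≥
δ (q 0)^2`, so `|q 1| / p 1 ≤ 2 / δ`.  (3) Hence `r (1 + m) ≥ -2 / δ + m δ / 2 ≥ 3 / δ` for
`m = ⌈10 / δ^2⌉`.  (4) If `r j ≥ 3 / δ`, then `q j > 0`, `p j ≤ δ q j / 3`, `|a j| ≤ q j`, `q_{j+1} ≤ 2 q j`, so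
`q j p_{j+1} = p j q_{j+1} - S j ≤ (2/3) δ (q j)^2 - δ (q j)^2 < 0`, a contradiction.
Claim B: for the `j` of claim A, `|p j| ≤ |p j - p_{j+1}| ≤ 120 δ (|a j| + |b j|)` (or `p j = 0`) and
`|a j| ≤ |p j| + 0.2 |q j|`, so `|p j| ≤ 200 δ |q j| ≤ ε |q j|`; so `q j ≠ 0` and `a j / b j = p j / q j - 2 ε`
lies in `[-3 ε, -ε]`. -/
def S_SCH : Prop :=
  ∀ (ε δ : ℝ) (N : ℕ) (a b : ℕ → ℝ), 0 < ε → ε ≤ 1 / 10 → 0 < δ → 200 * δ ≤ ε →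
    10 / δ ^ 2 + 3 ≤ N → (a 0 ≠ 0 ∨ b 0 ≠ 0) →
    (∀ j < N, |a (j + 1) - a j| ≤ 100 * δ * (|a j| + |b j|) ∧
      |b (j + 1) - b j| ≤ 100 * δ * (|a j| + |b j|) ∧
      δ * (a j ^ 2 + b j ^ 2) ≤ a j * b (j + 1) - b j * a (j + 1)) →
    ∃ j ≤ N, b j ≠ 0 ∧ ε ≤ -(a j / b j) ∧ -(a j / b j) ≤ 3 * ε

/-- SF-DYN: the dynamical lemma.

Proof from `S_BLK` and `S_SCH`: `δ = ε / 10 ^ 4`, `N = ⌈10 / δ^2⌉ + 3`, `L = 5 N + 5`, and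
`a j = (-1)^j x (M + 5 j)`, `b j = (-1)^j x (M + 5 j + 1)`. -/
def S_DYN : Prop :=
  ∀ (φ ε : ℝ), φ ^ 2 = φ + 1 → 0 < φ → 0 < ε → ε ≤ 1 / 10 →
    ∃ δ : ℝ, 0 < δ ∧ δ ≤ 1 / 10 ^ 4 ∧ ∃ L : ℕ, ∀ (c x : ℕ → ℝ) (M : ℕ),
      (∀ m, M ≤ m → m ≤ M + L → φ + δ ≤ c m ∧ c m ≤ φ + 2 * δ) →
      (∀ m, x (m + 2) = c m * x (m + 1) - x m) → (x M ≠ 0 ∨ x (M + 1) ≠ 0) →
      ∃ n, M ≤ n ∧ n ≤ M + L ∧ x (n + 1) ≠ 0 ∧ ε ≤ -(x n / x (n + 1)) ∧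
        -(x n / x (n + 1)) ≤ 3 * ε

/-! ### Bessel functions -/

/-- SF-PAR: the parameters for every large zero of `J_1` (near resonance of `J_1` and `J_n`).

Proof from `S_DYN` and `S_N1` (`proof_N1` in the library file N229/SC/N1.lean).  `φ = (1 + √5)/2`, `x m = Fb ρ m`,
`c m = 2 (m + 1) / ρ`; `δ, L` from `S_DYN` for `ε`; `R = max 10000 (2 (L + 5) / δ)`, `M = ⌈ρ (φ + δ) / 2⌉`,
so that `c m ∈ [φ + δ, φ + 2 δ]` for `M ≤ m ≤ M + L`.  Two consecutive zeros `x_k = x_{k+1} = 0` would give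
`x m = 0` for all `m ≥ k`, against `0 < Fb ρ m` for `m ≥ ρ`.  So `S_DYN` gives `n` with
`-(x n / x (n+1)) ∈ [ε, 3 ε]`, and `x 2 ≠ 0` as `x 1 = 0`.  Take `P = ⟨ρ, n, fun i => -(x (n + i) / x (n + 1)),
fun i => -(x (1 + i) / x 2)⟩`; `b 0 = 0`, `a 1 = b 1 = -1`; `ra`, `rb` from the recurrence of `Fb`;
`P.nu = n / ρ ∈ [4/5, 41/50]` because `2 n / ρ ≥ φ + δ` and `2 (n + 1) / ρ ≤ φ + 2 δ`, `φ = 1.618...`. -/
def S_PAR : Prop :=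
  ∀ ε : ℝ, 0 < ε → ε ≤ 1 / 10 ^ 9 → ∃ R : ℝ, ∀ ρ : ℝ, R ≤ ρ → Fb ρ 1 = 0 →
    ∃ P : Par, Good P ∧ P.ρ = ρ ∧ P.a 0 ≤ 3 * ε ∧ ∃ C, ∀ i, |P.a i| ≤ C ∧ |P.b i| ≤ C

/-- SF-J1Z: `J_1` has arbitrarily large zeros.

Proof. `j x = Fb x 1` is entire in `x` (power series) and solves `x^2 j'' + x j' + (x^2 - 1) j = 0`.
`u = √x j` satisfies `u'' = -(1 - 3 / (4 x^2)) u` on `x > 0`.  If `j` had no zero in `[R, ∞)`, `R ≥ 2`, then (sign!)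
`u > 0` there, `u'' ≤ -u / 2 < 0`, so `u'` is decreasing; `u' < 0` somewhere would give `u → -∞`; so `u' ≥ 0`,
`u ≥ u R > 0`, `u'' ≤ -u R / 2`, `u' → -∞`, a contradiction. -/
def S_J1Z : Prop := ∀ R : ℝ, ∃ ρ : ℝ, R ≤ ρ ∧ Fb ρ 1 = 0

/-! ### Closeness to the disc -/

/-- SF-CLO: the conformal map is close to `ρ z`, with its derivative.

Proof. `fF P h z = ρ z exp (g z / n)`, `g z = evh (Phi P h) (z ^ n)`, `|g z| ≤ ‖Phi P h‖ ≤ ν s` for `|z| < rF`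
(`|z ^ n| < Rad`; `S_EH`, `S_B1`), and `n ≥ 8000`, `n = ν ρ` (`S_AB`), `|exp w - 1| ≤ 1.01 |w|` for small `w`.
`f' = ρ exp (g / n) (1 + evh (beta P h) (z ^ n))` (the formula is in the library proof of FN1,
`Pool/Agent/H812/SF/FN1.lean`), `‖beta P h‖ ≤ 8 ν s`, `ν ≤ 41/50`. -/
def S_CLO : Prop :=
  ∀ (P : Par) (h : W) (s : ℝ), Good P → ‖h‖ ≤ s → s ≤ 1 / 1000 →
    ∀ z ∈ Metric.ball (0 : ℂ) (rF P), ‖fF P h z - P.ρ * z‖ ≤ 2 * s ∧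
      ‖deriv (fF P h) z - P.ρ‖ ≤ 10 * s * P.ρ

/-- SF-INC: a domain whose boundary is close to a circle is close to the disc.

Proof. Upper inclusion: maximum modulus principle for `f` on the closed unit disc, and `Om f` is open.  Lower inclusion:
`0 = f 0 ∈ Om f`, the ball is connected and does not meet `frontier (Om f) = f '' sphere 0 1`
(`S_TOP`). -/
def S_INC : Prop :=
  ∀ (ρ r η : ℝ) (f : ℂ → ℂ), Conf ρ r f → 0 ≤ η → (∀ z : ℂ, ‖z‖ = 1 → |‖f z‖ - ρ| ≤ η) →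
    Metric.ball 0 (ρ - η) ⊆ Om f ∧ Om f ⊆ Metric.ball 0 (ρ + η)

/-! ### The final statements -/

/-- The plane. -/
abbrev E2 : Type := EuclideanSpace ℝ (Fin 2)

/-- A bounded simply connected open connected set whose boundary is a Lipschitz curve
homeomorphic to the circle. -/
structure PlaneDomain (Ω : Set E2) : Prop where
  isOpen : IsOpen Ω
  isBounded : Bornology.IsBounded Ω
  isConnected : IsConnected Ω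
  simplyConnected : SimplyConnectedSpace Ω
  jordan : Nonempty (frontier Ω ≃ₜ Metric.sphere (0 : E2) 1)
  lipschitz : ∀ p ∈ frontier Ω, ∃ e f : E2, ‖e‖ = 1 ∧ ‖f‖ = 1 ∧ @inner ℝ E2 _ e f = 0 ∧
    ∃ r : ℝ, 0 < r ∧ ∃ K : NNReal, ∃ g : ℝ → ℝ, LipschitzWith K g ∧
      ∀ x ∈ Metric.ball p r, (x ∈ Ω ↔ g (@inner ℝ E2 _ x e) < @inner ℝ E2 _ x f)

/-- The overdetermined problem `-Δu = lam u` in `Ω`, `∂u/∂n = 0`, `u = c` on `∂Ω` has a nontrivial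
weak solution (`G` is the gradient of `u`). -/
def Schiffer (Ω : Set E2) (lam : ℝ) : Prop :=
  ∃ (c : ℝ) (u : E2 → ℝ) (G : E2 → E2),
    MemLp u 2 (volume.restrict Ω) ∧ MemLp G 2 (volume.restrict Ω) ∧
    (∀ φ : E2 → ℝ, ContDiff ℝ 1 φ → HasCompactSupport φ → ∀ v : E2,
      ∫ x in Ω, (u x - c) * (fderiv ℝ φ x v) = - ∫ x in Ω, @inner ℝ E2 _ (G x) v * φ x) ∧
    (∀ φ : E2 → ℝ, ContDiff ℝ 1 φ → HasCompactSupport φ →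
      ∫ x in Ω, fderiv ℝ φ x (G x) = lam * ∫ x in Ω, u x * φ x) ∧
    ¬ (u =ᵐ[volume.restrict Ω] 0)

/-- An open disc. -/
def IsDisc (Ω : Set E2) : Prop := ∃ (a : E2) (r : ℝ), Ω = Metric.ball a r

/-- `Ω` is the image of the unit disc under an injective holomorphic map `f` of a larger disc
which is `ε`-close to `z ↦ ρ z` and whose derivative is `ε ρ`-close to `ρ`. -/
def NearDisc (ε ρ : ℝ) (Ω : Set E2) : Prop :=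
  ∃ (r : ℝ) (f : ℂ → ℂ), 1 < r ∧ DifferentiableOn ℂ f (Metric.ball 0 r) ∧
    InjOn f (Metric.ball 0 r) ∧
    (∀ z ∈ Metric.ball (0 : ℂ) r, ‖f z - ρ * z‖ ≤ ε ∧ ‖deriv f z - ρ‖ ≤ ε * ρ) ∧
    Ω = (fun z : ℂ => (!₂[z.re, z.im] : E2)) '' (f '' Metric.ball 0 1)

/-- `Ω'` is the image of `Ω` under a similarity of the plane. -/
def Similar (Ω Ω' : Set E2) : Prop :=
  ∃ (k : ℝ) (T : E2 ≃ₗᵢ[ℝ] E2) (b : E2), 0 < k ∧ (fun x => k • T x + b) '' Ω = Ω'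

/-- SF-TR1: transfer of one domain from `ℂ` to the Euclidean plane; the proof of
`proof_TR` in the library file N229/SC/TR.lean with `tr_J = Complex.orthonormalBasisOneI.repr`. -/
def S_TR1 : Prop :=
  ∀ (Ω : Set ℂ) (lam c : ℝ) (u : ℂ → ℝ) (G : ℂ → ℂ), IsOpen Ω → Bornology.IsBounded Ω →
    IsConnected Ω → SimplyConnectedSpace Ω → Nonempty (frontier Ω ≃ₜ Metric.sphere (0 : ℂ) 1) →
    (∀ p ∈ frontier Ω, ∃ e g : ℂ, ‖e‖ = 1 ∧ ‖g‖ = 1 ∧ @inner ℝ ℂ _ e g = 0 ∧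
      ∃ s : ℝ, 0 < s ∧ ∃ K : NNReal, ∃ γ : ℝ → ℝ, LipschitzWith K γ ∧
        ∀ x ∈ Metric.ball p s, (x ∈ Ω ↔ γ (@inner ℝ ℂ _ x e) < @inner ℝ ℂ _ x g)) →
    (∀ (a : ℂ) (s : ℝ), Ω ≠ Metric.ball a s) → Weak Ω lam c u G →
    PlaneDomain ((fun z : ℂ => (!₂[z.re, z.im] : E2)) '' Ω) ∧
    ¬ IsDisc ((fun z : ℂ => (!₂[z.re, z.im] : E2)) '' Ω) ∧
    Schiffer ((fun z : ℂ => (!₂[z.re, z.im] : E2)) '' Ω) lam ∧
    ∀ s : ℝ, (Metric.ball (0 : ℂ) s ⊆ Ω →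
        Metric.ball (0 : E2) s ⊆ (fun z : ℂ => (!₂[z.re, z.im] : E2)) '' Ω) ∧
      (Ω ⊆ Metric.ball (0 : ℂ) s →
        (fun z : ℂ => (!₂[z.re, z.im] : E2)) '' Ω ⊆ Metric.ball (0 : E2) s)

/-- SF-SIM: a domain which is not a disc is not similar to domains arbitrarily close to discs.

Proof. Otherwise for every `m` there are `q m`, `s m > 0` with `ball (q m) ((1 - 1/(m+1)) s m) ⊆ D ⊆
ball (q m) ((1 + 1/(m+1)) s m)` (apply the inverse similarity).  `D` is bounded and has interior points, so `s m` is bounded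
above, and `q m` is bounded; for a subsequence `q m → q`, `s m → s`.  Then `ball q s ⊆ D ⊆ closedBall q s`,
`D` is open and nonempty, so `s > 0` and `D ⊆ interior (closedBall q s) = ball q s`: `D` is a disc. -/
def S_SIM : Prop :=
  ∀ D : Set E2, IsOpen D → Bornology.IsBounded D → D.Nonempty → ¬ IsDisc D →
    ∃ η : ℝ, 0 < η ∧ η < 1 ∧ ∀ Ω : Set E2, Similar D Ω → ∀ r : ℝ, 0 < r →
      ¬ (Metric.ball 0 ((1 - η) * r) ⊆ Ω ∧ Ω ⊆ Metric.ball 0 ((1 + η) * r))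

/-- SF-ONE: the domains near the discs.  From `S_PAR`, `S_EXI`, `S_FN1` - `S_FN5`, `S_CLO`, `S_INC`, `S_TR1` and
the library's `S_PDE`, `S_INJ`, `S_TOP`, `S_LIP`, `S_NB`, `S_WK1` - `S_WK3` (model: `finalC` in N229/SC/Fin.lean).
`‖h‖ ≤ 2 X ≤ 10 √(a 0)`, `s = 10 √(3 ε')` with `ε'` small. -/
def S_ONE : Prop :=
  ∀ ε : ℝ, 0 < ε → ∃ R : ℝ, ∀ ρ : ℝ, R ≤ ρ → Fb ρ 1 = 0 → ∃ Ω : Set E2,
    PlaneDomain Ω ∧ Schiffer Ω 1 ∧ ¬ IsDisc Ω ∧ NearDisc ε ρ Ω ∧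
    Metric.ball 0 (ρ - ε) ⊆ Ω ∧ Ω ⊆ Metric.ball 0 (ρ + ε)

/-- SF-SEQ: infinitely many.  From `S_ONE`, `S_J1Z`, `S_SIM` (and `PlaneDomain`): use
`exists_seq_of_forall_finset_exists` with `α = Set E2 × ℝ × ℕ`, `P (Ω, ρ, m)` = the properties for
`ε = 1 / (m + 1)` and `m + 1 ≤ ρ`, `r (Ω, ρ, m) (Ω', ρ', m')` = `¬ Similar Ω Ω' ∧ ¬ Similar Ω' Ω ∧ m < m'`.  (`Similar` is symmetric.) -/
def S_SEQ : Prop :=
  ∃ (Ω : ℕ → Set E2) (ρ : ℕ → ℝ), (∀ k, PlaneDomain (Ω k) ∧ Schiffer (Ω k) 1 ∧ ¬ IsDisc (Ω k)) ∧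
    (∀ k : ℕ, (k : ℝ) + 1 ≤ ρ k ∧ NearDisc (1 / (k + 1)) (ρ k) (Ω k) ∧
      Metric.ball 0 (ρ k - 1 / (k + 1)) ⊆ Ω k ∧ Ω k ⊆ Metric.ball 0 (ρ k + 1 / (k + 1))) ∧
    ∀ j k, j ≠ k → ¬ Similar (Ω j) (Ω k)

end Pool.Agent.H812.SF
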