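import Pool.Agent.H812.SF.Stm

/-!
Project SC (helper229), part B2 (helper134): bounds of the functions `q_i`, `v_i`, `V_i`, `Q_i`.
-/

set_option autoImplicit false

open Set Filter Topology

namespace Pool.Agent.H812.SF

open Pool.Agent.N229.SC

private lemma b2_pow1 (i : ℕ) : (3 / 2 : ℝ) ^ i * ((i : ℝ) + 1) ≤ 3 ^ i := by
  have h : ((i : ℝ) + 1) ≤ 2 ^ i := by
    have h : i + 1 ≤ 2 ^ i := Nat.lt_two_pow_self
    exact_mod_cast h
  calc (3 / 2 : ℝ) ^ i * ((i : ℝ) + 1) ≤ (3 / 2) ^ i * 2 ^ i := by gcongr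
    _ = 3 ^ i := by rw [← mul_pow]; norm_num

private lemma b2_pow2 (i : ℕ) (hi : 1 ≤ i) : (3 / 2 : ℝ) ^ i ≤ 1 / 2 * 3 ^ i := by
  have h1 := b2_pow1 i
  have h2 : (1 : ℝ) ≤ i := by exact_mod_cast hi
  have h3 : (0 : ℝ) < (3 / 2) ^ i := by positivity
  nlinarith

theorem proof_B2 (hA1 : S_A1) (hA2 : S_A2) (hA3 : S_A3) (hAB : S_AB) (hB1 : S_B1) : S_B2 := by
  intro P hP X h v y hX0 hX1 hD
  obtain ⟨cadd, csub, -, -, csmul, -⟩ := hA1 wW
  obtain ⟨⟨-, -, -, -, inc45⟩, -, -, -, -, rcf, rn, rin, -⟩ := hA2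
  obtain ⟨ha, hb, -, -, -, -, hn⟩ := hAB P hP
  have hnh := hD.nh
  have hh : ‖h‖ ≤ 1 / 1000 := by linarith
  obtain ⟨⟨-, hbeta, -, htau, -, -⟩, -, -, -⟩ := hB1 P hP h hh
  have hnu1 := hP.nu1
  have hnu2 := hP.nu2
  have hnu0 : 0 < P.nu := by linarith
  have hn0 : (0 : ℝ) < P.n := by linarith
  have hinv : 1 / (2 * P.nu) ≤ 5 / 8 := by
    rw [div_le_iff₀ (by linarith)]
    linarith
  have hinv0 : 0 < 1 / (2 * P.nu) := by positivity
  have hbeta' : ‖beta P h‖ ≤ 4 / 1000 := by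
    have h1 : P.nu * ‖h‖ ≤ 41 / 50 * (6 / 10 ^ 4) :=
      mul_le_mul hnu2 (by linarith) (norm_nonneg _) (by norm_num)
    linarith
  have h1b : ‖1 + beta P h‖ ≤ 1004 / 1000 := by
    refine (norm_add_le _ _).trans ?_
    rw [norm_one]
    linarith
  -- supports
  have sq : ∀ i, ∀ j < 2, cf (qq P h v y i) j = 0 := by
    intro i j hj
    cases i with
    | zero =>
      show cf (res P.n 0 ((1 + beta P h) * inc v)) j = 0
      rw [rcf, if_neg (by omega)]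
    | succ i =>
      show cf (res P.n (i + 1) (y i)) j = 0
      rw [rcf, if_neg (by omega)]
  have sv : ∀ i, ∀ j < 2, cf (vv P h v y i) j = 0 := by
    intro i j hj
    cases i with
    | zero => exact hD.hv j hj
    | succ i =>
      show cf ((1 / (2 * P.nu)) • (qq P h v y i + qq P h v y (i + 2)) -
        (((i : ℝ) + 1) / P.n) • qq P h v y (i + 1)) j = 0
      rw [csub, csmul, csmul, cadd, sq i j hj, sq (i + 2) j hj, sq (i + 1) j hj]
      ring
  -- the norm of `vv (i + 1)`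
  have hvv : ∀ i : ℕ, ‖vv P h v y (i + 1)‖ ≤ 5 / 8 * (‖qq P h v y i‖ + ‖qq P h v y (i + 2)‖) +
      ((i : ℝ) + 1) / 8000 * ‖qq P h v y (i + 1)‖ := by
    intro i
    show ‖(1 / (2 * P.nu)) • (qq P h v y i + qq P h v y (i + 2)) -
        (((i : ℝ) + 1) / P.n) • qq P h v y (i + 1)‖ ≤ _
    refine (norm_sub_le _ _).trans (add_le_add ?_ ?_)
    · rw [norm_smul, Real.norm_eq_abs, abs_of_pos hinv0]
      exact mul_le_mul hinv (norm_add_le _ _) (norm_nonneg _) (by norm_num)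
    · rw [norm_smul, Real.norm_eq_abs, abs_of_nonneg (by positivity)]
      refine mul_le_mul_of_nonneg_right ?_ (norm_nonneg _)
      exact div_le_div_of_nonneg_left (by positivity) (by norm_num) hn
  have hX2 : 0 ≤ X ^ 2 := sq_nonneg X
  have key : ∀ V M : ℝ, 0 ≤ V → 0 ≤ M → ‖v‖ ≤ V * X ^ 2 → (∀ i, ‖y i‖ ≤ M * X ^ 2) →
      ‖qq P h v y 0‖ ≤ 51 / 100 * V * X ^ 2 ∧ ‖inc (qq P h v y 0)‖ ≤ 41 / 100 * V * X ^ 2 ∧
      (∀ i, ‖qq P h v y (i + 1)‖ ≤ 5 / 8 * M * X ^ 2) ∧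
      (∀ i, ‖inc (qq P h v y (i + 1))‖ ≤ 1 / 2 * M * X ^ 2) ∧
      ‖vv P h v y 1‖ ≤ (8 / 25 * V + 2 / 5 * M) * X ^ 2 ∧
      (∀ i : ℕ, ‖vv P h v y (i + 1)‖ ≤ (8 / 25 * V + 4 / 5 * M) * (i + 1) * X ^ 2) := by
    intro V M hV hM hvV hyM
    have hu : 0 ≤ V * X ^ 2 := mul_nonneg hV hX2
    have hm : 0 ≤ M * X ^ 2 := mul_nonneg hM hX2
    have h0 : ‖(1 + beta P h) * inc v‖ ≤ 1004 / 1000 * (4 / 5 * (V * X ^ 2)) := by
      have h1 := inc45 v hD.hv
      have h2 : ‖inc v‖ ≤ 4 / 5 * (V * X ^ 2) := by linarith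
      exact (norm_mul_le _ _).trans (mul_le_mul h1b h2 (norm_nonneg _) (by norm_num))
    have q0 : ‖qq P h v y 0‖ ≤ 51 / 100 * V * X ^ 2 := by
      have h1 : ‖qq P h v y 0‖ ≤ 5 / 8 * ‖(1 + beta P h) * inc v‖ := rn P.n 0 _
      linarith
    have q0' : ‖inc (qq P h v y 0)‖ ≤ 41 / 100 * V * X ^ 2 := by
      have h1 : ‖inc (qq P h v y 0)‖ ≤ 1 / 2 * ‖(1 + beta P h) * inc v‖ := rin P.n 0 _
      linarith
    have qi : ∀ i, ‖qq P h v y (i + 1)‖ ≤ 5 / 8 * M * X ^ 2 := by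
      intro i
      have h1 : ‖qq P h v y (i + 1)‖ ≤ 5 / 8 * ‖y i‖ := rn P.n (i + 1) _
      have h2 := hyM i
      linarith
    have qi' : ∀ i, ‖inc (qq P h v y (i + 1))‖ ≤ 1 / 2 * M * X ^ 2 := by
      intro i
      have h1 : ‖inc (qq P h v y (i + 1))‖ ≤ 1 / 2 * ‖y i‖ := rin P.n (i + 1) _
      have h2 := hyM i
      linarith
    have v1 : ‖vv P h v y 1‖ ≤ (8 / 25 * V + 2 / 5 * M) * X ^ 2 := by
      have h1 := hvv 0
      have h2 := qi 0
      have h3 := qi 1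
      simp only [Nat.cast_zero, zero_add] at h1 h2
      have h4 : ‖qq P h v y 2‖ ≤ 5 / 8 * M * X ^ 2 := h3
      linarith
    refine ⟨q0, q0', qi, qi', v1, ?_⟩
    intro i
    cases i with
    | zero =>
      simp only [Nat.cast_zero, zero_add, mul_one]
      linarith
    | succ i =>
      have h1 := hvv (i + 1)
      have h2 := qi i
      have h3 := qi (i + 1)
      have h4 := qi (i + 2)
      have h5 : ‖qq P h v y (i + 1 + 2)‖ ≤ 5 / 8 * M * X ^ 2 := h4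
      push_cast at h1 ⊢
      have hi : (0 : ℝ) ≤ i := Nat.cast_nonneg i
      have h6 : ((i : ℝ) + 1 + 1) / 8000 * ‖qq P h v y (i + 1 + 1)‖ ≤
          ((i : ℝ) + 1 + 1) / 8000 * (5 / 8 * M * X ^ 2) :=
        mul_le_mul_of_nonneg_left h3 (by positivity)
      have h7 : 0 ≤ (M * X ^ 2) * (i : ℝ) := mul_nonneg hm hi
      have h8 : 0 ≤ (V * X ^ 2) * (i : ℝ) := mul_nonneg hu hi
      nlinarith
  obtain ⟨-, -, q5, -, -, v5⟩ := key 5 5 (by norm_num) (by norm_num) hD.nv hD.ny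
  have ha' : ∀ i, |P.a i| ≤ 1 / 2 * (3 ^ i * i.factorial) := by
    intro i
    rcases Nat.eq_zero_or_pos i with h0 | h0
    · subst h0
      have h1 := hP.a0
      have h2 := hP.a0'
      rw [abs_of_nonneg (by linarith)]
      simp only [pow_zero, Nat.factorial_zero, Nat.cast_one]
      linarith
    · refine (ha i).trans ?_
      have h1 := b2_pow2 i h0
      have h2 : (0 : ℝ) ≤ i.factorial := Nat.cast_nonneg _
      nlinarith
  have hb' : ∀ i, |P.b i| ≤ 1 / 2 * (3 ^ i * i.factorial) := by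
    intro i
    rcases Nat.eq_zero_or_pos i with h0 | h0
    · subst h0
      have h1 := hP.b0
      have h1a := hP.a0'
      simp only [pow_zero, Nat.factorial_zero, Nat.cast_one]
      linarith
    · refine (hb i).trans ?_
      have h1 := b2_pow2 i h0
      have h2 : (0 : ℝ) ≤ i.factorial := Nat.cast_nonneg _
      nlinarith
  have ha1 : ∀ i, |P.a (i + 1)| ≤ 3 / 2 * (3 ^ i * i.factorial) := by
    intro i
    refine (ha (i + 1)).trans ?_
    have h1 := b2_pow1 i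
    have h2 : (0 : ℝ) ≤ i.factorial := Nat.cast_nonneg _
    rw [Nat.factorial_succ, pow_succ]
    push_cast
    have h3 : (3 / 2 : ℝ) ^ i * ((i : ℝ) + 1) * i.factorial ≤ 3 ^ i * i.factorial :=
      mul_le_mul_of_nonneg_right h1 h2
    linarith
  have hF : ∀ i : ℕ, (1 : ℝ) ≤ 3 ^ i * i.factorial := by
    intro i
    have h1 : (1 : ℝ) ≤ 3 ^ i := one_le_pow₀ (by norm_num)
    have h2 : (1 : ℝ) ≤ i.factorial := by exact_mod_cast Nat.succ_le_of_lt (Nat.factorial_pos i)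
    exact one_le_mul_of_one_le_of_one_le h1 h2
  have hF1 : ∀ i : ℕ, (i : ℝ) + 1 ≤ 3 ^ (i + 1) * (i + 1).factorial := by
    intro i
    have h1 : (1 : ℝ) ≤ 3 ^ (i + 1) := one_le_pow₀ (by norm_num)
    have h2 : (i : ℝ) + 1 ≤ (i + 1).factorial := by
      exact_mod_cast Nat.self_le_factorial (i + 1)
    have h3 : (0 : ℝ) ≤ (i + 1).factorial := Nat.cast_nonneg _
    nlinarith
  have hvF : ∀ i, ‖vv P h v y i‖ ≤ 28 / 5 * X ^ 2 * (3 ^ i * i.factorial) := by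
    intro i
    cases i with
    | zero =>
      have h1 : ‖vv P h v y 0‖ ≤ 5 * X ^ 2 := hD.nv
      simp only [pow_zero, Nat.factorial_zero, Nat.cast_one]
      linarith
    | succ i =>
      have h1 := v5 i
      have h2 := hF1 i
      have h3 := mul_le_mul_of_nonneg_left h2 (mul_nonneg (by norm_num : (0 : ℝ) ≤ 28 / 5) hX2)
      linarith
  refine ⟨sq, sv, ?_, ?_, fun V M hV _ hM _ hvV hyM => key V M hV hM hvV hyM⟩
  · intro i
    have hf := hF i
    have h1 : ‖(X * P.a i) • tau P h‖ ≤ X * (1 / 2 * (3 ^ i * i.factorial)) * (1128 / 1000) := by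
      rw [norm_smul, Real.norm_eq_abs, abs_mul, abs_of_pos hX0]
      exact mul_le_mul (mul_le_mul_of_nonneg_left (ha' i) hX0.le) htau (norm_nonneg _)
        (by positivity)
    have h2 : ‖Vh P X h v y i‖ ≤ ‖(X * P.a i) • tau P h‖ + ‖vv P h v y i‖ := norm_add_le _ _
    have h3 := hvF i
    have h4 : X ^ 2 ≤ 3 / 10 ^ 4 * X := by nlinarith
    generalize (3 ^ i * (i.factorial : ℝ)) = F at *
    have h5 : X ^ 2 * F ≤ 3 / 10 ^ 4 * X * F := mul_le_mul_of_nonneg_right h4 (by linarith)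
    have h6 : 0 ≤ X * F := mul_nonneg hX0.le (by linarith)
    nlinarith
  · intro i
    have hf := hF i
    have h1 : ‖(X * P.a (i + 1)) • tau P h‖ ≤
        X * (3 / 2 * (3 ^ i * i.factorial)) * (1128 / 1000) := by
      rw [norm_smul, Real.norm_eq_abs, abs_mul, abs_of_pos hX0]
      exact mul_le_mul (mul_le_mul_of_nonneg_left (ha1 i) hX0.le) htau (norm_nonneg _)
        (by positivity)
    have h2 : ‖Qh P X h v y i‖ ≤ ‖P.b i • (1 : W)‖ + ‖(X * P.a (i + 1)) • tau P h‖ +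
        ‖qq P h v y (i + 1)‖ := norm_add₃_le
    have h3 : ‖P.b i • (1 : W)‖ = |P.b i| := by
      rw [norm_smul, norm_one, mul_one, Real.norm_eq_abs]
    have h4 := hb' i
    have h5 := q5 i
    have h6 : X ^ 2 ≤ 3 / 10 ^ 4 * (3 / 10 ^ 4) := by nlinarith
    generalize (3 ^ i * (i.factorial : ℝ)) = F at *
    have h7 : X * F ≤ 3 / 10 ^ 4 * F := mul_le_mul_of_nonneg_right hX1 (by linarith)
    nlinarith

end Pool.Agent.H812.SF
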