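import Pool.Agent.H812.SF.Stm

/-!
Project SC (helper229), problem MP_83fd13_an: the map is a contraction (helper527).
-/

set_option autoImplicit false

open Set Filter Topology MeasureTheory

namespace Pool.Agent.H812.SF

open Pool.Agent.N229.SC

/-- the sequence `0, -1, 0, 0, ...` -/
private noncomputable def ctr_e (i : ℕ) : W := if i = 1 then -1 else 0

private theorem ctr_TT_e (ξ : W) : TT ξ ctr_e = ξ := by
  unfold TT
  rw [tsum_eq_single 1]
  · simp [ctr_e]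
  · intro i hi
    simp [ctr_e, hi]

private theorem ctr_e_bd (i : ℕ) : ‖ctr_e i‖ ≤ 1 * (3 ^ i * (i.factorial : ℝ)) := by
  unfold ctr_e
  split_ifs with h
  · subst h
    rw [norm_neg, norm_one]
    norm_num
  · rw [norm_zero]
    positivity

/-- the difference of two values of `TT` -/
private theorem ctr_T (hA3 : S_A3) {ξ ξ' : W} {c c' : ℕ → W} {M0 M1 δ : ℝ}
    (h1 : ∀ i, ‖c i‖ ≤ M0 * (3 ^ i * (i.factorial : ℝ)))
    (h2 : ∀ i, ‖c' i‖ ≤ M0 * (3 ^ i * (i.factorial : ℝ)))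
    (h3 : ∀ i, ‖c i - c' i‖ ≤ M1 * (3 ^ i * (i.factorial : ℝ)))
    (hδ0 : 0 ≤ δ) (hδ : δ ≤ 1 / 30) (hξ : ‖ξ‖ ≤ δ) (hξ' : ‖ξ'‖ ≤ δ) :
    ‖(TT ξ c - TT ξ' c') - (c 0 - c' 0)‖ ≤
      10 / 9 * M1 * (3 * ‖ξ‖) + ‖ξ - ξ'‖ * (‖c' 1‖ + 25 * M0 * δ) := by
  obtain ⟨-, a1, a2, a3⟩ := hA3
  have e1 := (a3 ξ c c' M0 h1 h2 (hξ.trans hδ)).2.1
  have e2 := (a1 ξ (fun i => c i - c' i) M1 h3 (hξ.trans hδ)).2 1
  have e3 := a2 ξ ξ' c' M0 δ h2 hδ0 hδ hξ hξ'
  rw [e1] at e2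
  simp only [Finset.range_one, Finset.sum_singleton, pow_zero, Nat.factorial_zero, Nat.cast_one,
    inv_one, one_mul, one_smul, pow_one] at e2
  calc ‖(TT ξ c - TT ξ' c') - (c 0 - c' 0)‖
      = ‖(TT ξ c - TT ξ c' - (c 0 - c' 0)) + (TT ξ c' - TT ξ' c')‖ := by congr 1; abel
    _ ≤ ‖TT ξ c - TT ξ c' - (c 0 - c' 0)‖ + ‖TT ξ c' - TT ξ' c'‖ := norm_add_le _ _
    _ ≤ _ := add_le_add e2 e3

private theorem ctr_xi {P : Par} {X : ℝ} {h : W} (hX0 : 0 < X) (hX1 : X ≤ 3 / 10 ^ 4)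
    (nh : ‖h‖ ≤ 2 * X) (b : ‖xi P h - h‖ ≤ ‖h‖ ^ 2 / 9000) : ‖xi P h‖ ≤ 2001 / 1000 * X := by
  have h1 : ‖xi P h‖ ≤ ‖xi P h - h‖ + ‖h‖ := by
    calc ‖xi P h‖ = ‖(xi P h - h) + h‖ := by rw [sub_add_cancel]
      _ ≤ _ := norm_add_le _ _
  have h2 : ‖h‖ ^ 2 ≤ (2 * X) ^ 2 := pow_le_pow_left₀ (norm_nonneg _) nh 2
  nlinarith

/-- part `T` -/
private theorem ctr_partT (hA3 : S_A3) (hB1 : S_B1) (hB2 : S_B2) (hB3 : S_B3) {P : Par}
    (hP : Good P) {X : ℝ} {h v : W} {y : ℕ → A} {h' v' : W} {y' : ℕ → A} {D : ℝ} (hX0 : 0 < X)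
    (hX1 : X ≤ 3 / 10 ^ 4) (hd : Dom X h v y) (hd' : Dom X h' v' y') (hh : ‖h - h'‖ ≤ 2 * D)
    (hv : ‖v - v'‖ ≤ D) (hy : ∀ i, ‖y i - y' i‖ ≤ D) :
    ‖(TT (xi P h) (Vh P X h v y) - TT (xi P h') (Vh P X h' v' y')) - (v - v')‖ ≤
      4 / 1000 * D := by
  have hD : 0 ≤ D := (norm_nonneg _).trans hv
  have hn : ‖h‖ ≤ 1 / 1000 := hd.nh.trans (by linarith)
  have hn' : ‖h'‖ ≤ 1 / 1000 := hd'.nh.trans (by linarith)
  obtain ⟨⟨-, -, -, -, -, b6⟩, -, -, b8⟩ := hB1 P hP h hn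
  obtain ⟨⟨-, -, -, -, -, b6'⟩, -, -, -⟩ := hB1 P hP h' hn'
  obtain ⟨-, l2, -, l4⟩ := b8 h' hn'
  obtain ⟨-, -, cV, -, -⟩ := hB2 P hP X h v y hX0 hX1 hd
  obtain ⟨-, -, cV', -, -⟩ := hB2 P hP X h' v' y' hX0 hX1 hd'
  obtain ⟨-, -, -, -, d5, -⟩ := hB3 P hP X h v y h' v' y' D hX0 hX1 hd hd' hh hv hy
  have x1 := ctr_xi hX0 hX1 hd.nh b6
  have x2 := ctr_xi hX0 hX1 hd'.nh b6'
  have x3 : ‖xi P h - xi P h'‖ ≤ 2002 / 1000 * D := by
    calc ‖xi P h - xi P h'‖ = ‖((xi P h - h) - (xi P h' - h')) + (h - h')‖ := by congr 1; abel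
      _ ≤ ‖(xi P h - h) - (xi P h' - h')‖ + ‖h - h'‖ := norm_add_le _ _
      _ ≤ _ := by linarith
  have t1 := ctr_T hA3 (δ := 2001 / 1000 * X) cV cV' d5 (by positivity) (by linarith) x1 x2
  have c1 : ‖Vh P X h' v' y' 1‖ ≤ 9 / 5 * X := by
    refine (cV' 1).trans (le_of_eq ?_)
    simp
    ring
  have e0 : Vh P X h v y 0 - Vh P X h' v' y' 0 - (v - v') =
      (X * P.a 0) • (tau P h - tau P h') := by
    simp only [Vh, vv, smul_sub]
    abel
  have n0 : ‖Vh P X h v y 0 - Vh P X h' v' y' 0 - (v - v')‖ ≤ 1 / 10 ^ 6 * D := by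
    rw [e0, norm_smul, Real.norm_eq_abs]
    have a1 : |X * P.a 0| ≤ 1 / 10 ^ 8 := by
      have p1 := hP.a0
      have p2 := hP.a0'
      rw [abs_of_nonneg (mul_nonneg hX0.le (by linarith))]
      calc X * P.a 0 ≤ (3 / 10 ^ 4) * (31 / 10 ^ 10) := by
            apply mul_le_mul hX1 p2 (by linarith) (by norm_num)
        _ ≤ _ := by norm_num
    have a2 : ‖tau P h - tau P h'‖ ≤ 2 * D := l2.trans (by linarith)
    calc |X * P.a 0| * ‖tau P h - tau P h'‖ ≤ 1 / 10 ^ 8 * (2 * D) := by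
          apply mul_le_mul a1 a2 (norm_nonneg _) (by norm_num)
      _ ≤ _ := by nlinarith
  have n1 : 10 / 9 * (1001 / 1000 * D) * (3 * ‖xi P h‖) ≤ 21 / 10000 * D := by
    have : ‖xi P h‖ ≤ 6003 / 10 ^ 7 := x1.trans (by linarith)
    calc 10 / 9 * (1001 / 1000 * D) * (3 * ‖xi P h‖)
        ≤ 10 / 9 * (1001 / 1000 * D) * (3 * (6003 / 10 ^ 7)) := by gcongr
      _ ≤ _ := by nlinarith
  have n2 : ‖xi P h - xi P h'‖ * (‖Vh P X h' v' y' 1‖ + 25 * (3 / 5 * X) * (2001 / 1000 * X)) ≤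
      12 / 10000 * D := by
    have : ‖Vh P X h' v' y' 1‖ + 25 * (3 / 5 * X) * (2001 / 1000 * X) ≤ 55 / 10 ^ 5 := by
      nlinarith
    calc _ ≤ (2002 / 1000 * D) * (55 / 10 ^ 5) := by
          apply mul_le_mul x3 this _ (by positivity)
          positivity
      _ ≤ _ := by nlinarith
  calc ‖(TT (xi P h) (Vh P X h v y) - TT (xi P h') (Vh P X h' v' y')) - (v - v')‖
      = ‖((TT (xi P h) (Vh P X h v y) - TT (xi P h') (Vh P X h' v' y')) -
          (Vh P X h v y 0 - Vh P X h' v' y' 0)) +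
          (Vh P X h v y 0 - Vh P X h' v' y' 0 - (v - v'))‖ := by congr 1; abel
    _ ≤ _ := norm_add_le _ _
    _ ≤ _ := by linarith

/-- part `S` -/
private theorem ctr_partS (hA3 : S_A3) (hAB : S_AB) (hB1 : S_B1) (hB2 : S_B2) (hB3 : S_B3)
    {P : Par}
    (hP : Good P) {X : ℝ} {h v : W} {y : ℕ → A} {h' v' : W} {y' : ℕ → A} {D : ℝ} (hX0 : 0 < X)
    (hX1 : X ≤ 3 / 10 ^ 4) (hd : Dom X h v y) (hd' : Dom X h' v' y') (hh : ‖h - h'‖ ≤ 2 * D)
    (hv : ‖v - v'‖ ≤ D) (hy : ∀ i, ‖y i - y' i‖ ≤ D) :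
    ‖(TT (xi P h) (Qh P X h v y) - TT (xi P h') (Qh P X h' v' y')) - (xi P h - xi P h')‖ ≤
      67 / 100 * D ∧ ‖TT (xi P h') (Qh P X h' v' y')‖ ≤ 1 := by
  have hD : 0 ≤ D := (norm_nonneg _).trans hv
  have hn : ‖h‖ ≤ 1 / 1000 := hd.nh.trans (by linarith)
  have hn' : ‖h'‖ ≤ 1 / 1000 := hd'.nh.trans (by linarith)
  obtain ⟨⟨-, -, -, -, -, b6⟩, -, -, b8⟩ := hB1 P hP h hn
  obtain ⟨⟨-, -, -, b4', -, b6'⟩, -, -, -⟩ := hB1 P hP h' hn'
  obtain ⟨-, l2, -, l4⟩ := b8 h' hn'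
  obtain ⟨-, -, -, cQ, -⟩ := hB2 P hP X h v y hX0 hX1 hd
  obtain ⟨-, -, -, cQ', cq'⟩ := hB2 P hP X h' v' y' hX0 hX1 hd'
  obtain ⟨-, -, cq1, -, -, -⟩ := cq' 5 5 (by norm_num) le_rfl (by norm_num) le_rfl hd'.nv hd'.ny
  obtain ⟨-, d2, -, -, -, d6⟩ := hB3 P hP X h v y h' v' y' D hX0 hX1 hd hd' hh hv hy
  have x1 := ctr_xi hX0 hX1 hd.nh b6
  have x2 := ctr_xi hX0 hX1 hd'.nh b6'
  have x3 : ‖xi P h - xi P h'‖ ≤ 2002 / 1000 * D := by
    calc ‖xi P h - xi P h'‖ = ‖((xi P h - h) - (xi P h' - h')) + (h - h')‖ := by congr 1; abel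
      _ ≤ ‖(xi P h - h) - (xi P h' - h')‖ + ‖h - h'‖ := norm_add_le _ _
      _ ≤ _ := by linarith
  have x1' : ‖xi P h‖ ≤ 1 / 30 := by linarith
  have x2' : ‖xi P h'‖ ≤ 1 / 30 := by linarith
  have f0 : ∀ i : ℕ, (0 : ℝ) < 3 ^ i * (i.factorial : ℝ) := fun i => by positivity
  have g1 : ∀ i, ‖Qh P X h v y i‖ ≤ 1 * (3 ^ i * (i.factorial : ℝ)) := fun i =>
    (cQ i).trans (by have := f0 i; nlinarith)
  have g2 : ∀ i, ‖Qh P X h' v' y' i‖ ≤ 1 * (3 ^ i * (i.factorial : ℝ)) := fun i =>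
    (cQ' i).trans (by have := f0 i; nlinarith)
  have k0 : ∀ (q : ℕ → W), (∀ i, ‖q i‖ ≤ 3 / 5 * (3 ^ i * (i.factorial : ℝ))) →
      ∀ i, ‖q i - ctr_e i‖ ≤ 1 * (3 ^ i * (i.factorial : ℝ)) := by
    intro q hq i
    by_cases hi : i = 1
    · subst hi
      calc ‖q 1 - ctr_e 1‖ ≤ ‖q 1‖ + ‖ctr_e 1‖ := norm_sub_le _ _
        _ ≤ 3 / 5 * (3 ^ 1 * ((1 : ℕ).factorial : ℝ)) + 1 := by
            refine add_le_add (hq 1) (le_of_eq ?_)
            simp [ctr_e]
        _ ≤ _ := by norm_num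
    · have : ctr_e i = 0 := by simp [ctr_e, hi]
      rw [this, sub_zero]
      have := f0 i
      exact (hq i).trans (by nlinarith)
  have k3 : ∀ i, ‖(Qh P X h v y i - ctr_e i) - (Qh P X h' v' y' i - ctr_e i)‖ ≤
      2 / 3 * D * (3 ^ i * (i.factorial : ℝ)) := by
    intro i
    rw [sub_sub_sub_cancel_right]
    exact d6 i
  have t1 := ctr_T hA3 (δ := 2001 / 1000 * X) (k0 _ cQ) (k0 _ cQ') k3 (by positivity)
    (by linarith) x1 x2
  obtain ⟨-, a1, a2, a3⟩ := hA3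
  have s1 := (a3 (xi P h) _ _ 1 g1 ctr_e_bd x1').2.1
  have s2 := (a3 (xi P h') _ _ 1 g2 ctr_e_bd x2').2.1
  rw [ctr_TT_e] at s1 s2
  rw [s1, s2] at t1
  refine ⟨?_, ?_⟩
  · have e1 : Qh P X h' v' y' 1 - ctr_e 1 = (X * P.a 2) • tau P h' + qq P h' v' y' 2 := by
      simp only [Qh, ctr_e, hP.b1, if_true, neg_smul, one_smul]
      abel
    have n1 : ‖Qh P X h' v' y' 1 - ctr_e 1‖ ≤ 16 / 10 ^ 4 := by
      rw [e1]
      have A2 : |P.a 2| ≤ 9 / 2 := by
        refine ((hAB P hP).1 2).trans (le_of_eq ?_)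
        simp [Nat.factorial]
        norm_num
      have A3 : |X * P.a 2| ≤ 135 / 10 ^ 5 := by
        rw [abs_mul, abs_of_pos hX0]
        calc X * |P.a 2| ≤ 3 / 10 ^ 4 * (9 / 2) := by
              apply mul_le_mul hX1 A2 (abs_nonneg _) (by norm_num)
          _ ≤ _ := by norm_num
      calc ‖(X * P.a 2) • tau P h' + qq P h' v' y' 2‖
          ≤ ‖(X * P.a 2) • tau P h'‖ + ‖qq P h' v' y' 2‖ := norm_add_le _ _
        _ ≤ 135 / 10 ^ 5 * (1128 / 1000) + 5 / 8 * 5 * X ^ 2 := by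
            refine add_le_add ?_ (cq1 1)
            rw [norm_smul, Real.norm_eq_abs]
            apply mul_le_mul A3 b4' (norm_nonneg _) (by norm_num)
        _ ≤ _ := by nlinarith
    have e0 : (Qh P X h v y 0 - ctr_e 0) - (Qh P X h' v' y' 0 - ctr_e 0) =
        (-X) • (tau P h - tau P h') + (qq P h v y 1 - qq P h' v' y' 1) := by
      simp only [Qh, hP.a1, zero_add, smul_sub, mul_neg, mul_one]
      abel
    have n0 : ‖(Qh P X h v y 0 - ctr_e 0) - (Qh P X h' v' y' 0 - ctr_e 0)‖ ≤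
        626 / 1000 * D := by
      rw [e0]
      calc ‖(-X) • (tau P h - tau P h') + (qq P h v y 1 - qq P h' v' y' 1)‖
          ≤ ‖(-X) • (tau P h - tau P h')‖ + ‖qq P h v y 1 - qq P h' v' y' 1‖ :=
            norm_add_le _ _
        _ ≤ 3 / 10 ^ 4 * (2 * D) + 5 / 8 * D := by
            refine add_le_add ?_ (d2 0)
            rw [norm_smul, norm_neg, Real.norm_eq_abs, abs_of_pos hX0]
            apply mul_le_mul hX1 (l2.trans (by linarith)) (norm_nonneg _) (by norm_num)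
        _ ≤ _ := by nlinarith
    have n3 : 10 / 9 * (2 / 3 * D) * (3 * ‖xi P h‖) ≤ 14 / 10000 * D := by
      have : ‖xi P h‖ ≤ 6003 / 10 ^ 7 := x1.trans (by linarith)
      calc 10 / 9 * (2 / 3 * D) * (3 * ‖xi P h‖)
          ≤ 10 / 9 * (2 / 3 * D) * (3 * (6003 / 10 ^ 7)) := by gcongr
        _ ≤ _ := by nlinarith
    have n4 : ‖xi P h - xi P h'‖ * (‖Qh P X h' v' y' 1 - ctr_e 1‖ +
        25 * 1 * (2001 / 1000 * X)) ≤ 34 / 1000 * D := by
      have : ‖Qh P X h' v' y' 1 - ctr_e 1‖ + 25 * 1 * (2001 / 1000 * X) ≤ 167 / 10 ^ 4 := by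
        linarith
      calc _ ≤ (2002 / 1000 * D) * (167 / 10 ^ 4) := by
            apply mul_le_mul x3 this _ (by positivity)
            positivity
        _ ≤ _ := by nlinarith
    calc ‖(TT (xi P h) (Qh P X h v y) - TT (xi P h') (Qh P X h' v' y')) -
          (xi P h - xi P h')‖
        = ‖((TT (xi P h) (Qh P X h v y) - xi P h - (TT (xi P h') (Qh P X h' v' y') -
          xi P h')) - ((Qh P X h v y 0 - ctr_e 0) - (Qh P X h' v' y' 0 - ctr_e 0))) +
          ((Qh P X h v y 0 - ctr_e 0) - (Qh P X h' v' y' 0 - ctr_e 0))‖ := by congr 1; abel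
      _ ≤ _ := norm_add_le _ _
      _ ≤ _ := by linarith
  · have := (a1 (xi P h') _ (3 / 5) cQ' x2').2 0
    simp only [Finset.range_zero, Finset.sum_empty, sub_zero, pow_zero] at this
    linarith

/-- part `RH` -/
private theorem ctr_partR (hA2 : S_A2) (hB1 : S_B1) (hB2 : S_B2) (hB3 : S_B3)
    {P : Par}
    (hP : Good P) {X : ℝ} {h v : W} {y : ℕ → A} {h' v' : W} {y' : ℕ → A} {D : ℝ} (hX0 : 0 < X)
    (hX1 : X ≤ 3 / 10 ^ 4) (hd : Dom X h v y) (hd' : Dom X h' v' y') (hh : ‖h - h'‖ ≤ 2 * D)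
    (hv : ‖v - v'‖ ≤ D) (hy : ∀ i, ‖y i - y' i‖ ≤ D) (i : ℕ) :
    ‖RH P h v y i - RH P h' v' y' i‖ ≤ 4 / 5 * D := by
  have hD : 0 ≤ D := (norm_nonneg _).trans hv
  have hn : ‖h‖ ≤ 1 / 1000 := hd.nh.trans (by linarith)
  have hn' : ‖h'‖ ≤ 1 / 1000 := hd'.nh.trans (by linarith)
  obtain ⟨-, -, -, b8⟩ := hB1 P hP h hn
  obtain ⟨⟨-, b2', -, -, -, -⟩, -, -, -⟩ := hB1 P hP h' hn'
  obtain ⟨l1, -, -, -⟩ := b8 h' hn'
  obtain ⟨-, -, -, -, cq⟩ := hB2 P hP X h v y hX0 hX1 hd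
  obtain ⟨-, c2, -, c4, -, -⟩ := cq 5 5 (by norm_num) le_rfl (by norm_num) le_rfl hd.nv hd.ny
  obtain ⟨d1, -, d3, -, -, -⟩ := hB3 P hP X h v y h' v' y' D hX0 hX1 hd hd' hh hv hy
  have nu1 := hP.nu1
  have nu2 := hP.nu2
  have nu0 : 0 < P.nu := by linarith
  have B1 : ‖beta P h - beta P h'‖ ≤ 16 * P.nu * D := by
    refine l1.trans ?_
    nlinarith
  have B2 : ‖beta P h'‖ ≤ 4 / 1000 := by
    refine b2'.trans ?_
    have : ‖h'‖ ≤ 6 / 10 ^ 4 := hd'.nh.trans (by linarith)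
    calc 8 * P.nu * ‖h'‖ ≤ 8 * (41 / 50) * (6 / 10 ^ 4) := by gcongr
      _ ≤ _ := by norm_num
  have X2 : X ^ 2 ≤ 9 / 10 ^ 8 := by nlinarith
  -- bounds of the functions
  have I0 : ∀ j, ‖inc (qq P h v y j)‖ ≤ 5 / 2 * X ^ 2 := by
    intro j
    cases j with
    | zero => exact c2.trans (by nlinarith [sq_nonneg X])
    | succ j => exact (c4 j).trans (by nlinarith [sq_nonneg X])
  have I1 : ∀ j, ‖inc (qq P h v y j) - inc (qq P h' v' y' j)‖ ≤ 1 / 2 * D := by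
    intro j
    cases j with
    | zero => exact d1.trans (by nlinarith)
    | succ j => exact d3 j
  have R := hA2.2.2.2.2.2.2.2.2
  have J0 : ((i : ℝ) + 1) / P.n * ‖inc (qq P h v y (i + 1))‖ ≤ 5 * X ^ 2 := by
    have := R P.n (i + 1) (y i)
    push_cast at this
    exact this.trans (hd.ny i)
  have J1 : ((i : ℝ) + 1) / P.n * ‖inc (qq P h v y (i + 1)) - inc (qq P h' v' y' (i + 1))‖ ≤
      D := by
    have := R P.n (i + 1) (y i - y' i)
    push_cast at this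
    rw [map_sub, map_sub] at this
    exact this.trans (hy i)
  have hE : RH P h v y i - RH P h' v' y' i =
      (1 / (2 * P.nu)) • ((beta P h - beta P h') * (inc (qq P h v y i) + inc (qq P h v y (i + 2))) +
        (1 + beta P h') * ((inc (qq P h v y i) - inc (qq P h' v' y' i)) +
          (inc (qq P h v y (i + 2)) - inc (qq P h' v' y' (i + 2))))) -
      (((i : ℝ) + 1) / P.n) • ((beta P h - beta P h') * inc (qq P h v y (i + 1)) +
        beta P h' * (inc (qq P h v y (i + 1)) - inc (qq P h' v' y' (i + 1)))) := by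
    unfold RH
    rw [map_add, map_add]
    have e1 : ∀ (r s : ℝ) (a a' b b' : A), (r • a - s • b) - (r • a' - s • b') =
        r • (a - a') - s • (b - b') := by
      intro r s a a' b b'
      rw [smul_sub, smul_sub]
      abel
    rw [e1]
    congr 2 <;> ring
  have N1 : ‖(beta P h - beta P h') * (inc (qq P h v y i) + inc (qq P h v y (i + 2)))‖ ≤
      16 * P.nu * D * (5 * X ^ 2) := by
    refine (norm_mul_le _ _).trans (mul_le_mul B1 ?_ (norm_nonneg _) (by positivity))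
    exact (norm_add_le _ _).trans (by linarith [I0 i, I0 (i + 2)])
  have N2 : ‖(1 + beta P h') * ((inc (qq P h v y i) - inc (qq P h' v' y' i)) +
          (inc (qq P h v y (i + 2)) - inc (qq P h' v' y' (i + 2))))‖ ≤ 1004 / 1000 * D := by
    refine (norm_mul_le _ _).trans (mul_le_mul ?_ ?_ (norm_nonneg _) (by norm_num))
    · refine (norm_add_le _ _).trans ?_
      rw [norm_one]
      linarith
    · exact (norm_add_le _ _).trans (by linarith [I1 i, I1 (i + 2)])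
  have i0 : 0 ≤ ((i : ℝ) + 1) / P.n := by positivity
  have N3 : ((i : ℝ) + 1) / P.n * ‖(beta P h - beta P h') * inc (qq P h v y (i + 1))‖ ≤
      14 * D * (5 * X ^ 2) := by
    calc ((i : ℝ) + 1) / P.n * ‖(beta P h - beta P h') * inc (qq P h v y (i + 1))‖
        ≤ ((i : ℝ) + 1) / P.n * (‖beta P h - beta P h'‖ * ‖inc (qq P h v y (i + 1))‖) :=
          mul_le_mul_of_nonneg_left (norm_mul_le _ _) i0
      _ = ‖beta P h - beta P h'‖ * (((i : ℝ) + 1) / P.n * ‖inc (qq P h v y (i + 1))‖) := by ring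
      _ ≤ 14 * D * (5 * X ^ 2) := by
          apply mul_le_mul (B1.trans (by nlinarith)) J0 (by positivity) (by positivity)
  have N4 : ((i : ℝ) + 1) / P.n * ‖beta P h' * (inc (qq P h v y (i + 1)) -
      inc (qq P h' v' y' (i + 1)))‖ ≤ 4 / 1000 * D := by
    calc ((i : ℝ) + 1) / P.n * ‖beta P h' * (inc (qq P h v y (i + 1)) -
          inc (qq P h' v' y' (i + 1)))‖
        ≤ ((i : ℝ) + 1) / P.n * (‖beta P h'‖ * ‖inc (qq P h v y (i + 1)) -
          inc (qq P h' v' y' (i + 1))‖) :=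
          mul_le_mul_of_nonneg_left (norm_mul_le _ _) i0
      _ = ‖beta P h'‖ * (((i : ℝ) + 1) / P.n * ‖inc (qq P h v y (i + 1)) -
          inc (qq P h' v' y' (i + 1))‖) := by ring
      _ ≤ 4 / 1000 * D := by
          apply mul_le_mul B2 J1 (by positivity) (by norm_num)
  have r0 : 1 / (2 * P.nu) ≤ 5 / 8 := by
    rw [div_le_iff₀ (by positivity)]
    linarith
  have r1 : 0 < 1 / (2 * P.nu) := by positivity
  have M1 : ‖(1 / (2 * P.nu)) • ((beta P h - beta P h') *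
        (inc (qq P h v y i) + inc (qq P h v y (i + 2))) +
        (1 + beta P h') * ((inc (qq P h v y i) - inc (qq P h' v' y' i)) +
          (inc (qq P h v y (i + 2)) - inc (qq P h' v' y' (i + 2)))))‖ ≤ 64 / 100 * D := by
    rw [norm_smul, Real.norm_eq_abs, abs_of_pos r1]
    calc _ ≤ 1 / (2 * P.nu) * (16 * P.nu * D * (5 * X ^ 2) + 1004 / 1000 * D) := by
          apply mul_le_mul_of_nonneg_left _ r1.le
          exact (norm_add_le _ _).trans (add_le_add N1 N2)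
      _ = 40 * X ^ 2 * D + 1 / (2 * P.nu) * (1004 / 1000 * D) := by
          field_simp
          ring
      _ ≤ 40 * (9 / 10 ^ 8) * D + 5 / 8 * (1004 / 1000 * D) := by gcongr
      _ ≤ _ := by nlinarith
  have M2 : ‖(((i : ℝ) + 1) / P.n) • ((beta P h - beta P h') * inc (qq P h v y (i + 1)) +
        beta P h' * (inc (qq P h v y (i + 1)) - inc (qq P h' v' y' (i + 1))))‖ ≤
        5 / 1000 * D := by
    rw [norm_smul, Real.norm_eq_abs, abs_of_nonneg i0]
    calc _ ≤ ((i : ℝ) + 1) / P.n * (‖(beta P h - beta P h') * inc (qq P h v y (i + 1))‖ +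
        ‖beta P h' * (inc (qq P h v y (i + 1)) - inc (qq P h' v' y' (i + 1)))‖) := by
          apply mul_le_mul_of_nonneg_left _ i0
          exact norm_add_le _ _
      _ ≤ 14 * D * (5 * X ^ 2) + 4 / 1000 * D := by
          rw [mul_add]
          exact add_le_add N3 N4
      _ ≤ 14 * D * (5 * (9 / 10 ^ 8)) + 4 / 1000 * D := by gcongr
      _ ≤ _ := by nlinarith
  rw [hE]
  exact (norm_sub_le _ _).trans (by linarith)

/-- SC-CTR. -/
theorem proof_CTR (hA1 : S_A1) (hA2 : S_A2) (hA3 : S_A3) (hAB : S_AB) (hB1 : S_B1) (hB2 : S_B2)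
    (hB3 : S_B3) : S_CTR := by
  intro P hP X h v y h' v' y' D hX0 hX1 hd hd' hh hv hy
  have _ := hA1
  have hD : 0 ≤ D := (norm_nonneg _).trans hv
  have hn : ‖h‖ ≤ 1 / 1000 := hd.nh.trans (by linarith)
  have hn' : ‖h'‖ ≤ 1 / 1000 := hd'.nh.trans (by linarith)
  have pT := ctr_partT hA3 hB1 hB2 hB3 hP hX0 hX1 hd hd' hh hv hy
  obtain ⟨pS, pS'⟩ := ctr_partS hA3 hAB hB1 hB2 hB3 hP hX0 hX1 hd hd' hh hv hy
  refine ⟨?_, ?_, fun i => ctr_partR hA2 hB1 hB2 hB3 hP hX0 hX1 hd hd' hh hv hy i⟩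
  · obtain ⟨⟨-, -, -, -, b5, b6⟩, b7, -, b8⟩ := hB1 P hP h hn
    obtain ⟨⟨-, -, -, -, -, b6'⟩, b7', -, -⟩ := hB1 P hP h' hn'
    obtain ⟨-, -, l3, l4⟩ := b8 h' hn'
    have cn := hA2.2.1.2.2.2.1
    have cx := (b7 hd.hc).1
    have cx' := (b7' hd'.hc).1
    have nu1 := hP.nu1
    have nu2 := hP.nu2
    have nu0 : 0 < P.nu := by linarith
    have x3 : ‖xi P h - xi P h'‖ ≤ 2002 / 1000 * D := by
      calc ‖xi P h - xi P h'‖ = ‖((xi P h - h) - (xi P h' - h')) + (h - h')‖ := by congr 1; abel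
        _ ≤ ‖(xi P h - h) - (xi P h' - h')‖ + ‖h - h'‖ := norm_add_le _ _
        _ ≤ _ := by linarith
    unfold EE
    generalize xi P h = ξ at *
    generalize xi P h' = ξ' at *
    generalize YY P h = Y at *
    generalize YY P h' = Y' at *
    generalize TT ξ (Vh P X h v y) = T at *
    generalize TT ξ' (Vh P X h' v' y') = T' at *
    generalize TT ξ (Qh P X h v y) = S at *
    generalize TT ξ' (Qh P X h' v' y') = S' at *
    set E := (S - S') - (ξ - ξ') with hE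
    have cE : conj S - conj S' = (ξ - ξ') + conj E := by
      rw [hE, map_sub, map_sub, map_sub, cx, cx']
      abel
    have key : h + ((P.nu / 2) • (T + conj T) - (1 / 2 : ℝ) • (Y * (S + conj S))) -
        (h' + ((P.nu / 2) • (T' + conj T') - (1 / 2 : ℝ) • (Y' * (S' + conj S')))) =
        (-((ξ - h) - (ξ' - h')) - (Y - 1) * (ξ - ξ')) +
        (P.nu / 2) • ((T - T') + conj (T - T')) - (1 / 2 : ℝ) • (Y * (E + conj E)) -
        (1 / 2 : ℝ) • ((Y - Y') * (S' + conj S')) := by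
      have e1 : Y * (S + conj S) - Y' * (S' + conj S') =
          (2 : ℝ) • (Y * (ξ - ξ')) + Y * (E + conj E) + (Y - Y') * (S' + conj S') := by
        have e2 : S = S' + (ξ - ξ') + E := by rw [hE]; abel
        have e3 : conj S = conj S' + (ξ - ξ') + conj E := by
          rw [add_assoc, ← cE]; abel
        rw [e3]
        nth_rewrite 1 [e2]
        rw [two_smul]
        ring
      have e4 : (1 / 2 : ℝ) • (Y * (S + conj S)) - (1 / 2 : ℝ) • (Y' * (S' + conj S')) =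
          Y * (ξ - ξ') + (1 / 2 : ℝ) • (Y * (E + conj E)) +
            (1 / 2 : ℝ) • ((Y - Y') * (S' + conj S')) := by
        rw [← smul_sub, e1, smul_add, smul_add, smul_smul]
        norm_num
      have e5 : (P.nu / 2) • (T + conj T) - (P.nu / 2) • (T' + conj T') =
          (P.nu / 2) • ((T - T') + conj (T - T')) := by
        rw [← smul_sub, map_sub]
        congr 1
        abel
      have e6 : h + ((P.nu / 2) • (T + conj T) - (1 / 2 : ℝ) • (Y * (S + conj S))) -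
          (h' + ((P.nu / 2) • (T' + conj T') - (1 / 2 : ℝ) • (Y' * (S' + conj S')))) =
          (h - h') + ((P.nu / 2) • (T + conj T) - (P.nu / 2) • (T' + conj T')) -
          ((1 / 2 : ℝ) • (Y * (S + conj S)) - (1 / 2 : ℝ) • (Y' * (S' + conj S'))) := by
        abel
      rw [e6, e5, e4]
      ring
    rw [key]
    have n1 : ‖-((ξ - h) - (ξ' - h')) - (Y - 1) * (ξ - ξ')‖ ≤ 3 / 1000 * D := by
      calc _ ≤ ‖-((ξ - h) - (ξ' - h'))‖ + ‖(Y - 1) * (ξ - ξ')‖ := norm_sub_le _ _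
        _ ≤ 2 / 1000 * D + 1 / 10 ^ 6 * (2002 / 1000 * D) := by
            refine add_le_add ?_ ?_
            · rw [norm_neg]
              linarith
            · refine (norm_mul_le _ _).trans (mul_le_mul ?_ x3 (norm_nonneg _) (by norm_num))
              refine b5.trans ?_
              nlinarith
        _ ≤ _ := by nlinarith
    have nTT : ‖T - T'‖ ≤ 1004 / 1000 * D := by
      calc ‖T - T'‖ = ‖((T - T') - (v - v')) + (v - v')‖ := by rw [sub_add_cancel]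
        _ ≤ _ := norm_add_le _ _
        _ ≤ _ := by linarith
    have n2 : ‖(P.nu / 2) • ((T - T') + conj (T - T'))‖ ≤ 83 / 100 * D := by
      rw [norm_smul, Real.norm_eq_abs, abs_of_pos (by positivity)]
      have : ‖(T - T') + conj (T - T')‖ ≤ 2 * (1004 / 1000 * D) := by
        refine (norm_add_le _ _).trans ?_
        rw [cn]
        linarith
      calc P.nu / 2 * ‖(T - T') + conj (T - T')‖ ≤ (41 / 50) / 2 * (2 * (1004 / 1000 * D)) := by
            apply mul_le_mul (by linarith) this (norm_nonneg _) (by norm_num)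
        _ ≤ _ := by nlinarith
    have nY : ‖Y‖ ≤ 1001 / 1000 := by
      calc ‖Y‖ = ‖(Y - 1) + 1‖ := by rw [sub_add_cancel]
        _ ≤ ‖Y - 1‖ + ‖(1 : W)‖ := norm_add_le _ _
        _ ≤ _ := by
            rw [norm_one]
            linarith
    have n3 : ‖(1 / 2 : ℝ) • (Y * (E + conj E))‖ ≤ 68 / 100 * D := by
      rw [norm_smul, Real.norm_eq_abs, abs_of_pos (by norm_num)]
      have : ‖E + conj E‖ ≤ 2 * (67 / 100 * D) := by
        refine (norm_add_le _ _).trans ?_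
        rw [cn]
        linarith
      calc 1 / 2 * ‖Y * (E + conj E)‖ ≤ 1 / 2 * ((1001 / 1000) * (2 * (67 / 100 * D))) := by
            apply mul_le_mul_of_nonneg_left _ (by norm_num)
            refine (norm_mul_le _ _).trans (mul_le_mul nY this (norm_nonneg _) (by norm_num))
        _ ≤ _ := by nlinarith
    have n4 : ‖(1 / 2 : ℝ) • ((Y - Y') * (S' + conj S'))‖ ≤ 1 / 1000 * D := by
      rw [norm_smul, Real.norm_eq_abs, abs_of_pos (by norm_num)]
      have t : ‖S' + conj S'‖ ≤ 2 := by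
        refine (norm_add_le _ _).trans ?_
        rw [cn]
        linarith
      have t' : ‖Y - Y'‖ ≤ 1 / 1000 * D := by
        refine l3.trans ?_
        nlinarith
      calc 1 / 2 * ‖(Y - Y') * (S' + conj S')‖ ≤ 1 / 2 * ((1 / 1000 * D) * 2) := by
            apply mul_le_mul_of_nonneg_left _ (by norm_num)
            refine (norm_mul_le _ _).trans (mul_le_mul t' t (norm_nonneg _) (by positivity))
        _ ≤ _ := by nlinarith
    refine (norm_sub_le _ _).trans ?_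
    refine (add_le_add_left (norm_sub_le _ _) _).trans ?_
    refine (add_le_add_left (add_le_add_left (norm_add_le _ _) _) _).trans ?_
    linarith
  · have cn := hA2.2.1.2.2.2.1
    unfold OO
    set T := TT (xi P h) (Vh P X h v y) with hT
    set T' := TT (xi P h') (Vh P X h' v' y') with hT'
    have e : T - conj T - (T' - conj T') - ((v - v') - conj (v - v')) =
        ((T - T') - (v - v')) - conj ((T - T') - (v - v')) := by
      simp only [map_sub]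
      abel
    rw [e]
    refine (norm_sub_le _ _).trans ?_
    rw [cn]
    linarith

end Pool.Agent.H812.SF
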