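import Pool.Agent.H812.SF.Stm3

/-!
Project SF (helper812): the domain for given parameters, and many domains near one disc.
-/

set_option autoImplicit false

open Set Filter Topology MeasureTheory

namespace Pool.Agent.H812.SF

open Pool.Agent.N229.SC

theorem proof_DOM (hEXI : S_EXI) (hFN1 : S_FN1) (hFN2 : S_FN2) (hFN3 : S_FN3)
    (hFN4 : S_FN4) (hFN5 : S_FN5) (hCLO : S_CLO) (hINC : S_INC) (hTR1 : S_TR1) (hROT : S_ROT)
    (hPDE : S_PDE) (hINJ : S_INJ) (hTOP : S_TOP) (hLIP : S_LIP) (hNB : S_NB)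
    (hWK1 : S_WK1) (hWK2 : S_WK2) (hWK3 : S_WK3) : S_DOM := by
  intro P hG hbd
  obtain ⟨X, h, v, y, hX, hX', hX5, hsol, hO, hh⟩ := hEXI P hG
  have hF : Full P X h v y := ⟨hG, hbd, hX, hX', hsol, hO, hh⟩
  obtain ⟨hconf, hnd⟩ := hFN1 P X h v y hF
  obtain ⟨hQd, hQb⟩ := hFN2 P X h v y hF
  have hStr : Str P.ρ (rF P) (fF P h) (QF P X h v y) :=
    ⟨hconf, hQd, hQb, hFN3 P X h v y hF, hFN4 P X h v y hF, hFN5 P X h v y hF⟩
  obtain ⟨r', c, U, S, hr1, hr2, hCl⟩ := hPDE _ _ _ _ hStr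
  obtain ⟨t1, t2, t3, t4, t5, t6⟩ := hTOP _ _ _ hconf
  obtain ⟨w1, w2, w3⟩ := hWK1 _ _ _ _ _ _ _ hconf hr1 hr2 hCl
  -- the size of `h`
  obtain ⟨q, hq⟩ : ∃ q : ℝ, q = Real.sqrt (P.a 0) := ⟨_, rfl⟩
  have hq0 : 0 < q := hq ▸ Real.sqrt_pos.2 hG.a0
  have hq1 : q ≤ 1 / 10000 := by
    rw [hq, Real.sqrt_le_left (by positivity)]
    exact hG.a0'.trans (by norm_num)
  rw [← hq] at hX5 ⊢
  have hs2 : ‖h‖ ≤ 10 * q := by
    have := hsol.nh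
    linarith
  have hclose : ∀ z ∈ Metric.ball (0 : ℂ) (rF P), ‖fF P h z - P.ρ * z‖ ≤ 2 * (10 * q) ∧
      ‖deriv (fF P h) z - P.ρ‖ ≤ 10 * (10 * q) * P.ρ :=
    hCLO P h (10 * q) hG hs2 (by linarith)
  have hρ0 : 0 < P.ρ := hconf.rho_pos
  -- the inclusions
  have hinc := hINC P.ρ (rF P) (100 * q) (fF P h) hconf (by positivity) (by
    intro z hz
    have h1 := (hclose z (by
      rw [mem_ball_zero_iff, hz]
      exact hconf.r_gt)).1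
    have h2 : ‖(P.ρ : ℂ) * z‖ = P.ρ := by
      rw [norm_mul, hz, mul_one, Complex.norm_real, Real.norm_eq_abs, abs_of_pos hρ0]
    have h3 := abs_norm_sub_norm_le (fF P h z) (P.ρ * z)
    rw [h2] at h3
    linarith)
  have hweak : Weak (Om (fF P h)) 1 c (uF (fF P h) U) (GF (fF P h) S) :=
    ⟨w1, w2, hWK2 _ _ _ _ _ _ _ hconf hr1 hr2 hCl, hWK3 _ _ _ _ _ _ _ hconf hr1 hr2 hCl, w3⟩
  obtain ⟨d1, d2, d3, d4⟩ := hTR1 (Om (fF P h)) 1 c _ _ t1 t2 t3 t4 t6 (by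
    intro p hp
    rw [t5] at hp
    obtain ⟨z, hz, rfl⟩ := hp
    exact hLIP _ _ _ hconf z (by simpa using hz)) (hNB _ _ _ hconf hnd) hweak
  refine ⟨Om (fF P h), t1, t2, t3.nonempty, hROT P X h v y hF,
    (fun z : ℂ => (!₂[z.re, z.im] : E2)) '' (Om (fF P h)), rfl, d1, d3, d2, ?_, ?_, ?_⟩
  · refine ⟨rF P, fF P h, hconf.r_gt, hconf.f_diff, (hINJ _ _ _ hconf).2, ?_, rfl⟩
    intro z hz
    obtain ⟨h1, h2⟩ := hclose z hz
    refine ⟨h1.trans (by linarith), h2.trans ?_⟩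
    refine mul_le_mul_of_nonneg_right (by linarith) hρ0.le
  · exact (d4 _).1 hinc.1
  · exact (d4 _).2 hinc.2

/-- A larger tolerance. -/
theorem NearDisc.mono {ε ε' ρ : ℝ} {Ω : Set E2} (h : NearDisc ε ρ Ω) (hε : ε ≤ ε')
    (hρ : 0 ≤ ρ) : NearDisc ε' ρ Ω := by
  obtain ⟨r, f, h1, h2, h3, h4, h5⟩ := h
  refine ⟨r, f, h1, h2, h3, fun z hz => ⟨(h4 z hz).1.trans hε, (h4 z hz).2.trans ?_⟩, h5⟩
  exact mul_le_mul_of_nonneg_right hε hρ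

end Pool.Agent.H812.SF
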