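import Pool.Agent.H812.SF.Stm

/-!
Project SC (helper229), problem MP_83fd13_an: the fixed point (helper543).
-/

set_option autoImplicit false

open Set Filter Topology

namespace Pool.Agent.H812.SF

open Pool.Agent.N229.SC

/-- The state space of the iteration. -/
abbrev fix_St : Type := W × W × (ℕ → A)

/-- The distance of two states is at most `D`. -/
def fix_dd (p q : fix_St) (D : ℝ) : Prop :=
  ‖p.1 - q.1‖ ≤ 2 * D ∧ ‖p.2.1 - q.2.1‖ ≤ D ∧ ∀ i, ‖p.2.2 i - q.2.2 i‖ ≤ D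

/-- The domain, for states. -/
def fix_Dm (X : ℝ) (p : fix_St) : Prop := Dom X p.1 p.2.1 p.2.2

/-- The map. -/
noncomputable def fix_Ps (P : Par) (X : ℝ) (p : fix_St) : fix_St :=
  (p.1 + EE P X p.1 p.2.1 p.2.2, p.2.1 - Pi2 (OO P X p.1 p.2.1 p.2.2), RH P p.1 p.2.1 p.2.2)

/-- The difference of the second components. -/
private theorem fix_v (hA1 : S_A1) (hA2 : S_A2) (v v' : W) (hv : ∀ j < 2, cf v j = 0)
    (hv' : ∀ j < 2, cf v' j = 0) (o o' : W) :
    ‖(v - Pi2 o) - (v' - Pi2 o')‖ ≤ ‖(o - o') - ((v - v') - conj (v - v'))‖ := by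
  obtain ⟨h1, h2, h3, h4, h5, h6, h7, h8, h9, h10, h11, h12, h13⟩ := hA1 wW
  obtain ⟨k1, ⟨k2, -⟩, k3, k4, ⟨k5, k5'⟩, k6⟩ := hA2
  have e : (v - Pi2 o) - (v' - Pi2 o') = -Pi2 ((o - o') - ((v - v') - conj (v - v'))) := by
    refine h10 _ _ fun j => ?_
    rw [h2, h2, h2, h3, k5, k5, k5, h2, h2, h2, h2, k2, h2]
    by_cases hj : 2 ≤ j
    · rw [if_pos hj, if_pos hj, if_pos hj, hv (-j) (by omega), hv' (-j) (by omega)]
      ring
    · rw [if_neg hj, if_neg hj, if_neg hj, hv j (by omega), hv' j (by omega)]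
      ring
  rw [e, norm_neg]
  exact k5' _

/-- The map is a contraction. -/
private theorem fix_ctr (hA1 : S_A1) (hA2 : S_A2) (hCTR : S_CTR) (P : Par) (hP : Good P)
    (X : ℝ) (hX : 0 < X) (hX' : X ≤ 3 / 10 ^ 4) (p q : fix_St) (hp : fix_Dm X p)
    (hq : fix_Dm X q) (D : ℝ) (hD : fix_dd p q D) :
    fix_dd (fix_Ps P X p) (fix_Ps P X q) (4 / 5 * D) := by
  have hD0 : 0 ≤ D := (norm_nonneg _).trans hD.2.1
  obtain ⟨c1, c2, c3⟩ := hCTR P hP X p.1 p.2.1 p.2.2 q.1 q.2.1 q.2.2 D hX hX' hp hq hD.1 hD.2.1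
    hD.2.2
  refine ⟨c1, ?_, c3⟩
  refine (fix_v hA1 hA2 _ _ hp.hv hq.hv _ _).trans (c2.trans ?_)
  linarith

/-- The domain grows with `X`. -/
private theorem fix_mono {X X' : ℝ} (hX : 0 < X) (hXX : X ≤ X') {p : fix_St}
    (hp : fix_Dm X p) : fix_Dm X' p := by
  have h1 : X ^ 2 ≤ X' ^ 2 := pow_le_pow_left₀ hX.le hXX 2
  exact
    { hc := hp.hc
      hv := hp.hv
      hy := hp.hy
      nh := hp.nh.trans (by linarith)
      nv := hp.nv.trans (by linarith)
      ny := fun i => (hp.ny i).trans (by linarith) }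

/-- Two states of the domain. -/
private theorem fix_diam {X : ℝ} (hX : 0 < X) (hX' : X ≤ 3 / 10 ^ 4) {p q : fix_St}
    (hp : fix_Dm X p) (hq : fix_Dm X q) : fix_dd p q (2 * X) := by
  have h1 : 5 * X ^ 2 + 5 * X ^ 2 ≤ 2 * X := by nlinarith
  refine ⟨?_, ?_, fun i => ?_⟩
  · refine (norm_sub_le _ _).trans ?_
    have := hp.nh
    have := hq.nh
    linarith
  · refine (norm_sub_le _ _).trans ?_
    have := hp.nv
    have := hq.nv
    linarith
  · refine (norm_sub_le _ _).trans ?_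
    have := hp.ny i
    have := hq.ny i
    linarith

/-- Closedness of the domain. -/
private theorem fix_closed (hA1 : S_A1) {X : ℝ} {s : ℕ → fix_St} (hs : ∀ n, fix_Dm X (s n))
    {p : fix_St} (h1 : Tendsto (fun n => (s n).1) atTop (𝓝 p.1))
    (h2 : Tendsto (fun n => (s n).2.1) atTop (𝓝 p.2.1))
    (h3 : ∀ i, Tendsto (fun n => (s n).2.2 i) atTop (𝓝 (p.2.2 i))) : fix_Dm X p := by
  have cW : ∀ (u : ℕ → W) (a : W) (j : ℤ), Tendsto u atTop (𝓝 a) → (∀ n, cf (u n) j = 0) →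
      cf a j = 0 := by
    intro u a j hu h0
    obtain ⟨L, hL⟩ := (hA1 wW).2.2.2.2.2.2.2.2.2.2.2.2 j
    rw [← hL]
    have h5 : Tendsto (fun n => L (u n)) atTop (𝓝 (L a)) := (L.continuous.tendsto a).comp hu
    have h6 : (fun n => L (u n)) = fun _ => 0 := by
      funext n
      rw [hL, h0 n]
    rw [h6] at h5
    exact (tendsto_nhds_unique h5 tendsto_const_nhds)
  have cA : ∀ (u : ℕ → A) (a : A) (j : ℤ), Tendsto u atTop (𝓝 a) → (∀ n, cf (u n) j = 0) →
      cf a j = 0 := by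
    intro u a j hu h0
    obtain ⟨L, hL⟩ := (hA1 wA).2.2.2.2.2.2.2.2.2.2.2.2 j
    rw [← hL]
    have h5 : Tendsto (fun n => L (u n)) atTop (𝓝 (L a)) := (L.continuous.tendsto a).comp hu
    have h6 : (fun n => L (u n)) = fun _ => 0 := by
      funext n
      rw [hL, h0 n]
    rw [h6] at h5
    exact (tendsto_nhds_unique h5 tendsto_const_nhds)
  exact
    { hc := by
        have h5 : Tendsto (fun n => conj (s n).1) atTop (𝓝 (conj p.1)) :=
          (conj.continuous.tendsto _).comp h1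
        have h6 : (fun n => conj (s n).1) = fun n => (s n).1 := by
          funext n
          exact (hs n).hc
        rw [h6] at h5
        exact tendsto_nhds_unique h5 h1
      hv := fun j hj => cW _ _ j h2 fun n => (hs n).hv j hj
      hy := fun i j hj => cA _ _ j (h3 i) fun n => (hs n).hy i j hj
      nh := le_of_tendsto h1.norm (Eventually.of_forall fun n => (hs n).nh)
      nv := le_of_tendsto h2.norm (Eventually.of_forall fun n => (hs n).nv)
      ny := fun i => le_of_tendsto (h3 i).norm (Eventually.of_forall fun n => (hs n).ny i) }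

/-- The fixed point. -/
private theorem fix_ex (hA1 : S_A1) (hA2 : S_A2) (hSELF : S_SELF) (hCTR : S_CTR) (P : Par)
    (hP : Good P) (X : ℝ) (hX0 : 0 < X) (hX : Real.sqrt (P.a 0) ≤ X) (hX' : X ≤ 3 / 10 ^ 4) :
    ∃ p : fix_St, fix_Dm X p ∧ fix_Ps P X p = p := by
  set s : ℕ → fix_St := fun n => (fix_Ps P X)^[n] (0, 0, fun _ => 0) with hsd
  have hs1 : ∀ n, s (n + 1) = fix_Ps P X (s n) := fun n => by
    rw [hsd]
    exact Function.iterate_succ_apply' _ _ _
  have hs : ∀ n, fix_Dm X (s n) := by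
    intro n
    induction n with
    | zero =>
      exact
        { hc := by
            show conj (0 : W) = 0
            exact map_zero _
          hv := fun j _ => (hA1 wW).2.2.2.1 j
          hy := fun i j _ => (hA1 wA).2.2.2.1 j
          nh := by
            show ‖(0 : W)‖ ≤ _
            rw [norm_zero]
            linarith
          nv := by
            show ‖(0 : W)‖ ≤ _
            rw [norm_zero]
            positivity
          ny := fun i => by
            show ‖(0 : A)‖ ≤ _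
            rw [norm_zero]
            positivity }
    | succ n ih =>
      rw [hs1]
      exact hSELF P hP X _ _ _ hX hX' ih
  have hd : ∀ n, fix_dd (s n) (s (n + 1)) (2 * X * (4 / 5) ^ n) := by
    intro n
    induction n with
    | zero =>
      rw [pow_zero, mul_one]
      exact fix_diam hX0 hX' (hs 0) (hs 1)
    | succ n ih =>
      have := fix_ctr hA1 hA2 hCTR P hP X hX0 hX' _ _ (hs n) (hs (n + 1)) _ ih
      rw [← hs1, ← hs1] at this
      have e : 4 / 5 * (2 * X * (4 / 5) ^ n) = 2 * X * (4 / 5) ^ (n + 1) := by ring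
      rwa [e] at this
  have r1 : (4 / 5 : ℝ) < 1 := by norm_num
  have g1 : ∀ n, dist (s n).1 (s (n + 1)).1 ≤ 2 * (2 * X) * (4 / 5) ^ n := fun n => by
    rw [dist_eq_norm]
    refine (hd n).1.trans (le_of_eq ?_)
    ring
  have g2 : ∀ n, dist (s n).2.1 (s (n + 1)).2.1 ≤ 2 * X * (4 / 5) ^ n := fun n => by
    rw [dist_eq_norm]
    exact (hd n).2.1
  have g3 : ∀ i n, dist ((s n).2.2 i) ((s (n + 1)).2.2 i) ≤ 2 * X * (4 / 5) ^ n := fun i n => by
    rw [dist_eq_norm]
    exact (hd n).2.2 i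
  obtain ⟨H, hH⟩ := cauchySeq_tendsto_of_complete (cauchySeq_of_le_geometric _ _ r1 g1)
  obtain ⟨V, hV⟩ := cauchySeq_tendsto_of_complete (cauchySeq_of_le_geometric _ _ r1 g2)
  have hYe : ∀ i, ∃ Y : A, Tendsto (fun n => (s n).2.2 i) atTop (𝓝 Y) := fun i =>
    cauchySeq_tendsto_of_complete (cauchySeq_of_le_geometric _ _ r1 (g3 i))
  choose Y hY using hYe
  have b1 : ∀ n, ‖(s n).1 - H‖ ≤ 2 * (10 * X * (4 / 5) ^ n) := fun n => by
    have := dist_le_of_le_geometric_of_tendsto _ _ r1 g1 hH n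
    rw [dist_eq_norm] at this
    refine this.trans (le_of_eq ?_)
    ring
  have b2 : ∀ n, ‖(s n).2.1 - V‖ ≤ 10 * X * (4 / 5) ^ n := fun n => by
    have := dist_le_of_le_geometric_of_tendsto _ _ r1 g2 hV n
    rw [dist_eq_norm] at this
    refine this.trans (le_of_eq ?_)
    ring
  have b3 : ∀ i n, ‖(s n).2.2 i - Y i‖ ≤ 10 * X * (4 / 5) ^ n := fun i n => by
    have := dist_le_of_le_geometric_of_tendsto _ _ r1 (g3 i) (hY i) n
    rw [dist_eq_norm] at this
    refine this.trans (le_of_eq ?_)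
    ring
  have hp : fix_Dm X (H, V, Y) := fix_closed hA1 hs (p := (H, V, Y)) hH hV hY
  refine ⟨(H, V, Y), hp, ?_⟩
  have hc : ∀ n, fix_dd (s (n + 1)) (fix_Ps P X (H, V, Y)) (4 / 5 * (10 * X * (4 / 5) ^ n)) := by
    intro n
    rw [hs1]
    exact fix_ctr hA1 hA2 hCTR P hP X hX0 hX' _ _ (hs n) hp _ ⟨b1 n, b2 n, fun i => b3 i n⟩
  have z0 : Tendsto (fun n : ℕ => (4 / 5 : ℝ) ^ n) atTop (𝓝 0) :=
    tendsto_pow_atTop_nhds_zero_of_lt_one (by norm_num) r1
  have z1 : Tendsto (fun n : ℕ => 4 / 5 * (10 * X * (4 / 5 : ℝ) ^ n)) atTop (𝓝 0) := by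
    have := (z0.const_mul (10 * X)).const_mul (4 / 5)
    simpa using this
  have z2 : Tendsto (fun n : ℕ => 2 * (4 / 5 * (10 * X * (4 / 5 : ℝ) ^ n))) atTop (𝓝 0) := by
    have := z1.const_mul 2
    simpa using this
  have l1 : Tendsto (fun n => (s (n + 1)).1) atTop (𝓝 (fix_Ps P X (H, V, Y)).1) :=
    tendsto_iff_norm_sub_tendsto_zero.mpr
      (squeeze_zero (fun _ => norm_nonneg _) (fun n => (hc n).1) z2)
  have l2 : Tendsto (fun n => (s (n + 1)).2.1) atTop (𝓝 (fix_Ps P X (H, V, Y)).2.1) :=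
    tendsto_iff_norm_sub_tendsto_zero.mpr
      (squeeze_zero (fun _ => norm_nonneg _) (fun n => (hc n).2.1) z1)
  have l3 : ∀ i, Tendsto (fun n => (s (n + 1)).2.2 i) atTop
      (𝓝 ((fix_Ps P X (H, V, Y)).2.2 i)) := fun i =>
    tendsto_iff_norm_sub_tendsto_zero.mpr
      (squeeze_zero (fun _ => norm_nonneg _) (fun n => (hc n).2.2 i) z1)
  refine Prod.ext ?_ (Prod.ext ?_ (funext fun i => ?_))
  · exact tendsto_nhds_unique l1 ((tendsto_add_atTop_iff_nat 1).mpr hH)
  · exact tendsto_nhds_unique l2 ((tendsto_add_atTop_iff_nat 1).mpr hV)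
  · exact tendsto_nhds_unique (l3 i) ((tendsto_add_atTop_iff_nat 1).mpr (hY i))

/-- The fixed point depends on `X` in a Lipschitz way. -/
private theorem fix_lip (hA1 : S_A1) (hA2 : S_A2) (hCTR : S_CTR) (hLX : S_LX) (P : Par)
    (hP : Good P) (X X' : ℝ) (hX0 : 0 < X) (hXX : X ≤ X') (hX' : X' ≤ 3 / 10 ^ 4)
    (p q : fix_St) (hp : fix_Dm X p) (hq : fix_Dm X' q) (hpe : fix_Ps P X p = p)
    (hqe : fix_Ps P X' q = q) :
    ‖OO P X p.1 p.2.1 p.2.2 - OO P X' q.1 q.2.1 q.2.2‖ ≤ 115 * (X' - X) := by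
  have hp' : fix_Dm X' p := fix_mono hX0 hXX hp
  have hX0' : 0 < X' := hX0.trans_le hXX
  obtain ⟨x1, x2⟩ := hLX P hP X X' p.1 p.2.1 p.2.2 hX0 hXX hX' hp
  have e1 : (fix_Ps P X p).1 = p.1 := congrArg (fun z : fix_St => z.1) hpe
  have e2 : (fix_Ps P X p).2.1 = p.2.1 := congrArg (fun z : fix_St => z.2.1) hpe
  have e3 : (fix_Ps P X p).2.2 = p.2.2 := congrArg (fun z : fix_St => z.2.2) hpe
  have f1 : (fix_Ps P X' q).1 = q.1 := congrArg (fun z : fix_St => z.1) hqe
  have f2 : (fix_Ps P X' q).2.1 = q.2.1 := congrArg (fun z : fix_St => z.2.1) hqe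
  have f3 : (fix_Ps P X' q).2.2 = q.2.2 := congrArg (fun z : fix_St => z.2.2) hqe
  have step : ∀ D : ℝ, fix_dd p q D → fix_dd p q (10 * (X' - X) + 4 / 5 * D) := by
    intro D hD
    obtain ⟨c1, c2, c3⟩ := fix_ctr hA1 hA2 hCTR P hP X' hX0' hX' p q hp' hq D hD
    rw [f1] at c1
    rw [f2] at c2
    rw [f3] at c3
    refine ⟨?_, ?_, fun i => ?_⟩
    · have t1 : ‖p.1 - (fix_Ps P X' p).1‖ ≤ 10 * (X' - X) := by
        have : p.1 - (fix_Ps P X' p).1 = EE P X p.1 p.2.1 p.2.2 - EE P X' p.1 p.2.1 p.2.2 := by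
          nth_rewrite 1 [← e1]
          show (p.1 + EE P X p.1 p.2.1 p.2.2) - (p.1 + EE P X' p.1 p.2.1 p.2.2) = _
          abel
        rw [this]
        exact x1
      have t2 := norm_sub_le_norm_sub_add_norm_sub p.1 (fix_Ps P X' p).1 q.1
      linarith
    · have t1 : ‖p.2.1 - (fix_Ps P X' p).2.1‖ ≤ 10 * (X' - X) := by
        have : p.2.1 - (fix_Ps P X' p).2.1 =
            Pi2 (OO P X' p.1 p.2.1 p.2.2 - OO P X p.1 p.2.1 p.2.2) := by
          nth_rewrite 1 [← e2]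
          show (p.2.1 - Pi2 (OO P X p.1 p.2.1 p.2.2)) -
            (p.2.1 - Pi2 (OO P X' p.1 p.2.1 p.2.2)) = _
          rw [map_sub]
          abel
        rw [this]
        refine ((hA2.2.2.2.2.1.2) _).trans ?_
        rw [norm_sub_rev]
        exact x2
      have t2 := norm_sub_le_norm_sub_add_norm_sub p.2.1 (fix_Ps P X' p).2.1 q.2.1
      linarith
    · have t1 : (fix_Ps P X' p).2.2 i = p.2.2 i := by
        have : (fix_Ps P X' p).2.2 = (fix_Ps P X p).2.2 := rfl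
        rw [this, e3]
      have t2 := c3 i
      rw [t1] at t2
      linarith
  have all : ∀ k : ℕ, fix_dd p q (50 * (X' - X) + 2 * X' * (4 / 5) ^ k) := by
    intro k
    induction k with
    | zero =>
      have := fix_diam hX0' hX' hp' hq
      rw [pow_zero, mul_one]
      refine ⟨this.1.trans (by linarith), this.2.1.trans (by linarith), fun i =>
        (this.2.2 i).trans (by linarith)⟩
    | succ k ih =>
      have := step _ ih
      have e : 10 * (X' - X) + 4 / 5 * (50 * (X' - X) + 2 * X' * (4 / 5) ^ k) =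
        50 * (X' - X) + 2 * X' * (4 / 5) ^ (k + 1) := by ring
      rwa [e] at this
  have z0 : Tendsto (fun n : ℕ => (4 / 5 : ℝ) ^ n) atTop (𝓝 0) :=
    tendsto_pow_atTop_nhds_zero_of_lt_one (by norm_num) (by norm_num)
  have z1 : Tendsto (fun k : ℕ => 50 * (X' - X) + 2 * X' * (4 / 5 : ℝ) ^ k) atTop
      (𝓝 (50 * (X' - X))) := by
    have := (z0.const_mul (2 * X')).const_add (50 * (X' - X))
    simpa using this
  have fin : fix_dd p q (50 * (X' - X)) :=
    ⟨ge_of_tendsto (z1.const_mul 2) (Eventually.of_forall fun k => (all k).1),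
      ge_of_tendsto z1 (Eventually.of_forall fun k => (all k).2.1),
      fun i => ge_of_tendsto z1 (Eventually.of_forall fun k => (all k).2.2 i)⟩
  obtain ⟨-, c2, -⟩ := hCTR P hP X' p.1 p.2.1 p.2.2 q.1 q.2.1 q.2.2 _ hX0' hX' hp' hq fin.1
    fin.2.1 fin.2.2
  have t1 : ‖(p.2.1 - q.2.1) - conj (p.2.1 - q.2.1)‖ ≤ 100 * (X' - X) := by
    refine (norm_sub_le _ _).trans ?_
    rw [hA2.2.1.2.2.2.1]
    have := fin.2.1
    linarith
  have t2 : ‖OO P X' p.1 p.2.1 p.2.2 - OO P X' q.1 q.2.1 q.2.2‖ ≤ 105 * (X' - X) := by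
    have := norm_add_le (OO P X' p.1 p.2.1 p.2.2 - OO P X' q.1 q.2.1 q.2.2 -
      ((p.2.1 - q.2.1) - conj (p.2.1 - q.2.1))) ((p.2.1 - q.2.1) - conj (p.2.1 - q.2.1))
    rw [sub_add_cancel] at this
    linarith
  have t3 := norm_sub_le_norm_sub_add_norm_sub (OO P X p.1 p.2.1 p.2.2)
    (OO P X' p.1 p.2.1 p.2.2) (OO P X' q.1 q.2.1 q.2.2)
  linarith

/-- SC-FIX. -/
theorem proof_FIX (hA1 : S_A1) (hA2 : S_A2) (hSELF : S_SELF) (hCTR : S_CTR) (hLX : S_LX) :
    S_FIX := by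
  intro P hP
  have a0 : 0 < P.a 0 := hP.a0
  have s0 : 0 < Real.sqrt (P.a 0) := Real.sqrt_pos.mpr a0
  have s1 : 5 * Real.sqrt (P.a 0) ≤ 3 / 10 ^ 4 := by
    have h1 : Real.sqrt (P.a 0) ≤ 6 / 10 ^ 5 := by
      rw [Real.sqrt_le_iff]
      refine ⟨by norm_num, hP.a0'.trans (by norm_num)⟩
    linarith
  have hex : ∀ X : ℝ, ∃ p : fix_St, X ∈ Icc (Real.sqrt (P.a 0)) (5 * Real.sqrt (P.a 0)) →
      fix_Dm X p ∧ fix_Ps P X p = p := by
    intro X
    by_cases hX : X ∈ Icc (Real.sqrt (P.a 0)) (5 * Real.sqrt (P.a 0))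
    · obtain ⟨p, hp⟩ := fix_ex hA1 hA2 hSELF hCTR P hP X (s0.trans_le hX.1) hX.1
        (hX.2.trans s1)
      exact ⟨p, fun _ => hp⟩
    · exact ⟨(0, 0, fun _ => 0), fun h => absurd h hX⟩
  choose x hx using hex
  refine ⟨x, fun X hX => ?_, ?_⟩
  · obtain ⟨hd, he⟩ := hx X hX
    have e1 : (fix_Ps P X (x X)).1 = (x X).1 := congrArg (fun z : fix_St => z.1) he
    have e2 : (fix_Ps P X (x X)).2.1 = (x X).2.1 := congrArg (fun z : fix_St => z.2.1) he
    have e3 : (fix_Ps P X (x X)).2.2 = (x X).2.2 := congrArg (fun z : fix_St => z.2.2) he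
    exact
      { hc := hd.hc
        hv := hd.hv
        hy := hd.hy
        nh := hd.nh
        nv := hd.nv
        ny := hd.ny
        eE := by
          change (x X).1 + EE P X (x X).1 (x X).2.1 (x X).2.2 = (x X).1 at e1
          exact left_eq_add.mp e1.symm
        eO := by
          change (x X).2.1 - Pi2 (OO P X (x X).1 (x X).2.1 (x X).2.2) = (x X).2.1 at e2
          exact sub_eq_self.mp e2
        eY := fun i => by
          change RH P (x X).1 (x X).2.1 (x X).2.2 = (x X).2.2 at e3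
          rw [e3] }
  · obtain ⟨h1, h2, h3, h4, h5, h6, h7, -⟩ := hA1 wW
    have key : ∀ X ∈ Icc (Real.sqrt (P.a 0)) (5 * Real.sqrt (P.a 0)),
        ∀ X' ∈ Icc (Real.sqrt (P.a 0)) (5 * Real.sqrt (P.a 0)), X ≤ X' →
        |cf (OO P X (x X).1 (x X).2.1 (x X).2.2) 1 -
          cf (OO P X' (x X').1 (x X').2.1 (x X').2.2) 1| ≤ 115 * (X' - X) := by
      intro X hX X' hX' hXX
      have := fix_lip hA1 hA2 hCTR hLX P hP X X' (s0.trans_le hX.1) hXX (hX'.2.trans s1)
        (x X) (x X') (hx X hX).1 (hx X' hX').1 (hx X hX).2 (hx X' hX').2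
      refine le_trans ?_ this
      rw [← h2]
      refine le_trans ?_ (h7 _ 1)
      exact le_mul_of_one_le_right (abs_nonneg _) (Wt.one_le (w := wW) 1)
    have key2 : LipschitzOnWith 115 (fun X => cf (OO P X (x X).1 (x X).2.1 (x X).2.2) 1)
        (Icc (Real.sqrt (P.a 0)) (5 * Real.sqrt (P.a 0))) := by
      refine LipschitzOnWith.of_dist_le_mul fun X hX X' hX' => ?_
      rw [Real.dist_eq, Real.dist_eq]
      have e : ((115 : NNReal) : ℝ) = 115 := rfl
      rw [e]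
      rcases le_total X X' with h | h
      · rw [abs_sub_comm X X', abs_of_nonneg (sub_nonneg.mpr h)]
        exact key X hX X' hX' h
      · rw [abs_of_nonneg (sub_nonneg.mpr h), abs_sub_comm]
        exact key X' hX' X hX h
    exact key2.continuousOn

end Pool.Agent.H812.SF
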