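import Pool.Agent.H812.SF.Stm

/-!
Project SC (helper229), problem MP_83fd13_an, part FN2 (helper803): the functions `Q_i`.
-/

set_option autoImplicit false

open Set Filter Topology

namespace Pool.Agent.H812.SF

open Pool.Agent.N229.SC

private theorem fn2_pow {P : Par} (hn : P.n ≠ 0) {z : ℂ} (hz : ‖z‖ < rF P) :
    ‖z ^ P.n‖ < Rad := by
  have h0 : (0 : ℝ) ≤ Rad := zero_le_one.trans one_le_Rad
  have h1 : rF P ^ P.n = Rad := Real.rpow_inv_natCast_pow h0 hn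
  rw [norm_pow, ← h1]
  exact pow_lt_pow_left₀ hz (norm_nonneg z) hn

private theorem fn2_fF {P : Par} (hn : P.n ≠ 0) (hρ : P.ρ ≠ 0) (h : W) (z : ℂ) :
    (fF P h z / P.ρ) ^ P.n = z ^ P.n * Complex.exp (evh (Phi P h) (z ^ P.n)) := by
  have hρ' : (P.ρ : ℂ) ≠ 0 := by exact_mod_cast hρ
  have hn' : (P.n : ℂ) ≠ 0 := by exact_mod_cast hn
  have e1 : fF P h z / P.ρ = z * Complex.exp (evh (Phi P h) (z ^ P.n) / P.n) := by
    unfold fF
    field_simp
  rw [e1, mul_pow, ← Complex.exp_nat_mul]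
  congr 2
  field_simp

private theorem fn2_w (j : ℤ) : Rad ^ j.natAbs ≤ wW j := wA_le_wW j

/-- Part FN2. -/
theorem proof_FN2 (hA1 : S_A1) (hA2 : S_A2) (hA3 : S_A3) (hAB : S_AB) (hB1 : S_B1) (hB2 : S_B2)
    (hEH : S_EH) : S_FN2 := by
  intro P X h v y hF
  have hρ : 0 < P.ρ := lt_of_lt_of_le (by norm_num) hF.good.rho
  have hn : P.n ≠ 0 := by
    intro h0
    have h1 := hF.good.nu1
    unfold Par.nu at h1
    rw [h0, Nat.cast_zero, zero_div] at h1
    norm_num at h1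
  obtain ⟨hE1, hE2, -⟩ := hEH wW fn2_w
  obtain ⟨C, hC⟩ := hF.bd
  have hC0 : 0 ≤ C := (abs_nonneg _).trans (hC 0).1
  have hmaps : MapsTo (fun z : ℂ => z ^ P.n) (Metric.ball 0 (rF P)) (Metric.ball 0 Rad) := by
    intro z hz
    rw [mem_ball_zero_iff] at hz ⊢
    exact fn2_pow hn hz
  have hd : ∀ a : W, DifferentiableOn ℂ (fun z : ℂ => evh a (z ^ P.n)) (Metric.ball 0 (rF P)) :=
    fun a => (hE1 a).comp (differentiable_pow P.n).differentiableOn hmaps
  have hdf : DifferentiableOn ℂ (fun z : ℂ => (fF P h z / P.ρ) ^ P.n) (Metric.ball 0 (rF P)) := by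
    have e : (fun z : ℂ => (fF P h z / P.ρ) ^ P.n) =
        fun z => z ^ P.n * Complex.exp (evh (Phi P h) (z ^ P.n)) :=
      funext fun z => fn2_fF hn hρ.ne' h z
    rw [e]
    exact (differentiable_pow P.n).differentiableOn.mul (hd (Phi P h)).cexp
  refine ⟨fun i => ?_, ?_⟩
  · cases i with
    | zero => exact ((hdf.const_mul _).const_add _).add (hd _)
    | succ i => exact ((hdf.const_mul _).const_add _).add (hd _)
  · have hR0 : 0 ≤ Rad := zero_le_one.trans one_le_Rad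
    have hbf : ∀ z ∈ Metric.ball (0 : ℂ) (rF P),
        ‖(fF P h z / P.ρ) ^ P.n‖ ≤ Rad * Real.exp ‖Phi P h‖ := by
      intro z hz
      rw [mem_ball_zero_iff] at hz
      have h1 := fn2_pow hn hz
      rw [fn2_fF hn hρ.ne', norm_mul]
      refine mul_le_mul h1.le ?_ (norm_nonneg _) hR0
      refine (Complex.norm_exp_le_exp_norm _).trans (Real.exp_le_exp.2 ?_)
      exact hE2 _ _ h1.le
    have hbq : ∀ (a : W), ∀ z ∈ Metric.ball (0 : ℂ) (rF P), ‖evh a (z ^ P.n)‖ ≤ ‖a‖ := by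
      intro a z hz
      rw [mem_ball_zero_iff] at hz
      exact hE2 _ _ (fn2_pow hn hz).le
    have hres : ∀ (n i : ℕ) (a : A), ‖res n i a‖ ≤ 5 / 8 * ‖a‖ := hA2.2.2.2.2.2.2.1
    have hq : ∀ i, ‖qq P h v y (i + 1)‖ ≤ 5 / 8 * (5 * X ^ 2) := by
      intro i
      have h1 := hres P.n (i + 1) (y i)
      have h2 := hF.sol.ny i
      change ‖res P.n (i + 1) (y i)‖ ≤ _
      linarith
    have hX := hF.X_pos
    have hXa : ∀ i, ‖((X * P.a i : ℝ) : ℂ)‖ ≤ X * C := by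
      intro i
      rw [Complex.norm_real, Real.norm_eq_abs, abs_mul, abs_of_pos hX]
      exact mul_le_mul_of_nonneg_left (hC i).1 hX.le
    have hE0 : 0 ≤ Rad * Real.exp ‖Phi P h‖ := by positivity
    have hmul : ∀ i, ∀ z ∈ Metric.ball (0 : ℂ) (rF P),
        ‖((X * P.a i : ℝ) : ℂ) * (fF P h z / P.ρ) ^ P.n‖ ≤ X * C * (Rad * Real.exp ‖Phi P h‖) := by
      intro i z hz
      rw [norm_mul]
      exact mul_le_mul (hXa i) (hbf z hz) (norm_nonneg _) (by positivity)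
    refine ⟨(|2 / P.ρ| * C + C) + X * C * (Rad * Real.exp ‖Phi P h‖) +
      (‖qq P h v y 0‖ + 5 / 8 * (5 * X ^ 2)), fun i z hz => ?_⟩
    have h2ρ : 0 ≤ |2 / P.ρ| * C := mul_nonneg (abs_nonneg _) hC0
    cases i with
    | zero =>
      have h1 : ‖((2 / P.ρ * P.b 0 - P.b 1 : ℝ) : ℂ)‖ ≤ |2 / P.ρ| * C + C := by
        rw [Complex.norm_real, Real.norm_eq_abs]
        refine (abs_sub _ _).trans (add_le_add ?_ (hC 1).2)
        rw [abs_mul]
        exact mul_le_mul_of_nonneg_left (hC 0).2 (abs_nonneg _)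
      have h2 := hmul 0 z hz
      have h3 := hbq (qq P h v y 0) z hz
      have h4 : (0 : ℝ) ≤ 5 / 8 * (5 * X ^ 2) := by positivity
      change ‖((2 / P.ρ * P.b 0 - P.b 1 : ℝ) : ℂ) + ((X * P.a 0 : ℝ) : ℂ) * (fF P h z / P.ρ) ^ P.n +
        evh (qq P h v y 0) (z ^ P.n)‖ ≤ _
      refine (norm_add₃_le).trans ?_
      linarith
    | succ i =>
      have h1 : ‖((P.b i : ℝ) : ℂ)‖ ≤ C := by
        rw [Complex.norm_real, Real.norm_eq_abs]
        exact (hC i).2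
      have h2 := hmul (i + 1) z hz
      have h3 := (hbq (qq P h v y (i + 1)) z hz).trans (hq i)
      have h4 : 0 ≤ ‖qq P h v y 0‖ := norm_nonneg _
      change ‖((P.b i : ℝ) : ℂ) + ((X * P.a (i + 1) : ℝ) : ℂ) * (fF P h z / P.ρ) ^ P.n +
        evh (qq P h v y (i + 1)) (z ^ P.n)‖ ≤ _
      refine (norm_add₃_le).trans ?_
      linarith

end Pool.Agent.H812.SF
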