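import Pool.Agent.H812.SF.Stm

/-!
Project SC (helper229), problem MP_83fd13_an, part FN3: the relation between the functions `Q_i`.
-/

set_option autoImplicit false

open Set Filter Topology MeasureTheory

namespace Pool.Agent.H812.SF

open Pool.Agent.N229.SC

private theorem fn3_wA (j : ℤ) : Rad ^ j.natAbs ≤ wA j := le_refl _

private theorem fn3_wW (j : ℤ) : Rad ^ j.natAbs ≤ wW j := wA_le_wW j

private theorem fn3_evh_one (hA1 : S_A1) (z : ℂ) : evh (1 : A) z = 1 := by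
  obtain ⟨-, -, -, -, -, hm, -⟩ := hA1 wA
  have h1 : ∀ k : ℕ, (cf (1 : A) k : ℂ) * z ^ k = if k = 0 then 1 else 0 := by
    intro k
    have h2 : cf (1 : A) k = if (0 : ℤ) = k then 1 else 0 := hm 0 k
    rw [h2]
    by_cases hk : k = 0
    · subst hk
      simp
    · have : ¬ (0 : ℤ) = k := by
        intro h
        exact hk (by exact_mod_cast h.symm)
      rw [if_neg this, if_neg hk]
      simp
  unfold evh
  rw [tsum_congr h1, tsum_ite_eq]

/-- the constants -/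
private noncomputable def fn3_bc (P : Par) : ℕ → ℝ
  | 0 => 2 / P.ρ * P.b 0 - P.b 1
  | i + 1 => P.b i

private theorem fn3_bc_rec {P : Par} (hP : Good P) (i : ℕ) :
    ((i : ℝ) + 1) * fn3_bc P (i + 1) = P.ρ / 2 * (fn3_bc P i + fn3_bc P (i + 2)) := by
  have hρ : P.ρ ≠ 0 := by
    have := hP.rho
    intro h
    rw [h] at this
    norm_num at this
  rcases i with _ | i
  · show ((0 : ℕ) + 1 : ℝ) * P.b 0 = P.ρ / 2 * ((2 / P.ρ * P.b 0 - P.b 1) + P.b 1)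
    push_cast
    field_simp
    ring
  · show (((i + 1 : ℕ) : ℝ) + 1) * P.b (i + 1) = P.ρ / 2 * (P.b i + P.b (i + 2))
    rw [hP.rb i]
    push_cast
    field_simp
    ring

private theorem fn3_QF (P : Par) (X : ℝ) (h v : W) (y : ℕ → A) (i : ℕ) (z : ℂ) :
    QF P X h v y i z = (fn3_bc P i : ℂ) + ((X * P.a i : ℝ) : ℂ) * (fF P h z / P.ρ) ^ P.n +
      evh (qq P h v y i) (z ^ P.n) := by
  rcases i with _ | i
  · rfl
  · rfl

private theorem fn3_supp (hA2 : S_A2) (P : Par) (h v : W) (y : ℕ → A) (i : ℕ) :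
    ∀ j < 2, cf (qq P h v y i) j = 0 := by
  obtain ⟨-, -, -, -, -, ⟨hr, -⟩⟩ := hA2
  intro j hj
  rcases i with _ | i
  · show cf (res P.n 0 _) j = 0
    rw [hr, if_neg (by omega)]
  · show cf (res P.n (i + 1) _) j = 0
    rw [hr, if_neg (by omega)]

/-- `(t d/dt + s) q = y` -/
private theorem fn3_der (hA1 : S_A1) (hA2 : S_A2) (P : Par) (h v : W) (y : ℕ → A)
    (hy : ∀ i, ∀ j < 2, cf (y i) j = 0) (i : ℕ) :
    der (qq P h v y (i + 1)) + (((i : ℝ) + 1) / P.n) • inc (qq P h v y (i + 1)) = y i := by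
  obtain ⟨hadd, -, -, -, hsm, -, -, -, -, hext, -, -, -⟩ := hA1 wA
  obtain ⟨⟨hinc, -⟩, -, -, ⟨hder, -⟩, -, ⟨hr, -⟩⟩ := hA2
  apply hext
  intro j
  rw [hadd, hsm, hder, hinc]
  have h1 : cf (qq P h v y (i + 1)) j =
      if 2 ≤ j then cf (y i) j / (j + ((i + 1 : ℕ) : ℝ) / P.n) else 0 := hr P.n (i + 1) (y i) j
  rw [h1]
  split_ifs with h2
  · have h3 : (0 : ℝ) < (j : ℝ) + ((i + 1 : ℕ) : ℝ) / P.n := by
      have h4 : (2 : ℝ) ≤ j := by exact_mod_cast h2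
      have h5 : (0 : ℝ) ≤ ((i + 1 : ℕ) : ℝ) / P.n := by positivity
      linarith
    have h6 : ((i : ℝ) + 1) / P.n = ((i + 1 : ℕ) : ℝ) / P.n := by push_cast; rfl
    rw [h6, ← add_mul, mul_div_assoc', mul_comm, mul_div_assoc, div_self h3.ne', mul_one]
  · rw [hy i j (by omega)]
    ring

theorem proof_FN3 (hA1 : S_A1) (hA2 : S_A2) (hA3 : S_A3) (hAB : S_AB) (hB1 : S_B1)
    (hB2 : S_B2) (hEH : S_EH) : S_FN3 := by
  intro P X h v y hF i z hz
  have hG := hF.good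
  obtain ⟨-, -, -, -, -, -, hn8⟩ := hAB P hG
  have hn0 : P.n ≠ 0 := by
    intro h0
    rw [h0] at hn8
    norm_num at hn8
  have hnpos : 0 < P.n := Nat.pos_of_ne_zero hn0
  have hnC : (P.n : ℂ) ≠ 0 := by exact_mod_cast hn0
  have hnR : (P.n : ℝ) ≠ 0 := by exact_mod_cast hn0
  have hρ0 : 0 < P.ρ := lt_of_lt_of_le (by norm_num) hG.rho
  have hρC : (P.ρ : ℂ) ≠ 0 := by exact_mod_cast hρ0.ne'
  -- the point `t`
  have hRad0 : 0 < Rad := lt_of_lt_of_le one_pos one_le_Rad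
  have ht : ‖z ^ P.n‖ < Rad := by
    rw [Metric.mem_ball, dist_zero_right] at hz
    have h1 : rF P ^ P.n = Rad := by
      unfold rF
      rw [← Real.rpow_natCast, ← Real.rpow_mul hRad0.le, inv_mul_cancel₀ hnR, Real.rpow_one]
    rw [norm_pow, ← h1]
    exact pow_lt_pow_left₀ hz (norm_nonneg z) hn0
  set t : ℂ := z ^ P.n with htdef
  have htb : t ∈ Metric.ball (0 : ℂ) Rad := by
    rw [Metric.mem_ball, dist_zero_right]
    exact ht
  obtain ⟨hWd, -, -, -, -, -, hWder, hinc⟩ := hEH wW fn3_wW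
  obtain ⟨-, -, hAadd, hAsm, hAmul, -, -, -⟩ := hEH wA fn3_wA
  have hdiff : ∀ a : W, HasDerivAt (evh a) (deriv (evh a) t) t := fun a =>
    ((hWd a).differentiableAt (Metric.isOpen_ball.mem_nhds htb)).hasDerivAt
  have hpow : HasDerivAt (fun z : ℂ => z ^ P.n) ((P.n : ℂ) * z ^ (P.n - 1)) z := hasDerivAt_pow P.n z
  have hcomp : ∀ a : W, HasDerivAt (fun z : ℂ => evh a (z ^ P.n))
      (deriv (evh a) t * ((P.n : ℂ) * z ^ (P.n - 1))) z := fun a =>
    HasDerivAt.comp z (hdiff a) hpow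
  have hz1 : z * z ^ (P.n - 1) = t := by
    rw [htdef, ← pow_succ', Nat.sub_add_cancel hnpos]
  -- the map `f`
  obtain ⟨E, hE⟩ : ∃ E, E = Complex.exp (evh (Phi P h) (z ^ P.n) / P.n) := ⟨_, rfl⟩
  obtain ⟨bt, hbt⟩ : ∃ bt, bt = evh (beta P h) t := ⟨_, rfl⟩
  have hf : fF P h z = P.ρ * z * E := by rw [hE]; rfl
  have hf' : HasDerivAt (fF P h) (P.ρ * E * (1 + bt)) z := by
    have h1 := (hcomp (Phi P h)).div_const (P.n : ℂ)
    have h2 := h1.cexp
    have h3 : HasDerivAt (fun z : ℂ => (P.ρ : ℂ) * z) ((P.ρ : ℂ) * 1) z :=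
      (hasDerivAt_id z).const_mul (P.ρ : ℂ)
    have h4 := h3.mul h2
    have h5 : (P.ρ : ℂ) * 1 * Complex.exp (evh (Phi P h) (z ^ P.n) / P.n) +
        (P.ρ : ℂ) * z * (Complex.exp (evh (Phi P h) (z ^ P.n) / P.n) *
          (deriv (evh (Phi P h)) t * ((P.n : ℂ) * z ^ (P.n - 1)) / P.n)) =
        P.ρ * E * (1 + bt) := by
      rw [← hE, hbt]
      have h6 : evh (beta P h) t = t * deriv (evh (Phi P h)) t := hWder (Phi P h) t ht
      rw [h6]
      have h7 : z * (deriv (evh (Phi P h)) t * ((P.n : ℂ) * z ^ (P.n - 1)) / P.n) =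
          t * deriv (evh (Phi P h)) t := by
        rw [← hz1]
        field_simp
      calc (P.ρ : ℂ) * 1 * E + (P.ρ : ℂ) * z * (E *
            (deriv (evh (Phi P h)) t * ((P.n : ℂ) * z ^ (P.n - 1)) / P.n))
          = P.ρ * E * (1 + z * (deriv (evh (Phi P h)) t * ((P.n : ℂ) * z ^ (P.n - 1)) / P.n)) := by
            ring
        _ = _ := by rw [h7]
    rw [h5] at h4
    exact h4
  obtain ⟨F', hF'⟩ : ∃ F' : ℂ, F' = P.ρ * E * (1 + bt) := ⟨_, rfl⟩
  rw [← hF'] at hf'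
  -- the functions `Q_i`
  have hQ' : HasDerivAt (QF P X h v y (i + 1))
      (((X * P.a (i + 1) : ℝ) : ℂ) * ((P.n : ℂ) * (fF P h z / P.ρ) ^ (P.n - 1) * (F' / P.ρ)) +
        deriv (evh (qq P h v y (i + 1))) t * ((P.n : ℂ) * z ^ (P.n - 1))) z := by
    have h1 := (((hf'.div_const (P.ρ : ℂ)).pow P.n).const_mul ((X * P.a (i + 1) : ℝ) : ℂ)).add
      (hcomp (qq P h v y (i + 1)))
    have h2 := h1.const_add (fn3_bc P (i + 1) : ℂ)
    refine h2.congr_of_eventuallyEq (Filter.Eventually.of_forall fun w => ?_)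
    rw [fn3_QF]
    simp only [Pi.add_apply, Pi.pow_apply]
    ring
  -- the interior equation
  have hder := fn3_der hA1 hA2 P h v y hF.sol.hy i
  rw [hF.sol.eY i] at hder
  obtain ⟨q0, hq0⟩ : ∃ q0, q0 = evh (qq P h v y i) t := ⟨_, rfl⟩
  obtain ⟨q1, hq1⟩ : ∃ q1, q1 = evh (qq P h v y (i + 1)) t := ⟨_, rfl⟩
  obtain ⟨q2, hq2⟩ : ∃ q2, q2 = evh (qq P h v y (i + 2)) t := ⟨_, rfl⟩
  have hbs : ∀ j < 1, cf (beta P h) j = 0 := by
    have hnh : ‖h‖ ≤ 1 / 1000 := by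
      have h1 := hF.sol.nh
      have h2 := hF.X_le
      have h3 : 2 * X ≤ 1 / 1000 := by
        have : (3 : ℝ) / 10 ^ 4 = 3 / 10000 := by norm_num
        linarith
      linarith
    exact (hB1 P hG h hnh).2.2.1.2.2.1
  have hadd := (hA1 wA).1
  have hcf1 : ∀ j < 0, cf (1 + beta P h) j = 0 := by
    intro j hj
    have h1 : cf (1 : A) j = if (0 : ℤ) = j then 1 else 0 := (hA1 wA).2.2.2.2.2.1 0 j
    rw [hadd, h1, if_neg (by omega), hbs j (by omega), add_zero]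
  have hcfb : ∀ j < 0, cf (beta P h) j = 0 := fun j hj => hbs j (by omega)
  have hcfq : ∀ (k : ℕ), ∀ j < 0, cf (inc (qq P h v y k)) j = 0 := by
    intro k j hj
    rw [hA2.1.1]
    exact fn3_supp hA2 P h v y k j (by omega)
  have hcfq2 : ∀ j < 0, cf (inc (qq P h v y i + qq P h v y (i + 2))) j = 0 := by
    intro j hj
    rw [hA2.1.1, (hA1 wW).1, fn3_supp hA2 P h v y i j (by omega),
      fn3_supp hA2 P h v y (i + 2) j (by omega), add_zero]
  have hRH : evh (RH P h v y i) t = 1 / (2 * P.nu : ℝ) * ((1 + bt) * (q0 + q2)) -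
      (((i : ℝ) + 1) / P.n : ℝ) * (bt * q1) := by
    have h1 : RH P h v y i =
        (1 / (2 * P.nu)) • ((1 + beta P h) * inc (qq P h v y i + qq P h v y (i + 2))) +
        (-(((i : ℝ) + 1) / P.n)) • (beta P h * inc (qq P h v y (i + 1))) := by
      unfold RH
      rw [neg_smul, sub_eq_add_neg]
    rw [h1, hAadd _ _ t ht.le, hAsm, hAsm, hAmul _ _ t ht.le hcf1 hcfq2,
      hAmul _ _ t ht.le hcfb (hcfq (i + 1)), hAadd _ _ t ht.le, fn3_evh_one hA1, hinc, hinc,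
      (hEH wW fn3_wW).2.2.1 _ _ t ht.le, ← hbt, ← hq0, ← hq1, ← hq2]
    push_cast
    ring
  have hkey : (P.n : ℂ) * (t * deriv (evh (qq P h v y (i + 1))) t) +
      ((i : ℂ) + 1) * ((1 + bt) * q1) = P.ρ / 2 * ((1 + bt) * (q0 + q2)) := by
    have h1 := congrArg (fun a : A => evh a t) hder
    beta_reduce at h1
    rw [hAadd _ _ t ht.le, hAsm, hinc, hWder _ t ht, hRH, ← hq1] at h1
    have h2 : (P.nu : ℂ) = P.n / P.ρ := by
      unfold Par.nu
      push_cast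
      rfl
    push_cast at h1
    rw [h2] at h1
    field_simp at h1
    field_simp
    linear_combination h1
  -- the recurrences
  have hrb : ((i : ℂ) + 1) * (fn3_bc P (i + 1) : ℂ) =
      P.ρ / 2 * ((fn3_bc P i : ℂ) + (fn3_bc P (i + 2) : ℂ)) := by
    exact_mod_cast fn3_bc_rec hG i
  have hra : ((P.n : ℂ) + i + 1) * (P.a (i + 1) : ℂ) =
      P.ρ / 2 * ((P.a i : ℂ) + (P.a (i + 2) : ℂ)) := by
    have h1 : ((P.n : ℝ) + i + 1) * P.a (i + 1) = P.ρ / 2 * (P.a i + P.a (i + 2)) := by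
      rw [hG.ra i]
      field_simp
      ring
    exact_mod_cast h1
  rw [hQ'.deriv, hf'.deriv, fn3_QF, fn3_QF, fn3_QF, ← htdef, ← hq0, ← hq1, ← hq2]
  obtain ⟨T, hT⟩ : ∃ T, T = (fF P h z / P.ρ) ^ P.n := ⟨_, rfl⟩
  have hT1 : fF P h z * ((fF P h z / P.ρ) ^ (P.n - 1) * (F' / P.ρ)) = T * F' := by
    have h1 : (fF P h z / P.ρ) * (fF P h z / P.ρ) ^ (P.n - 1) = T := by
      rw [hT, ← pow_succ', Nat.sub_add_cancel hnpos]
    rw [← h1]
    field_simp
  have hq' : fF P h z * (deriv (evh (qq P h v y (i + 1))) t * ((P.n : ℂ) * z ^ (P.n - 1))) =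
      P.ρ * E * ((P.n : ℂ) * (t * deriv (evh (qq P h v y (i + 1))) t)) := by
    rw [hf, ← hz1]
    ring
  rw [← hT]
  push_cast
  calc fF P h z * ((X : ℂ) * (P.a (i + 1) : ℂ) *
          ((P.n : ℂ) * (fF P h z / P.ρ) ^ (P.n - 1) * (F' / P.ρ)) +
          deriv (evh (qq P h v y (i + 1))) t * ((P.n : ℂ) * z ^ (P.n - 1))) +
        ((i : ℂ) + 1) * (F' * ((fn3_bc P (i + 1) : ℂ) + (X : ℂ) * (P.a (i + 1) : ℂ) * T + q1))
      = (X : ℂ) * (P.a (i + 1) : ℂ) * (P.n : ℂ) *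
          (fF P h z * ((fF P h z / P.ρ) ^ (P.n - 1) * (F' / P.ρ))) +
        fF P h z * (deriv (evh (qq P h v y (i + 1))) t * ((P.n : ℂ) * z ^ (P.n - 1))) +
        ((i : ℂ) + 1) * (F' * ((fn3_bc P (i + 1) : ℂ) + (X : ℂ) * (P.a (i + 1) : ℂ) * T + q1)) := by
        ring
    _ = (X : ℂ) * T * F' * (((P.n : ℂ) + i + 1) * (P.a (i + 1) : ℂ)) +
        F' * (((i : ℂ) + 1) * (fn3_bc P (i + 1) : ℂ)) +
        P.ρ * E * ((P.n : ℂ) * (t * deriv (evh (qq P h v y (i + 1))) t) +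
          ((i : ℂ) + 1) * ((1 + bt) * q1)) := by
        rw [hT1, hq', hF']
        ring
    _ = _ := by
        rw [hra, hrb, hkey, hF']
        ring

end Pool.Agent.H812.SF
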