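import Pool.Agent.H812.SF.Stm

/-!
Project SC (helper229), problem MP_83fd13_an, part YG: the bound of `y` by `v` (helper49).
-/

set_option autoImplicit false

open Set Filter Topology

namespace Pool.Agent.H812.SF

open Pool.Agent.N229.SC

/-- the range of the amplitude -/
private theorem yg_X {P : Par} (hP : Good P) {X : ℝ} (h1 : Real.sqrt (P.a 0) ≤ X)
    (h2 : X ≤ 5 * Real.sqrt (P.a 0)) : 0 < X ∧ X ≤ 3 / 10 ^ 4 := by
  have ha := hP.a0
  have ha' := hP.a0'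
  constructor
  · exact lt_of_lt_of_le (Real.sqrt_pos.2 ha) h1
  · have h3 : Real.sqrt (P.a 0) ≤ 6 / 10 ^ 5 := by
      rw [Real.sqrt_le_left (by norm_num)]
      norm_num at ha' ⊢
      linarith
    norm_num at h3 ⊢
    linarith

/-- the domain -/
private theorem yg_dom {P : Par} {X : ℝ} {h v : W} {y : ℕ → A} (hs : IsSol P X h v y) :
    Dom X h v y := ⟨hs.hc, hs.hv, hs.hy, hs.nh, hs.nv, hs.ny⟩

/-- one step -/
private theorem yg_step (hA2 : S_A2) (hB1 : S_B1) (hB2 : S_B2) {P : Par} {X : ℝ} {h v : W}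
    {y : ℕ → A} (H : Hyp P X h v y) {V M : ℝ} (hV0 : 0 ≤ V) (hV5 : V ≤ 5) (hM0 : 0 ≤ M)
    (hM5 : M ≤ 5) (hv : ‖v‖ ≤ V * X ^ 2) (hy : ∀ i, ‖y i‖ ≤ M * X ^ 2) (i : ℕ) :
    ‖y i‖ ≤ 6301 / 10000 * (max (41 / 100 * V) (M / 2) + M / 2) * X ^ 2 := by
  obtain ⟨hX0, hX3⟩ := yg_X H.good H.X1 H.X2
  have hP := H.good
  have hD := yg_dom H.sol
  obtain ⟨-, -, -, -, hB⟩ := hB2 P hP X h v y hX0 hX3 hD
  obtain ⟨-, hq0, -, hq, -, -⟩ := hB V M hV0 hV5 hM0 hM5 hv hy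
  have hh : ‖h‖ ≤ 1 / 1000 := by
    have := hD.nh
    norm_num at hX3
    linarith
  obtain ⟨⟨-, hβ, -, -, -, -⟩, -, -, -⟩ := hB1 P hP h hh
  have hν1 := hP.nu1
  have hν2 := hP.nu2
  have hν0 : 0 < P.nu := by linarith
  have hβ' : ‖beta P h‖ ≤ 4 / 1000 := by
    refine hβ.trans ?_
    have h3 : ‖h‖ ≤ 6 / 10 ^ 4 := by
      have := hD.nh
      norm_num at hX3 ⊢
      linarith
    have h4 : 8 * P.nu * ‖h‖ ≤ 8 * (41 / 50) * (6 / 10 ^ 4) := by
      have := norm_nonneg h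
      gcongr
    refine h4.trans ?_
    norm_num
  have hX2 : 0 ≤ X ^ 2 := sq_nonneg X
  -- the bound of `q_i`
  have hqi : ‖inc (qq P h v y i)‖ ≤ max (41 / 100 * V) (M / 2) * X ^ 2 := by
    cases i with
    | zero =>
      refine hq0.trans ?_
      have := mul_le_mul_of_nonneg_right (le_max_left (41 / 100 * V) (M / 2)) hX2
      linarith
    | succ i =>
      refine (hq i).trans ?_
      have := mul_le_mul_of_nonneg_right (le_max_right (41 / 100 * V) (M / 2)) hX2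
      linarith
  have hqi2 : ‖inc (qq P h v y (i + 2))‖ ≤ M / 2 * X ^ 2 := by
    have := hq (i + 1)
    linarith
  -- the last term
  have hlast : (((i : ℝ) + 1) / P.n) * ‖inc (qq P h v y (i + 1))‖ ≤ ‖y i‖ := by
    have h1 := hA2.2.2.2.2.2.2.2.2 P.n (i + 1) (y i)
    push_cast at h1
    exact h1
  have hn0 : (0 : ℝ) ≤ ((i : ℝ) + 1) / P.n := by positivity
  have e := H.sol.eY i
  have h1 : ‖y i‖ ≤ ‖(1 / (2 * P.nu)) • ((1 + beta P h) * inc (qq P h v y i + qq P h v y (i + 2)))‖ +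
      ‖(((i : ℝ) + 1) / P.n) • (beta P h * inc (qq P h v y (i + 1)))‖ := by
    conv_lhs => rw [e]
    exact norm_sub_le _ _
  have h2 : ‖(1 / (2 * P.nu)) • ((1 + beta P h) * inc (qq P h v y i + qq P h v y (i + 2)))‖ ≤
      (1 / (2 * P.nu)) * ((1 + ‖beta P h‖) *
        (‖inc (qq P h v y i)‖ + ‖inc (qq P h v y (i + 2))‖)) := by
    rw [norm_smul, Real.norm_eq_abs, abs_of_pos (by positivity)]
    refine mul_le_mul_of_nonneg_left ?_ (by positivity)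
    refine (norm_mul_le _ _).trans ?_
    refine mul_le_mul ?_ ?_ (norm_nonneg _) (by positivity)
    · refine (norm_add_le _ _).trans ?_
      rw [norm_one]
    · rw [map_add]
      exact norm_add_le _ _
  have h3 : ‖(((i : ℝ) + 1) / P.n) • (beta P h * inc (qq P h v y (i + 1)))‖ ≤
      ‖beta P h‖ * ‖y i‖ := by
    rw [norm_smul, Real.norm_eq_abs, abs_of_nonneg hn0]
    calc ((i : ℝ) + 1) / P.n * ‖beta P h * inc (qq P h v y (i + 1))‖
        ≤ ((i : ℝ) + 1) / P.n * (‖beta P h‖ * ‖inc (qq P h v y (i + 1))‖) :=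
          mul_le_mul_of_nonneg_left (norm_mul_le _ _) hn0
      _ = ‖beta P h‖ * (((i : ℝ) + 1) / P.n * ‖inc (qq P h v y (i + 1))‖) := by ring
      _ ≤ ‖beta P h‖ * ‖y i‖ := mul_le_mul_of_nonneg_left hlast (norm_nonneg _)
  have h4 : 1 / (2 * P.nu) ≤ 5 / 8 := by
    rw [div_le_div_iff₀ (by positivity) (by norm_num)]
    linarith
  have h5 : (1 / (2 * P.nu)) * ((1 + ‖beta P h‖) *
        (‖inc (qq P h v y i)‖ + ‖inc (qq P h v y (i + 2))‖)) ≤
      5 / 8 * ((1 + 4 / 1000) * (max (41 / 100 * V) (M / 2) * X ^ 2 + M / 2 * X ^ 2)) := by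
    refine mul_le_mul h4 ?_ (by positivity) (by norm_num)
    refine mul_le_mul (by linarith) (by linarith) (by positivity) (by norm_num)
  have h6 : ‖beta P h‖ * ‖y i‖ ≤ 4 / 1000 * ‖y i‖ :=
    mul_le_mul_of_nonneg_right hβ' (norm_nonneg _)
  set m := max (41 / 100 * V) (M / 2) with hm
  have hm0 : 0 ≤ m := le_max_of_le_right (by linarith)
  have h7 : 0 ≤ (m + M / 2) * X ^ 2 := mul_nonneg (by linarith) hX2
  have h8 : ‖y i‖ ≤ 5 / 8 * ((1 + 4 / 1000) * (m * X ^ 2 + M / 2 * X ^ 2)) + 4 / 1000 * ‖y i‖ := by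
    linarith
  have h9 : 5 / 8 * ((1 + 4 / 1000) * (m * X ^ 2 + M / 2 * X ^ 2)) =
      6275 / 10000 * ((m + M / 2) * X ^ 2) := by ring
  have h10 : 6301 / 10000 * (m + M / 2) * X ^ 2 = 6301 / 10000 * ((m + M / 2) * X ^ 2) := by ring
  rw [h9] at h8
  rw [h10]
  linarith

/-- the iteration -/
private theorem yg_iter (hA2 : S_A2) (hB1 : S_B1) (hB2 : S_B2) {P : Par} {X : ℝ} {h v : W}
    {y : ℕ → A} (H : Hyp P X h v y) {V : ℝ} (hV0 : 0 ≤ V) (hV5 : V ≤ 5) (hv : ‖v‖ ≤ V * X ^ 2)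
    (k : ℕ) : ∀ i, ‖y i‖ ≤ (min 5 (2 / 5 * V + 5 * (2 / 3 : ℝ) ^ k)) * X ^ 2 := by
  have hX2 : 0 ≤ X ^ 2 := sq_nonneg X
  induction k with
  | zero =>
    intro i
    refine (H.sol.ny i).trans ?_
    refine mul_le_mul_of_nonneg_right ?_ hX2
    rw [pow_zero, mul_one]
    exact le_min le_rfl (by linarith)
  | succ k ih =>
    intro i
    set δ : ℝ := 5 * (2 / 3 : ℝ) ^ k with hδ
    have hδ0 : 0 ≤ δ := by positivity
    have hM0 : 0 ≤ min 5 (2 / 5 * V + δ) := le_min (by norm_num) (by linarith)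
    have h1 := yg_step hA2 hB1 hB2 H hV0 hV5 hM0 (min_le_left _ _) hv ih i
    have h2 : min 5 (2 / 5 * V + δ) ≤ 2 / 5 * V + δ := min_le_right _ _
    set M := min 5 (2 / 5 * V + δ) with hM
    have h3 : 6301 / 10000 * (max (41 / 100 * V) (M / 2) + M / 2) ≤
        2 / 5 * V + 5 * (2 / 3 : ℝ) ^ (k + 1) := by
      have e : 5 * (2 / 3 : ℝ) ^ (k + 1) = 2 / 3 * δ := by
        rw [hδ, pow_succ]; ring
      rw [e]
      rcases max_cases (41 / 100 * V) (M / 2) with h | h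
      · rw [h.1]; linarith
      · rw [h.1]; linarith
    have h4 := H.sol.ny i
    rcases min_cases (5 : ℝ) (2 / 5 * V + 5 * (2 / 3 : ℝ) ^ (k + 1)) with h | h
    · rw [h.1]; exact h4
    · rw [h.1]
      exact h1.trans (mul_le_mul_of_nonneg_right h3 hX2)

private theorem yg_main (hA2 : S_A2) (hB1 : S_B1) (hB2 : S_B2) {P : Par} {X : ℝ} {h v : W}
    {y : ℕ → A} (H : Hyp P X h v y) {V : ℝ} (hV0 : 0 ≤ V) (hV5 : V ≤ 5) (hv : ‖v‖ ≤ V * X ^ 2)
    (i : ℕ) : ‖y i‖ ≤ 2 / 5 * V * X ^ 2 := by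
  have hX2 : 0 ≤ X ^ 2 := sq_nonneg X
  have h1 : ∀ k : ℕ, ‖y i‖ ≤ (2 / 5 * V + 5 * (2 / 3 : ℝ) ^ k) * X ^ 2 := fun k =>
    (yg_iter hA2 hB1 hB2 H hV0 hV5 hv k i).trans
      (mul_le_mul_of_nonneg_right (min_le_right _ _) hX2)
  have h2 : Tendsto (fun k : ℕ => (2 / 5 * V + 5 * (2 / 3 : ℝ) ^ k) * X ^ 2) atTop
      (𝓝 ((2 / 5 * V + 5 * 0) * X ^ 2)) := by
    refine Tendsto.mul_const _ (Tendsto.const_add _ (Tendsto.const_mul _ ?_))
    exact tendsto_pow_atTop_nhds_zero_of_lt_one (by norm_num) (by norm_num)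
  have h3 := ge_of_tendsto' h2 h1
  rw [mul_zero, add_zero] at h3
  exact h3

/-- SC-YG: the bound of `y` by `v` -/
theorem proof_YG (_hA1 : S_A1) (hA2 : S_A2) (_hA3 : S_A3) (_hAB : S_AB) (hB1 : S_B1)
    (hB2 : S_B2) : S_YG := by
  intro P X h v y H V hV hv i
  have hX2 : 0 ≤ X ^ 2 := sq_nonneg X
  rcases le_or_gt V 5 with hV5 | hV5
  · exact yg_main hA2 hB1 hB2 H hV hV5 hv i
  · refine (yg_main hA2 hB1 hB2 H (by norm_num : (0 : ℝ) ≤ 5) le_rfl H.sol.nv i).trans ?_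
    exact mul_le_mul_of_nonneg_right (by linarith) hX2

end Pool.Agent.H812.SF
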