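import Pool.Agent.H812.SF.DOM
import Pool.Agent.H812.SF.ONE
import Pool.Agent.H812.SF.AB
import Pool.Agent.H812.SF.B1
import Pool.Agent.H812.SF.B2
import Pool.Agent.H812.SF.B3
import Pool.Agent.H812.SF.SELF
import Pool.Agent.H812.SF.CTR
import Pool.Agent.H812.SF.LX
import Pool.Agent.H812.SF.FIX
import Pool.Agent.H812.SF.HG
import Pool.Agent.H812.SF.VG
import Pool.Agent.H812.SF.YG
import Pool.Agent.H812.SF.RV
import Pool.Agent.H812.SF.GG
import Pool.Agent.H812.SF.SGN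
import Pool.Agent.H812.SF.EXI
import Pool.Agent.H812.SF.FN1
import Pool.Agent.H812.SF.FN2
import Pool.Agent.H812.SF.FN3
import Pool.Agent.H812.SF.FN4
import Pool.Agent.H812.SF.FN5
import Pool.Agent.H548.SfBLK
import Pool.Agent.H921.SfSCH
import Pool.Agent.H155.SfDYN
import Pool.Agent.H997.SfPAR
import Pool.Agent.H102.SfINC
import Pool.Agent.H30.SfTR1
import Pool.Agent.H685.SfSIM
import Pool.Agent.H763.SfSEQ
import Pool.Agent.H264.SfJ1Z
import Pool.Agent.H307.SfCLO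
import Pool.Graph.R_pool_sql_team_seeded_63374d34.N229.SC.A1
import Pool.Graph.R_pool_sql_team_seeded_63374d34.N229.SC.A2
import Pool.Graph.R_pool_sql_team_seeded_63374d34.N229.SC.A3
import Pool.Graph.R_pool_sql_team_seeded_63374d34.N229.SC.N1
import Pool.Graph.R_pool_sql_team_seeded_63374d34.N229.SC.EH
import Pool.Graph.R_pool_sql_team_seeded_63374d34.N229.SC.EV
import Pool.Graph.R_pool_sql_team_seeded_63374d34.N229.SC.PSM
import Pool.Graph.R_pool_sql_team_seeded_63374d34.N229.SC.PDE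
import Pool.Graph.R_pool_sql_team_seeded_63374d34.N229.SC.INJ
import Pool.Graph.R_pool_sql_team_seeded_63374d34.N229.SC.TOP
import Pool.Graph.R_pool_sql_team_seeded_63374d34.N229.SC.LIP
import Pool.Graph.R_pool_sql_team_seeded_63374d34.N229.SC.NB
import Pool.Graph.R_pool_sql_team_seeded_63374d34.N229.SC.DIV
import Pool.Graph.R_pool_sql_team_seeded_63374d34.N229.SC.CV
import Pool.Graph.R_pool_sql_team_seeded_63374d34.N229.SC.WK1
import Pool.Graph.R_pool_sql_team_seeded_63374d34.N229.SC.WK2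
import Pool.Graph.R_pool_sql_team_seeded_63374d34.N229.SC.WK3

/-!
Project SF (helper812), problem MP_83fd13_an: assembly.
-/

set_option autoImplicit false

namespace Pool.Agent.H812.SF

open Pool.Agent.N229.SC

theorem pA1 : S_A1 := proof_A1
theorem pA2 : S_A2 := proof_A2 pA1
theorem pA3 : S_A3 := proof_A3 pA1 pA2
theorem pAB : S_AB := proof_AB
theorem pB1 : S_B1 := proof_B1 pA1 pA2 pA3
theorem pB2 : S_B2 := proof_B2 pA1 pA2 pA3 pAB pB1
theorem pB3 : S_B3 := proof_B3 pA1 pA2 pA3 pAB pB1 pB2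
theorem pSELF : S_SELF := proof_SELF pA1 pA2 pA3 pAB pB1 pB2
theorem pCTR : S_CTR := proof_CTR pA1 pA2 pA3 pAB pB1 pB2 pB3
theorem pLX : S_LX := proof_LX pA1 pA2 pA3 pAB pB1 pB2
theorem pFIX : S_FIX := proof_FIX pA1 pA2 pSELF pCTR pLX
theorem pHG : S_HG := proof_HG pA1 pA2 pA3 pAB pB1 pB2
theorem pVG : S_VG := proof_VG pA1 pA2 pA3 pAB pB1 pB2
theorem pYG : S_YG := proof_YG pA1 pA2 pA3 pAB pB1 pB2
theorem pRV : S_RV := proof_RV pA1 pA2 pA3 pAB pB1 pB2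
theorem pGG : S_GG := proof_GG pA1 pA2 pA3 pAB pB1 pB2 pRV
theorem pSGN : S_SGN := proof_SGN pA1 pA2 pAB pHG pVG pYG pRV pGG
theorem pEXI : S_EXI := proof_EXI pA1 pA2 pFIX pHG pSGN
theorem pEH : S_EH := proof_EH pA1 pA2
theorem pEV : S_EV := proof_EV pA1 pA2 pA3
theorem pFN1 : S_FN1 := proof_FN1 pA1 pA2 pA3 pB1 pEH pEV
theorem pFN2 : S_FN2 := proof_FN2 pA1 pA2 pA3 pAB pB1 pB2 pEH
theorem pFN3 : S_FN3 := proof_FN3 pA1 pA2 pA3 pAB pB1 pB2 pEH
theorem pFN4 : S_FN4 := proof_FN4 pA1 pA2 pA3 pAB pB1 pB2 pEH pEV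
theorem pFN5 : S_FN5 := proof_FN5 pA1 pA2 pA3 pAB pB1 pB2 pEH pEV
theorem pPDE : S_PDE := proof_PDE proof_PSM
theorem pINJ : S_INJ := proof_INJ
theorem pTOP : S_TOP := proof_TOP pINJ
theorem pLIP : S_LIP := proof_LIP pINJ pTOP
theorem pNB : S_NB := proof_NB pINJ pTOP
theorem pCV : S_CV := proof_CV pINJ
theorem pWK1 : S_WK1 := proof_WK1 pINJ pTOP pCV
theorem pWK2 : S_WK2 := proof_WK2 pINJ pTOP pCV proof_DIV
theorem pWK3 : S_WK3 := proof_WK3 pINJ pTOP pCV proof_DIV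
theorem pN1 : S_N1 := proof_N1
theorem pBLK : S_BLK := Pool.Agent.H548.SfBLK.proof_BLK
theorem pSCH : S_SCH := Pool.Agent.H921.SfSCH.proof_SCH
theorem pDYN : S_DYN := Pool.Agent.H155.SfDYN.proof_DYN pBLK pSCH
theorem pPAR : S_PAR := Pool.Agent.H997.SfPAR.proof_PAR pDYN pN1
theorem pJ1Z : S_J1Z := Pool.Agent.H264.SfJ1Z.proof_J1Z
theorem pCLO : S_CLO := Pool.Agent.H307.SfCLO.proof_CLO pB1 pEH
theorem pINC : S_INC := Pool.Agent.H102.SfINC.proof_INC pTOP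
theorem pTR1 : S_TR1 := Pool.Agent.H30.SfTR1.proof_TR1
theorem pSIM : S_SIM := Pool.Agent.H685.SfSIM.proof_SIM
theorem pONE : S_ONE := proof_ONE pEXI pPAR pFN1 pFN2 pFN3 pFN4 pFN5 pCLO pINC pTR1 pPDE pINJ
  pTOP pLIP pNB pWK1 pWK2 pWK3
theorem pSEQ : S_SEQ := Pool.Agent.H763.SfSEQ.proof_SEQ pONE pJ1Z pSIM

end Pool.Agent.H812.SF
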