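import Pool.Agent.H812.SF.DOM
import Pool.Agent.H812.SF.PARL

/-!
Project SF (helper812): the number of non-similar domains near the disc of radius `ρ` is at least
`κ ρ`.
-/

set_option autoImplicit false

open Set Filter Topology MeasureTheory

namespace Pool.Agent.H812.SF

open Pool.Agent.N229.SC

/-- SF-MULL: at least `κ ρ` pairwise non-similar domains near the disc of radius `ρ`. -/
def S_MULL : Prop :=
  ∀ ε : ℝ, 0 < ε → ∃ κ R : ℝ, 0 < κ ∧ ∀ ρ : ℝ, R ≤ ρ → Fb ρ 1 = 0 → ∃ Ω : ℕ → Set E2,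
    (∀ k : ℕ, (k : ℝ) ≤ κ * ρ → PlaneDomain (Ω k) ∧ Schiffer (Ω k) 1 ∧ ¬ IsDisc (Ω k) ∧
      NearDisc ε ρ (Ω k) ∧ Metric.ball 0 (ρ - ε) ⊆ Ω k ∧ Ω k ⊆ Metric.ball 0 (ρ + ε)) ∧
    ∀ j k : ℕ, (j : ℝ) ≤ κ * ρ → (k : ℝ) ≤ κ * ρ → j ≠ k → ¬ Similar (Ω j) (Ω k)

theorem proof_MULL (hPARL : S_PARL) (hDOM : S_DOM) (hNSIM : S_NSIM) : S_MULL := by
  intro ε hε
  obtain ⟨m, hm⟩ : ∃ m : ℝ, m = min ε (1 / 1000) := ⟨_, rfl⟩
  have hm0 : 0 < m := by rw [hm]; exact lt_min hε (by norm_num)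
  have hm1 : m ≤ ε := by rw [hm]; exact min_le_left _ _
  have hm2 : m ≤ 1 / 1000 := by rw [hm]; exact min_le_right _ _
  have hm3 : m ^ 2 ≤ (1 / 1000) ^ 2 := pow_le_pow_left₀ hm0.le hm2 2
  obtain ⟨κ, R, hκ, hR⟩ := hPARL (m ^ 2 / 30000) (by positivity)
    (by norm_num at hm3 ⊢; linarith)
  refine ⟨κ, R, hκ, fun ρ hρ hJ => ?_⟩
  obtain ⟨P, hP, hn⟩ := hR ρ hρ hJ
  have hex : ∀ k : ℕ, ∃ D : Set ℂ, ((k : ℝ) ≤ κ * ρ) → Bornology.IsBounded D ∧ D.Nonempty ∧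
      RotN (P k).n D ∧ ∃ Ω : Set E2, Ω = (fun z : ℂ => (!₂[z.re, z.im] : E2)) '' D ∧
      PlaneDomain Ω ∧ Schiffer Ω 1 ∧ ¬ IsDisc Ω ∧ NearDisc ε ρ Ω ∧
      Metric.ball 0 (ρ - ε) ⊆ Ω ∧ Ω ⊆ Metric.ball 0 (ρ + ε) := by
    intro k
    by_cases hk : (k : ℝ) ≤ κ * ρ
    · obtain ⟨hG, hρP, ha, -, hbd⟩ := hP k hk
      obtain ⟨D, h1, h2, h3, h4, Ω, h5, h6, h7, h8, h9, h10, h11⟩ := hDOM (P k) hG hbd
      have hs : 100 * Real.sqrt ((P k).a 0) ≤ ε := by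
        have : Real.sqrt ((P k).a 0) ≤ m / 100 := by
          rw [Real.sqrt_le_left (by positivity)]
          refine ha.trans (le_of_eq ?_)
          ring
        linarith
      rw [hρP] at h9 h10 h11
      have hρ0 : 0 ≤ ρ := by
        have := hG.rho
        rw [hρP] at this
        linarith
      refine ⟨D, fun _ => ⟨h2, h3, h4, Ω, h5, h6, h7, h8, h9.mono hs hρ0, ?_, ?_⟩⟩
      · exact (Metric.ball_subset_ball (by linarith)).trans h10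
      · exact h11.trans (Metric.ball_subset_ball (by linarith))
    · exact ⟨∅, fun h => absurd h hk⟩
  choose D hD using hex
  refine ⟨fun k => (fun z : ℂ => (!₂[z.re, z.im] : E2)) '' (D k), fun k hk => ?_, ?_⟩
  · obtain ⟨-, -, -, Ω, rfl, h⟩ := hD k hk
    exact h
  · have key : ∀ j k : ℕ, (j : ℝ) ≤ κ * ρ → (k : ℝ) ≤ κ * ρ → (P j).n ≠ (P k).n →
        ¬ Similar ((fun z : ℂ => (!₂[z.re, z.im] : E2)) '' (D j))
          ((fun z : ℂ => (!₂[z.re, z.im] : E2)) '' (D k)) := by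
      intro j k hj hk hjk hsim
      obtain ⟨a1, a2, a3, -⟩ := hD j hj
      obtain ⟨b1, b2, b3, -⟩ := hD k hk
      have hn2 : ∀ i : ℕ, (i : ℝ) ≤ κ * ρ → 2 ≤ (P i).n := by
        intro i hi
        obtain ⟨hG, -⟩ := hP i hi
        have h1 := hG.nu1
        have h2 := hG.rho
        have h3 : (P i).nu * (P i).ρ = (P i).n := by
          unfold Par.nu
          have : (P i).ρ ≠ 0 := by linarith
          field_simp
        have h4 : (2 : ℝ) ≤ (P i).n := by nlinarith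
        exact_mod_cast h4
      exact hjk (hNSIM _ _ _ _ a1 b1 a2 (hn2 j hj) (hn2 k hk) a3 b3 hsim)
    intro j k hj hk hjk
    refine key j k hj hk ?_
    rcases lt_or_gt_of_ne hjk with h | h
    · exact (hn j k h hk).ne
    · exact (hn k j h hj).ne'

end Pool.Agent.H812.SF
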