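import Pool.Agent.H812.SF.Stm3

/-!
Project SF (helper812), problem MP_83fd13_an: statements with a rate.
The proofs are in the docstrings.
-/

set_option autoImplicit false

open Set Filter Topology MeasureTheory

namespace Pool.Agent.H812.SF

open Pool.Agent.N229.SC

/-- SF-SCH2: `S_SCH` with `10 / δ` instead of `10 / δ ^ 2` steps.

Proof. As for `S_SCH` (file Pool/Agent/H921/SfSCH.lean, store helper921_SfSCH.lean) with another argument for claim A: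
if `p j > 0` for all `j ≤ N`, put `r j = q j / p j`; then `sin (arctan r_{j+1} - arctan r_j) =
(r_{j+1} - r_j) / √((1 + r_j ^ 2) (1 + r_{j+1} ^ 2)) = S_j / (√(p_j^2 + q_j^2) √(p_{j+1}^2 + q_{j+1}^2)) ≥ δ / 2`, because
`√(p_j^2 + q_j^2) ≤ 1.114 s`, `√(p_{j+1}^2 + q_{j+1}^2) ≤ 1.23 s`, `s = √(a_j^2 + b_j^2)`
(`100 δ ≤ 1/20`, `ε ≤ 1/10`).  The difference is in `(0, π)`, so it is at least its sine; after `N ≥ 10 / δ + 3` steps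
`arctan r_N - arctan r_0 ≥ 5 > π`, a contradiction. -/
def S_SCH2 : Prop :=
  ∀ (ε δ : ℝ) (N : ℕ) (a b : ℕ → ℝ), 0 < ε → ε ≤ 1 / 10 → 0 < δ → 200 * δ ≤ ε →
    10 / δ + 3 ≤ N → (a 0 ≠ 0 ∨ b 0 ≠ 0) →
    (∀ j < N, |a (j + 1) - a j| ≤ 100 * δ * (|a j| + |b j|) ∧
      |b (j + 1) - b j| ≤ 100 * δ * (|a j| + |b j|) ∧
      δ * (a j ^ 2 + b j ^ 2) ≤ a j * b (j + 1) - b j * a (j + 1)) →
    ∃ j ≤ N, b j ≠ 0 ∧ ε ≤ -(a j / b j) ∧ -(a j / b j) ≤ 3 * ε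

/-- SF-DYN2: the dynamical lemma with explicit constants, from `S_BLK` and `S_SCH2` (model:
Pool/Agent/H155/SfDYN.lean, store helper155_SfDYN.lean; `δ = ε / 10 ^ 4`, `N = ⌈10 / δ⌉ + 3`, `5 N + 5 ≤ 10 ^ 6 / ε`). -/
def S_DYN2 : Prop :=
  ∀ (φ ε : ℝ), φ ^ 2 = φ + 1 → 0 < φ → 0 < ε → ε ≤ 1 / 10 → ∀ L : ℕ, 10 ^ 6 / ε ≤ L →
    ∀ (c x : ℕ → ℝ) (M : ℕ),
      (∀ m, M ≤ m → m ≤ M + L → φ + ε / 10 ^ 4 ≤ c m ∧ c m ≤ φ + 2 * (ε / 10 ^ 4)) →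
      (∀ m, x (m + 2) = c m * x (m + 1) - x m) → (x M ≠ 0 ∨ x (M + 1) ≠ 0) →
      ∃ n, M ≤ n ∧ n ≤ M + L ∧ x (n + 1) ≠ 0 ∧ ε ≤ -(x n / x (n + 1)) ∧
        -(x n / x (n + 1)) ≤ 3 * ε

/-- SF-PARQ: the parameters for every large zero of `J_1`, with a rate, from `S_DYN2` and `S_N1` (model:
Pool/Agent/H997/SfPAR.lean, store helper997_SfPAR.lean).  `R = 10 ^ 30`, `ε = 2 * 10 ^ 5 / √ρ`, `L = ⌈10 ^ 6 / ε⌉`,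
`δ = ε / 10 ^ 4`: `2 (L + 5) ≤ δ ρ`, and `P.a 0 ≤ 3 ε ≤ 10 ^ 6 / √ρ`. -/
def S_PARQ : Prop :=
  ∀ ρ : ℝ, 10 ^ 30 ≤ ρ → Fb ρ 1 = 0 →
    ∃ P : Par, Good P ∧ P.ρ = ρ ∧ P.a 0 ≤ 10 ^ 6 / Real.sqrt ρ ∧
      ∃ C, ∀ i, |P.a i| ≤ C ∧ |P.b i| ≤ C

end Pool.Agent.H812.SF
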