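import Pool.Agent.H812.SF.DOM
import Pool.Agent.H812.SF.Stm4

/-!
Project SF (helper812): the criterion and the rate.
-/

set_option autoImplicit false

open Set Filter Topology MeasureTheory

namespace Pool.Agent.H812.SF

open Pool.Agent.N229.SC

/-- SF-NR: the criterion (near resonance of `J_1` and `J_n`). -/
def S_NR : Prop :=
  ∀ (ρ : ℝ) (n : ℕ), 10 ^ 4 ≤ ρ → 4 / 5 * ρ ≤ n → n ≤ 41 / 50 * ρ → Fb ρ 1 = 0 →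
    0 < -(Fb ρ n / Fb ρ (n + 1)) → -(Fb ρ n / Fb ρ (n + 1)) ≤ 31 / 10 ^ 10 →
    ∃ Ω : Set E2, (PlaneDomain Ω ∧ Schiffer Ω 1 ∧ ¬ IsDisc Ω ∧
      NearDisc (100 * Real.sqrt (-(Fb ρ n / Fb ρ (n + 1)))) ρ Ω ∧
      Metric.ball 0 (ρ - 100 * Real.sqrt (-(Fb ρ n / Fb ρ (n + 1)))) ⊆ Ω ∧
      Ω ⊆ Metric.ball 0 (ρ + 100 * Real.sqrt (-(Fb ρ n / Fb ρ (n + 1))))) ∧
      ∃ D : Set ℂ, Ω = (fun z : ℂ => (!₂[z.re, z.im] : E2)) '' D ∧ RotN n D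

theorem proof_NR (hONEN : S_ONEN) (hDOM : S_DOM) : S_NR := by
  intro ρ n h1 h2 h3 h4 h5 h6
  obtain ⟨P, hG, hρ, hn, ha, hbd⟩ := hONEN ρ n h1 h2 h3 h4 h5 h6
  obtain ⟨D, g1, g2, g3, g4, Ω, g5, g6⟩ := hDOM P hG hbd
  rw [hρ, ha] at g6
  rw [hn] at g4
  exact ⟨Ω, g6, D, g5, g4⟩

/-- SF-RATE: the rate. -/
def S_RATE : Prop :=
  ∀ ρ : ℝ, 10 ^ 30 ≤ ρ → Fb ρ 1 = 0 → ∃ Ω : Set E2, PlaneDomain Ω ∧ Schiffer Ω 1 ∧ ¬ IsDisc Ω ∧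
    NearDisc (10 ^ 5 / ρ ^ (1 / 4 : ℝ)) ρ Ω ∧ Metric.ball 0 (ρ - 10 ^ 5 / ρ ^ (1 / 4 : ℝ)) ⊆ Ω ∧
    Ω ⊆ Metric.ball 0 (ρ + 10 ^ 5 / ρ ^ (1 / 4 : ℝ))

theorem proof_RATE (hPARQ : S_PARQ) (hDOM : S_DOM) : S_RATE := by
  intro ρ hρ hJ
  obtain ⟨P, hG, hPρ, ha, hbd⟩ := hPARQ ρ hρ hJ
  obtain ⟨D, -, -, -, -, Ω, -, h6, h7, h8, h9, h10, h11⟩ := hDOM P hG hbd
  have hρ0 : 0 < ρ := lt_of_lt_of_le (by norm_num) hρ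
  have hs : 100 * Real.sqrt (P.a 0) ≤ 10 ^ 5 / ρ ^ (1 / 4 : ℝ) := by
    have h1 : Real.sqrt (P.a 0) ≤ 10 ^ 3 / ρ ^ (1 / 4 : ℝ) := by
      rw [Real.sqrt_le_left (by positivity)]
      refine ha.trans (le_of_eq ?_)
      rw [div_pow, ← Real.rpow_natCast (ρ ^ (1 / 4 : ℝ)) 2, ← Real.rpow_mul hρ0.le,
        Real.sqrt_eq_rpow]
      norm_num
    calc 100 * Real.sqrt (P.a 0) ≤ 100 * (10 ^ 3 / ρ ^ (1 / 4 : ℝ)) := by linarith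
      _ = _ := by ring
  rw [hPρ] at h9 h10 h11
  exact ⟨Ω, h6, h7, h8, h9.mono hs hρ0.le,
    (Metric.ball_subset_ball (by linarith)).trans h10,
    h11.trans (Metric.ball_subset_ball (by linarith))⟩

end Pool.Agent.H812.SF
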