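import Pool.Agent.H812.SF.Fin
import Pool.Agent.H812.SF.MULL
import Pool.Agent.H812.SF.RATE
import Pool.Agent.H47.SfROT
import Pool.Agent.H746.SfNSIM
import Pool.Agent.H337.SfONEN

/-!
Project SF (helper812), problem MP_83fd13_an: assembly, second part.
-/

set_option autoImplicit false

namespace Pool.Agent.H812.SF

open Pool.Agent.N229.SC

theorem pROT : S_ROT := Pool.Agent.H47.SfROT.proof_ROT pA1 pA2 pAB pB1 pEH pINJ pFN1 pTOP
theorem pNSIM : S_NSIM := Pool.Agent.H746.SfNSIM.proof_NSIM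
theorem pONEN : S_ONEN := Pool.Agent.H337.SfONEN.proof_ONEN pN1
theorem pPARL : S_PARL := proof_PARL pDYN pN1
theorem pDOM : S_DOM := proof_DOM pEXI pFN1 pFN2 pFN3 pFN4 pFN5 pCLO pINC pTR1 pROT pPDE pINJ
  pTOP pLIP pNB pWK1 pWK2 pWK3
theorem pMULL : S_MULL := proof_MULL pPARL pDOM pNSIM
theorem pNR : S_NR := proof_NR pONEN pDOM

end Pool.Agent.H812.SF
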