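import Pool.Agent.H812.SF.Q2
import Pool.Agent.H23.SfCLO2

/-!
Project SF (helper812), problem MP_83fd13_an: assembly, third part.
-/

set_option autoImplicit false

namespace Pool.Agent.H812.SF

open Pool.Agent.N229.SC

theorem pSCH2 : S_SCH2 := Pool.Agent.H505.SfSCH2.proof_SCH2
theorem pDYN2 : S_DYN2 := Pool.Agent.H784.SfDYN2.proof_DYN2 pBLK pSCH2
theorem pPARG : S_PARG := proof_PARG pDYN2 pN1
theorem pCLO2 : S_CLO2 := Pool.Agent.H23.SfCLO2.proof_CLO2 pA1 pB1 pEH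
theorem pDOM2 : S_DOM2 := proof_DOM2 pEXI pFN1 pFN2 pFN3 pFN4 pFN5 pCLO pCLO2 pINC pTR1 pROT pPDE
  pINJ pTOP pLIP pNB pWK1 pWK2 pWK3
theorem pNR2 : S_NR2 := proof_NR2 pONEN pDOM2
theorem pMQ : S_MQ := proof_MQ pPARG pDOM2 pNSIM
theorem pHOL : S_HOL := proof_HOL pMQ
theorem pSEQ2 : S_SEQ2 := proof_SEQ2 pMQ pJ1Z pSIM

end Pool.Agent.H812.SF
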