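import Pool.Agent.H812.SF.Fin2
import Pool.Agent.H812.SF.PARG
import Pool.Agent.H763.SfSEQ
import Pool.Agent.H505.SfSCH2
import Pool.Agent.H784.SfDYN2
import Pool.Agent.H957.HE.Tr

/-!
Project SF (helper812): the quantitative version.
-/

set_option autoImplicit false

open Set Filter Topology MeasureTheory

namespace Pool.Agent.H812.SF

open Pool.Agent.N229.SC

/-- `Ω` is the image of the unit disc under an injective holomorphic map of a larger disc which is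
close to `z ↦ ρ z` with its derivative; the derivative is Lipschitz with a small constant. -/
def Near2 (η ρ : ℝ) (Ω : Set E2) : Prop :=
  ∃ (r : ℝ) (f : ℂ → ℂ), 1 < r ∧ DifferentiableOn ℂ f (Metric.ball 0 r) ∧
    InjOn f (Metric.ball 0 r) ∧
    (∀ z ∈ Metric.ball (0 : ℂ) r, ‖f z - ρ * z‖ ≤ η ∧ ‖deriv f z - ρ‖ ≤ η * ρ) ∧
    (∀ z w : ℂ, ‖z‖ ≤ 1 → ‖w‖ ≤ 1 → ‖deriv f z - deriv f w‖ ≤ 300 * η * ρ ^ 2 * ‖z - w‖) ∧
    Ω = (fun z : ℂ => (!₂[z.re, z.im] : E2)) '' (f '' Metric.ball 0 1)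

/-- The overdetermined problem `-Δu = lam u` in `Ω`, `∂u/∂n = 0`, `u = c` on `∂Ω` has a weak
solution with `c ≠ 0` (`G` is the gradient of `u`). -/
def Schiffer0 (Ω : Set E2) (lam : ℝ) : Prop :=
  ∃ (c : ℝ) (u : E2 → ℝ) (G : E2 → E2), c ≠ 0 ∧
    MemLp u 2 (volume.restrict Ω) ∧ MemLp G 2 (volume.restrict Ω) ∧
    (∀ φ : E2 → ℝ, ContDiff ℝ 1 φ → HasCompactSupport φ → ∀ v : E2,
      ∫ x in Ω, (u x - c) * (fderiv ℝ φ x v) = - ∫ x in Ω, @inner ℝ E2 _ (G x) v * φ x) ∧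
    (∀ φ : E2 → ℝ, ContDiff ℝ 1 φ → HasCompactSupport φ →
      ∫ x in Ω, fderiv ℝ φ x (G x) = lam * ∫ x in Ω, u x * φ x) ∧
    ¬ (u =ᵐ[volume.restrict Ω] 0)

/-- All properties. -/
structure Ctr (η ρ : ℝ) (Ω : Set E2) : Prop where
  dom : PlaneDomain Ω
  sol : Schiffer0 Ω 1
  pomp : ∀ σ : E2 ≃ᵢ E2, ∫ x in σ '' Ω, Real.cos (x 0) = 0
  nd : ¬ IsDisc Ω
  near : Near2 η ρ Ω
  inner : Metric.ball 0 (ρ - η) ⊆ Ω
  outer : Ω ⊆ Metric.ball 0 (ρ + η)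

theorem Ctr.mono {η η' ρ : ℝ} {Ω : Set E2} (h : Ctr η ρ Ω) (hη : η ≤ η') (hρ : 0 ≤ ρ) :
    Ctr η' ρ Ω := by
  obtain ⟨h1, h2, h2', h3, ⟨r, f, g1, g2, g3, g4, g5, g6⟩, h5, h6⟩ := h
  refine ⟨h1, h2, h2', h3, ⟨r, f, g1, g2, g3, fun z hz => ⟨(g4 z hz).1.trans hη,
    (g4 z hz).2.trans (mul_le_mul_of_nonneg_right hη hρ)⟩, fun z w hz hw => ?_, g6⟩,
    (Metric.ball_subset_ball (by linarith)).trans h5,
    h6.trans (Metric.ball_subset_ball (by linarith))⟩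
  refine (g5 z w hz hw).trans ?_
  have : 300 * η * ρ ^ 2 ≤ 300 * η' * ρ ^ 2 := by
    have := sq_nonneg ρ
    nlinarith
  exact mul_le_mul_of_nonneg_right this (norm_nonneg _)

/-- SF-DOM2: the domain for given parameters. -/
def S_DOM2 : Prop :=
  ∀ P : Par, Good P → (∃ C, ∀ i, |P.a i| ≤ C ∧ |P.b i| ≤ C) → ∃ D : Set ℂ,
    Bornology.IsBounded D ∧ D.Nonempty ∧ RotN P.n D ∧
    Ctr (100 * Real.sqrt (P.a 0)) P.ρ ((fun z : ℂ => (!₂[z.re, z.im] : E2)) '' D)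

theorem proof_DOM2 (hEXI : S_EXI) (hFN1 : S_FN1) (hFN2 : S_FN2) (hFN3 : S_FN3)
    (hFN4 : S_FN4) (hFN5 : S_FN5) (hCLO : S_CLO) (hCLO2 : S_CLO2) (hINC : S_INC) (hTR1 : S_TR1)
    (hROT : S_ROT) (hPDE : S_PDE) (hINJ : S_INJ) (hTOP : S_TOP) (hLIP : S_LIP) (hNB : S_NB)
    (hWK1 : S_WK1) (hWK2 : S_WK2) (hWK3 : S_WK3) : S_DOM2 := by
  intro P hG hbd
  obtain ⟨X, h, v, y, hX, hX', hX5, hsol, hO, hh⟩ := hEXI P hG
  have hF : Full P X h v y := ⟨hG, hbd, hX, hX', hsol, hO, hh⟩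
  obtain ⟨hconf, hnd⟩ := hFN1 P X h v y hF
  obtain ⟨hQd, hQb⟩ := hFN2 P X h v y hF
  have hStr : Str P.ρ (rF P) (fF P h) (QF P X h v y) :=
    ⟨hconf, hQd, hQb, hFN3 P X h v y hF, hFN4 P X h v y hF, hFN5 P X h v y hF⟩
  obtain ⟨r', c, U, S, hr1, hr2, hCl⟩ := hPDE _ _ _ _ hStr
  obtain ⟨t1, t2, t3, t4, t5, t6⟩ := hTOP _ _ _ hconf
  obtain ⟨w1, w2, w3⟩ := hWK1 _ _ _ _ _ _ _ hconf hr1 hr2 hCl
  -- the size of `h`
  obtain ⟨q, hq⟩ : ∃ q : ℝ, q = Real.sqrt (P.a 0) := ⟨_, rfl⟩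
  have hq0 : 0 < q := hq ▸ Real.sqrt_pos.2 hG.a0
  have hq1 : q ≤ 1 / 10000 := by
    rw [hq, Real.sqrt_le_left (by positivity)]
    exact hG.a0'.trans (by norm_num)
  rw [← hq] at hX5 ⊢
  have hs2 : ‖h‖ ≤ 10 * q := by
    have := hsol.nh
    linarith
  have hclose : ∀ z ∈ Metric.ball (0 : ℂ) (rF P), ‖fF P h z - P.ρ * z‖ ≤ 2 * (10 * q) ∧
      ‖deriv (fF P h) z - P.ρ‖ ≤ 10 * (10 * q) * P.ρ :=
    hCLO P h (10 * q) hG hs2 (by linarith)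
  have hlip := hCLO2 P h (10 * q) hG hs2 (by linarith)
  have hρ0 : 0 < P.ρ := hconf.rho_pos
  -- the inclusions
  have hinc := hINC P.ρ (rF P) (100 * q) (fF P h) hconf (by positivity) (by
    intro z hz
    have h1 := (hclose z (by
      rw [mem_ball_zero_iff, hz]
      exact hconf.r_gt)).1
    have h2 : ‖(P.ρ : ℂ) * z‖ = P.ρ := by
      rw [norm_mul, hz, mul_one, Complex.norm_real, Real.norm_eq_abs, abs_of_pos hρ0]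
    have h3 := abs_norm_sub_norm_le (fF P h z) (P.ρ * z)
    rw [h2] at h3
    linarith)
  have hweak : Weak (Om (fF P h)) 1 c (uF (fF P h) U) (GF (fF P h) S) :=
    ⟨w1, w2, hWK2 _ _ _ _ _ _ _ hconf hr1 hr2 hCl, hWK3 _ _ _ _ _ _ _ hconf hr1 hr2 hCl, w3⟩
  obtain ⟨d1, d2, d3, d4⟩ := hTR1 (Om (fF P h)) 1 c _ _ t1 t2 t3 t4 t6 (by
    intro p hp
    rw [t5] at hp
    obtain ⟨z, hz, rfl⟩ := hp
    exact hLIP _ _ _ hconf z (by simpa using hz)) (hNB _ _ _ hconf hnd) hweak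
  have hJJ : (fun z : ℂ => (!₂[z.re, z.im] : E2)) = Pool.Agent.H957.HE.JJ := by
    funext z
    ext i
    fin_cases i <;> simp [Pool.Agent.H957.HE.JJ]
  refine ⟨Om (fF P h), t2, t3.nonempty, hROT P X h v y hF, d1, ?_, ?_, d2, ?_, ?_, ?_⟩
  · rw [hJJ]
    exact ⟨c, _, _, hCl.c_ne, Pool.Agent.H957.HE.sol_transfer hweak⟩
  · rw [hJJ]
    exact fun σ => Pool.Agent.H957.HE.pompeiu t1 t2 hCl.c_ne hweak σ
  · refine ⟨rF P, fF P h, hconf.r_gt, hconf.f_diff, (hINJ _ _ _ hconf).2, ?_, ?_, rfl⟩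
    · intro z hz
      obtain ⟨h1, h2⟩ := hclose z hz
      refine ⟨h1.trans (by linarith), h2.trans ?_⟩
      refine mul_le_mul_of_nonneg_right (by linarith) hρ0.le
    · intro z w hz hw
      refine (hlip z w hz hw).trans (le_of_eq ?_)
      ring
  · exact (d4 _).1 hinc.1
  · exact (d4 _).2 hinc.2

/-- SF-NR2: the criterion (near resonance of `J_1` and `J_n`). -/
def S_NR2 : Prop :=
  ∀ (ρ : ℝ) (n : ℕ), 10 ^ 4 ≤ ρ → 4 / 5 * ρ ≤ n → n ≤ 41 / 50 * ρ → Fb ρ 1 = 0 →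
    0 < -(Fb ρ n / Fb ρ (n + 1)) → -(Fb ρ n / Fb ρ (n + 1)) ≤ 31 / 10 ^ 10 →
    ∃ D : Set ℂ, RotN n D ∧ Ctr (100 * Real.sqrt (-(Fb ρ n / Fb ρ (n + 1)))) ρ
      ((fun z : ℂ => (!₂[z.re, z.im] : E2)) '' D)

theorem proof_NR2 (hONEN : S_ONEN) (hDOM : S_DOM2) : S_NR2 := by
  intro ρ n h1 h2 h3 h4 h5 h6
  obtain ⟨P, hG, hρ, hn, ha, hbd⟩ := hONEN ρ n h1 h2 h3 h4 h5 h6
  obtain ⟨D, g2, g3, g4, g6⟩ := hDOM P hG hbd
  rw [hρ, ha] at g6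
  rw [hn] at g4
  exact ⟨D, g4, g6⟩

/-- SF-MQ: the quantitative theorem. -/
def S_MQ : Prop :=
  ∀ ρ η : ℝ, 10 ^ 30 ≤ ρ → Fb ρ 1 = 0 → 10 ^ 5 / ρ ^ (1 / 4 : ℝ) ≤ η → η ≤ 1 / 200 →
    ∃ Ω : ℕ → Set E2, (∀ k : ℕ, (k : ℝ) ≤ η ^ 4 * ρ / 10 ^ 20 → Ctr η ρ (Ω k)) ∧
      ∀ j k : ℕ, (j : ℝ) ≤ η ^ 4 * ρ / 10 ^ 20 → (k : ℝ) ≤ η ^ 4 * ρ / 10 ^ 20 → j ≠ k →
        ¬ Similar (Ω j) (Ω k)

theorem proof_MQ (hPARG : S_PARG) (hDOM : S_DOM2) (hNSIM : S_NSIM) : S_MQ := by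
  intro ρ η hρ hJ hη1 hη2
  have hρ0 : 0 < ρ := lt_of_lt_of_le (by norm_num) hρ
  have hη0 : 0 < η := lt_of_lt_of_le (by positivity) hη1
  obtain ⟨P, hP, hn⟩ := hPARG ρ (η ^ 2 / 30000) hρ hJ (by
    have h1 : (10 ^ 5 / ρ ^ (1 / 4 : ℝ)) ^ 2 ≤ η ^ 2 := pow_le_pow_left₀ (by positivity) hη1 2
    have h2 : (10 ^ 5 / ρ ^ (1 / 4 : ℝ)) ^ 2 = 10 ^ 10 / Real.sqrt ρ := by
      rw [div_pow, ← Real.rpow_natCast (ρ ^ (1 / 4 : ℝ)) 2, ← Real.rpow_mul hρ0.le,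
        Real.sqrt_eq_rpow]
      norm_num
    rw [h2] at h1
    have h3 : 2 * 10 ^ 5 / Real.sqrt ρ ≤ (10 ^ 10 / Real.sqrt ρ) / 30000 := by
      rw [div_div, div_le_div_iff₀ (by positivity) (by positivity)]
      have : 0 < Real.sqrt ρ := Real.sqrt_pos.2 hρ0
      nlinarith
    refine h3.trans ?_
    linarith) (by
    have h1 : η ^ 2 ≤ (1 / 200) ^ 2 := pow_le_pow_left₀ hη0.le hη2 2
    norm_num at h1 ⊢
    linarith)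
  have hcount : ∀ k : ℕ, (k : ℝ) ≤ η ^ 4 * ρ / 10 ^ 20 →
      (k : ℝ) ≤ (η ^ 2 / 30000) ^ 2 * ρ / 10 ^ 11 := by
    intro k hk
    refine hk.trans ?_
    have h1 : (η ^ 2 / 30000) ^ 2 * ρ / 10 ^ 11 = η ^ 4 * ρ / (9 * 10 ^ 19) := by ring
    rw [h1]
    refine div_le_div_of_nonneg_left (by positivity) (by positivity) (by norm_num)
  have hex : ∀ k : ℕ, ∃ D : Set ℂ, ((k : ℝ) ≤ η ^ 4 * ρ / 10 ^ 20) →
      Bornology.IsBounded D ∧ D.Nonempty ∧ RotN (P k).n D ∧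
      Ctr η ρ ((fun z : ℂ => (!₂[z.re, z.im] : E2)) '' D) := by
    intro k
    by_cases hk : (k : ℝ) ≤ η ^ 4 * ρ / 10 ^ 20
    · obtain ⟨hG, hρP, ha, -, hbd⟩ := hP k (hcount k hk)
      obtain ⟨D, h2, h3, h4, h5⟩ := hDOM (P k) hG hbd
      have hs : 100 * Real.sqrt ((P k).a 0) ≤ η := by
        have : Real.sqrt ((P k).a 0) ≤ η / 100 := by
          rw [Real.sqrt_le_left (by positivity)]
          refine ha.trans (le_of_eq ?_)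
          ring
        linarith
      rw [hρP] at h5
      exact ⟨D, fun _ => ⟨h2, h3, h4, h5.mono hs hρ0.le⟩⟩
    · exact ⟨∅, fun h => absurd h hk⟩
  choose D hD using hex
  refine ⟨fun k => (fun z : ℂ => (!₂[z.re, z.im] : E2)) '' (D k), fun k hk => (hD k hk).2.2.2,
    ?_⟩
  have key : ∀ j k : ℕ, (j : ℝ) ≤ η ^ 4 * ρ / 10 ^ 20 → (k : ℝ) ≤ η ^ 4 * ρ / 10 ^ 20 →
      (P j).n ≠ (P k).n →
      ¬ Similar ((fun z : ℂ => (!₂[z.re, z.im] : E2)) '' (D j))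
        ((fun z : ℂ => (!₂[z.re, z.im] : E2)) '' (D k)) := by
    intro j k hj hk hjk hsim
    obtain ⟨a1, a2, a3, -⟩ := hD j hj
    obtain ⟨b1, b2, b3, -⟩ := hD k hk
    have hn2 : ∀ i : ℕ, (i : ℝ) ≤ η ^ 4 * ρ / 10 ^ 20 → 2 ≤ (P i).n := by
      intro i hi
      obtain ⟨hG, -⟩ := hP i (hcount i hi)
      have h1 := hG.nu1
      have h2 := hG.rho
      have h3 : (P i).nu * (P i).ρ = (P i).n := by
        unfold Par.nu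
        have : (P i).ρ ≠ 0 := by linarith
        field_simp
      have h4 : (2 : ℝ) ≤ (P i).n := by nlinarith
      exact_mod_cast h4
    exact hjk (hNSIM _ _ _ _ a1 b1 a2 (hn2 j hj) (hn2 k hk) a3 b3 hsim)
  intro j k hj hk hjk
  refine key j k hj hk ?_
  rcases lt_or_gt_of_ne hjk with h | h
  · exact (hn j k h (hcount k hk)).ne
  · exact (hn k j h (hcount j hj)).ne'

/-- The tolerance `10 ^ 5 / ρ ^ (1 / 4)` is small. -/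
theorem rate_le {ρ : ℝ} (hρ : 10 ^ 30 ≤ ρ) : 10 ^ 5 / ρ ^ (1 / 4 : ℝ) ≤ 1 / 200 := by
  have hρ0 : 0 < ρ := lt_of_lt_of_le (by norm_num) hρ
  rw [div_le_iff₀ (by positivity)]
  have h1 : ((2 * 10 ^ 7 : ℝ) ^ 4) ^ (1 / 4 : ℝ) = 2 * 10 ^ 7 := by
    rw [← Real.rpow_natCast (2 * 10 ^ 7 : ℝ) 4, ← Real.rpow_mul (by norm_num)]
    norm_num
  have h2 : ((2 * 10 ^ 7 : ℝ) ^ 4) ^ (1 / 4 : ℝ) ≤ ρ ^ (1 / 4 : ℝ) := by
    refine Real.rpow_le_rpow (by positivity) ?_ (by norm_num)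
    norm_num at hρ ⊢
    linarith
  rw [h1] at h2
  norm_num at h2 ⊢
  linarith

end Pool.Agent.H812.SF
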