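import Pool.Agent.H812.SF.Q

/-!
Project SF (helper812): Hölder closeness, and the sequence.
-/

set_option autoImplicit false

open Set Filter Topology MeasureTheory

namespace Pool.Agent.H812.SF

open Pool.Agent.N229.SC

/-- One domain for every large zero of `J_1`. -/
theorem one_of_MQ (h : S_MQ) {ρ : ℝ} (hρ : 10 ^ 30 ≤ ρ) (hJ : Fb ρ 1 = 0) :
    ∃ Ω : Set E2, Ctr (10 ^ 5 / ρ ^ (1 / 4 : ℝ)) ρ Ω := by
  have hρ0 : 0 < ρ := lt_of_lt_of_le (by norm_num) hρ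
  obtain ⟨Ω, h1, -⟩ := h ρ (10 ^ 5 / ρ ^ (1 / 4 : ℝ)) hρ hJ le_rfl (rate_le hρ)
  refine ⟨Ω 0, h1 0 ?_⟩
  rw [Nat.cast_zero]
  positivity

/-- Closeness in `C ^ {1, α}`. -/
def HolderNear (α ε ρ : ℝ) (Ω : Set E2) : Prop :=
  ∃ (r : ℝ) (f : ℂ → ℂ), 1 < r ∧ DifferentiableOn ℂ f (Metric.ball 0 r) ∧
    InjOn f (Metric.ball 0 r) ∧
    (∀ z w : ℂ, ‖z‖ ≤ 1 → ‖w‖ ≤ 1 → ‖f z / ρ - z‖ ≤ ε ∧ ‖deriv f z / ρ - 1‖ ≤ ε ∧
      ‖deriv f z / ρ - deriv f w / ρ‖ ≤ ε * ‖z - w‖ ^ α) ∧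
    Ω = (fun z : ℂ => (!₂[z.re, z.im] : E2)) '' (f '' Metric.ball 0 1)

/-- SF-HOL: `C ^ {1, α}` closeness, `α < 1 / 4`. -/
def S_HOL : Prop :=
  ∀ α ε : ℝ, 0 ≤ α → α < 1 / 4 → 0 < ε → ∃ R : ℝ, ∀ ρ : ℝ, R ≤ ρ → Fb ρ 1 = 0 → ∃ Ω : Set E2,
    PlaneDomain Ω ∧ Schiffer0 Ω 1 ∧ ¬ IsDisc Ω ∧ HolderNear α ε ρ Ω

theorem holder_aux {α η ρ : ℝ} {Ω : Set E2} (hα : 0 ≤ α) (hα1 : α ≤ 1) (hρ : 1 ≤ ρ)
    (hη : 0 ≤ η) (h : Near2 η ρ Ω) : HolderNear α (300 * η * ρ ^ α) ρ Ω := by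
  obtain ⟨r, f, g1, g2, g3, g4, g5, g6⟩ := h
  have hρ0 : 0 < ρ := by linarith
  have hρα : 1 ≤ ρ ^ α := Real.one_le_rpow hρ hα
  have hle : η ≤ 300 * η * ρ ^ α := by nlinarith
  refine ⟨r, f, g1, g2, g3, fun z w hz hw => ⟨?_, ?_, ?_⟩, g6⟩
  · have h1 := (g4 z (by rw [mem_ball_zero_iff]; linarith)).1
    have h2 : f z / ρ - z = (f z - ρ * z) / ρ := by
      have : (ρ : ℂ) ≠ 0 := by exact_mod_cast hρ0.ne'
      field_simp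
    rw [h2, norm_div, Complex.norm_real, Real.norm_eq_abs, abs_of_pos hρ0, div_le_iff₀ hρ0]
    have h3 : η ≤ η * ρ := by nlinarith
    nlinarith
  · have h1 := (g4 z (by rw [mem_ball_zero_iff]; linarith)).2
    have h2 : deriv f z / ρ - 1 = (deriv f z - ρ) / ρ := by
      have : (ρ : ℂ) ≠ 0 := by exact_mod_cast hρ0.ne'
      field_simp
    rw [h2, norm_div, Complex.norm_real, Real.norm_eq_abs, abs_of_pos hρ0, div_le_iff₀ hρ0]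
    nlinarith
  · obtain ⟨t, ht⟩ : ∃ t : ℝ, t = ‖z - w‖ := ⟨_, rfl⟩
    have ht0 : 0 ≤ t := by rw [ht]; exact norm_nonneg _
    have h1 : ‖deriv f z / ρ - deriv f w / ρ‖ = ‖deriv f z - deriv f w‖ / ρ := by
      rw [← sub_div, norm_div, Complex.norm_real, Real.norm_eq_abs, abs_of_pos hρ0]
    have h2 : ‖deriv f z - deriv f w‖ ≤ 300 * η * ρ ^ 2 * t := by
      rw [ht]
      exact g5 z w hz hw
    have h3 : ‖deriv f z - deriv f w‖ ≤ 2 * η * ρ := by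
      have a1 := (g4 z (by rw [mem_ball_zero_iff]; linarith)).2
      have a2 := (g4 w (by rw [mem_ball_zero_iff]; linarith)).2
      have a3 : deriv f z - deriv f w = (deriv f z - ρ) - (deriv f w - ρ) := by ring
      rw [a3]
      refine (norm_sub_le _ _).trans ?_
      linarith
    rw [h1, ← ht, div_le_iff₀ hρ0]
    have h4 : 300 * η * ρ ^ α * t ^ α * ρ = 300 * η * (ρ * t) ^ α * ρ := by
      rw [Real.mul_rpow hρ0.le ht0]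
      ring
    rw [h4]
    rcases le_or_gt (ρ * t) 1 with h5 | h5
    · rcases eq_or_lt_of_le ht0 with h6 | h6
      · rw [← h6] at h2
        have : (0 : ℝ) ≤ 300 * η * (ρ * t) ^ α * ρ := by
          have := Real.rpow_nonneg (mul_nonneg hρ0.le ht0) α
          positivity
        linarith
      · have h7 : 0 < ρ * t := mul_pos hρ0 h6
        have h8 : ρ * t ≤ (ρ * t) ^ α := by
          calc ρ * t = (ρ * t) ^ (1 : ℝ) := (Real.rpow_one _).symm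
            _ ≤ (ρ * t) ^ α := Real.rpow_le_rpow_of_exponent_ge h7 h5 hα1
        refine h2.trans ?_
        have h9 : 300 * η * ρ ^ 2 * t = 300 * η * (ρ * t) * ρ := by ring
        rw [h9]
        have h10 : 300 * η * (ρ * t) ≤ 300 * η * (ρ * t) ^ α :=
          mul_le_mul_of_nonneg_left h8 (by positivity)
        exact mul_le_mul_of_nonneg_right h10 hρ0.le
    · have h7 : 1 ≤ (ρ * t) ^ α := Real.one_le_rpow h5.le hα
      refine h3.trans ?_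
      have h8 : 2 * η ≤ 300 * η * (ρ * t) ^ α := by nlinarith
      exact mul_le_mul_of_nonneg_right h8 hρ0.le

theorem HolderNear.mono {α ε ε' ρ : ℝ} {Ω : Set E2} (h : HolderNear α ε ρ Ω) (hε : ε ≤ ε') :
    HolderNear α ε' ρ Ω := by
  obtain ⟨r, f, g1, g2, g3, g4, g5⟩ := h
  refine ⟨r, f, g1, g2, g3, fun z w hz hw => ?_, g5⟩
  obtain ⟨a1, a2, a3⟩ := g4 z w hz hw
  exact ⟨a1.trans hε, a2.trans hε, a3.trans
    (mul_le_mul_of_nonneg_right hε (Real.rpow_nonneg (norm_nonneg _) _))⟩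

theorem proof_HOL (h : S_MQ) : S_HOL := by
  intro α ε hα hα4 hε
  have ht : Tendsto (fun ρ : ℝ => 3 * 10 ^ 7 * ρ ^ (-(1 / 4 - α))) atTop (𝓝 (3 * 10 ^ 7 * 0)) :=
    (tendsto_rpow_neg_atTop (by linarith)).const_mul _
  rw [mul_zero] at ht
  obtain ⟨R, hR⟩ := (ht.eventually_lt_const hε).exists_forall_of_atTop
  refine ⟨max R (10 ^ 30), fun ρ hρ hJ => ?_⟩
  have hρ1 : R ≤ ρ := (le_max_left _ _).trans hρ
  have hρ2 : 10 ^ 30 ≤ ρ := (le_max_right _ _).trans hρ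
  have hρ0 : 0 < ρ := lt_of_lt_of_le (by norm_num) hρ2
  obtain ⟨Ω, hΩ⟩ := one_of_MQ h hρ2 hJ
  refine ⟨Ω, hΩ.dom, hΩ.sol, hΩ.nd, ?_⟩
  refine (holder_aux hα (by linarith) (le_trans (by norm_num) hρ2) (by positivity)
    hΩ.near).mono ?_
  refine le_trans (le_of_eq ?_) (hR ρ hρ1).le
  have h1 : ρ ^ (-(1 / 4 - α)) = ρ ^ α / ρ ^ (1 / 4 : ℝ) := by
    rw [show -(1 / 4 - α) = α - 1 / 4 by ring, Real.rpow_sub hρ0]
  rw [h1]
  ring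

/-- SF-SEQ2: a sequence. -/
def S_SEQ2 : Prop :=
  ∃ (Ω : ℕ → Set E2) (ρ : ℕ → ℝ), (∀ k : ℕ, (k : ℝ) ≤ ρ k ∧ 10 ^ 30 ≤ ρ k ∧ Fb (ρ k) 1 = 0 ∧
    Ctr (10 ^ 5 / (ρ k) ^ (1 / 4 : ℝ)) (ρ k) (Ω k)) ∧ ∀ j k, j ≠ k → ¬ Similar (Ω j) (Ω k)

theorem away2 (h3 : S_SIM) {Ω₀ : Set E2} (hd : PlaneDomain Ω₀) (hn : ¬ IsDisc Ω₀) :
    ∃ B : ℝ, ∀ ρ ε : ℝ, B ≤ ρ → 0 < ρ →
    ε ≤ 1 → ∀ Ω : Set E2, Metric.ball 0 (ρ - ε) ⊆ Ω → Ω ⊆ Metric.ball 0 (ρ + ε) →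
    ¬ Similar Ω₀ Ω := by
  obtain ⟨η, hη, hη1, h⟩ := h3 Ω₀ hd.isOpen hd.isBounded hd.isConnected.nonempty hn
  refine ⟨1 / η, fun ρ ε hB hρ hε Ω ha hb hs => ?_⟩
  have h4 : 1 ≤ η * ρ := by
    rw [div_le_iff₀ hη] at hB
    linarith
  refine h Ω hs ρ hρ ⟨?_, ?_⟩
  · refine Subset.trans (Metric.ball_subset_ball ?_) ha
    linarith
  · refine Subset.trans hb (Metric.ball_subset_ball ?_)
    linarith

theorem proof_SEQ2 (h1 : S_MQ) (h2 : S_J1Z) (h3 : S_SIM) : S_SEQ2 := by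
  classical
  obtain ⟨Pr, hPr⟩ : ∃ Pr : Set E2 × ℝ → Prop, Pr = fun x => 10 ^ 30 ≤ x.2 ∧ Fb x.2 1 = 0 ∧
    Ctr (10 ^ 5 / x.2 ^ (1 / 4 : ℝ)) x.2 x.1 := ⟨_, rfl⟩
  obtain ⟨Rr, hRr⟩ : ∃ Rr : Set E2 × ℝ → Set E2 × ℝ → Prop, Rr = fun x y =>
    ¬ Similar x.1 y.1 ∧ ¬ Similar y.1 x.1 ∧ x.2 + 1 ≤ y.2 := ⟨_, rfl⟩
  have step : ∀ s : Finset (Set E2 × ℝ), (∀ x ∈ s, Pr x) → ∃ y, Pr y ∧ ∀ x ∈ s, Rr x y := by
    intro s hs
    have hB : ∀ x : Set E2 × ℝ, ∃ B : ℝ, x ∈ s → ∀ ρ ε : ℝ, B ≤ ρ → 0 < ρ →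
        ε ≤ 1 → ∀ Ω : Set E2, Metric.ball 0 (ρ - ε) ⊆ Ω → Ω ⊆ Metric.ball 0 (ρ + ε) →
        ¬ Similar x.1 Ω := by
      intro x
      by_cases hx : x ∈ s
      · have hp := hs x hx
        rw [hPr] at hp
        obtain ⟨B, hB⟩ := away2 h3 hp.2.2.dom hp.2.2.nd
        exact ⟨B, fun _ => hB⟩
      · exact ⟨0, fun h => absurd h hx⟩
    choose B hB using hB
    obtain ⟨M, hM⟩ := (s.image B).exists_le
    obtain ⟨m, hm⟩ := (s.image (fun x => x.2)).exists_le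
    have hM' : ∀ x ∈ s, B x ≤ M := fun x hx => hM _ (Finset.mem_image_of_mem _ hx)
    have hm' : ∀ x ∈ s, x.2 ≤ m := fun x hx =>
      hm _ (Finset.mem_image_of_mem (fun x : Set E2 × ℝ => x.2) hx)
    obtain ⟨ρ, hρ, hJ⟩ := h2 (max (10 ^ 30) (max M (m + 1)))
    have hρR : 10 ^ 30 ≤ ρ := (le_max_left _ _).trans hρ
    have hρM : M ≤ ρ := (le_max_left _ _).trans ((le_max_right _ _).trans hρ)
    have hρm : m + 1 ≤ ρ := (le_max_right _ _).trans ((le_max_right _ _).trans hρ)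
    have hρ0 : 0 < ρ := lt_of_lt_of_le (by norm_num) hρR
    obtain ⟨Ω, hΩ⟩ := one_of_MQ h1 hρR hJ
    refine ⟨(Ω, ρ), ?_, fun x hx => ?_⟩
    · rw [hPr]
      exact ⟨hρR, hJ, hΩ⟩
    · have hns : ¬ Similar x.1 Ω :=
        hB x hx ρ _ ((hM' x hx).trans hρM) hρ0 ((rate_le hρR).trans (by norm_num)) Ω
          hΩ.inner hΩ.outer
      rw [hRr]
      refine ⟨hns, fun h => hns (Pool.Agent.H763.SfSEQ.similar_symm h), ?_⟩
      show x.2 + 1 ≤ ρ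
      have := hm' x hx
      linarith
  obtain ⟨f, hf, hr⟩ := exists_seq_of_forall_finset_exists Pr Rr step
  rw [hPr] at hf
  rw [hRr] at hr
  have hk : ∀ k : ℕ, (k : ℝ) ≤ (f k).2 := by
    intro k
    induction k with
    | zero =>
      have := (hf 0).1
      rw [Nat.cast_zero]
      exact le_trans (by norm_num) this
    | succ k ih =>
      have := (hr k (k + 1) (Nat.lt_succ_self k)).2.2
      push_cast
      linarith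
  refine ⟨fun k => (f k).1, fun k => (f k).2, fun k => ⟨hk k, hf k⟩, ?_⟩
  intro j k hjk
  rcases lt_or_gt_of_ne hjk with h | h
  · exact (hr j k h).1
  · exact (hr k j h).2.1

end Pool.Agent.H812.SF
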