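import Pool.Agent.H812.SF.Stm

/-!
Project SC (helper229), part SGN (helper698): the signs at the two ends.
-/

set_option autoImplicit false

namespace Pool.Agent.H812.SF

open Pool.Agent.N229.SC

private theorem sgn_wW1 : wW 1 = 1126125 / 1000000 := by
  simp only [wW, Rad]
  norm_num

private theorem sgn_wW2 : wW 2 = 125250125 / 100000000 := by
  simp only [wW, Rad]
  norm_num

private theorem sgn_cc : ‖cc‖ ≤ 1126125 / 1000000 := by
  unfold cc
  rw [norm_smul]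
  have h1 : ‖mon wW 1 + mon wW (-1)‖ ≤ wW 1 + wW (-1) := by
    refine (norm_add_le _ _).trans ?_
    rw [norm_mon, norm_mon]
  rw [Wt.neg (w := wW), sgn_wW1] at h1
  rw [Real.norm_eq_abs, abs_of_pos (by norm_num)]
  linarith

private theorem sgn_bounds (hA1 : S_A1) (hHG : S_HG) (hVG : S_VG) (hYG : S_YG)
    (P : Par) (X : ℝ) (h v : W) (y : ℕ → A) (H : Hyp P X h v y) (hX0 : 0 < X)
    (hX : X ≤ 2784 / 10 ^ 7) :
    ‖h‖ ≤ 57 / 50 * X ∧ ‖h - X • cc‖ ≤ 27 / 5 * X ^ 2 ∧ ‖xi P h - X • cc‖ ≤ 27 / 5 * X ^ 2 ∧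
    ‖v‖ ≤ 2 / 3 * X ^ 2 ∧ (∀ i, ‖y i‖ ≤ 3 / 10 * X ^ 2) ∧
    |cf v 2 + X ^ 2 / 2| ≤ 92 / 5 * X ^ 3 := by
  have hX2 : 0 < X ^ 2 := by positivity
  have hX3 : 0 < X ^ 3 := by positivity
  have hX23 : X ^ 3 ≤ 2784 / 10 ^ 7 * X ^ 2 := by
    have : X ^ 3 = X * X ^ 2 := by ring
    rw [this]
    exact mul_le_mul_of_nonneg_right hX hX2.le
  have hXX : X ^ 2 ≤ 2784 / 10 ^ 7 * X := by
    have : X ^ 2 = X * X := by ring
    rw [this]
    exact mul_le_mul_of_nonneg_right hX hX0.le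
  -- first round
  obtain ⟨a1, a2⟩ := hHG P X h v y H 2 5 5 (by norm_num) (by norm_num) (by norm_num) (by norm_num)
    (by norm_num) (by norm_num) H.sol.nh H.sol.nv H.sol.ny
  have b1 : ‖h‖ ≤ 57 / 50 * X := by
    have e : h = X • cc + (h - X • cc) := by abel
    have e2 : ‖h‖ ≤ ‖X • cc‖ + ‖h - X • cc‖ := by
      conv_lhs => rw [e]
      exact norm_add_le _ _
    have e3 : ‖X • cc‖ ≤ X * (1126125 / 1000000) := by
      rw [norm_smul, Real.norm_eq_abs, abs_of_pos hX0]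
      exact mul_le_mul_of_nonneg_left sgn_cc hX0.le
    nlinarith
  have a3 := hVG P X h v y H 2 5 5 15 (by norm_num) (by norm_num) (by norm_num) (by norm_num)
    (by norm_num) (by norm_num) (by norm_num) (by norm_num) H.sol.nh H.sol.nv H.sol.ny
    (a2.trans (by nlinarith))
  have b2 : ‖v‖ ≤ 2 / 3 * X ^ 2 := by
    have e : v = (v + (X ^ 2 / 2) • mon wW 2) - (X ^ 2 / 2) • mon wW 2 := by abel
    have e2 : ‖v‖ ≤ ‖v + (X ^ 2 / 2) • mon wW 2‖ + ‖(X ^ 2 / 2) • mon wW 2‖ := by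
      conv_lhs => rw [e]
      exact norm_sub_le _ _
    have e3 : ‖(X ^ 2 / 2) • mon wW 2‖ = (X ^ 2 / 2) * (125250125 / 100000000) := by
      rw [norm_smul, Real.norm_eq_abs, abs_of_pos (by positivity), norm_mon, sgn_wW2]
    rw [e3] at e2
    nlinarith
  have b3 : ∀ i, ‖y i‖ ≤ 3 / 10 * X ^ 2 := by
    intro i
    have := hYG P X h v y H (2 / 3) (by norm_num) b2 i
    nlinarith
  -- second round
  obtain ⟨a4, a5⟩ := hHG P X h v y H (57 / 50) (2 / 3) (3 / 10) (by norm_num) (by norm_num)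
    (by norm_num) (by norm_num) (by norm_num) (by norm_num) b1 b2 b3
  have b4 : ‖h - X • cc‖ ≤ 27 / 5 * X ^ 2 := a4.trans (by nlinarith)
  have b5 : ‖xi P h - X • cc‖ ≤ 27 / 5 * X ^ 2 := a5.trans (by nlinarith)
  have a6 := hVG P X h v y H (57 / 50) (2 / 3) (3 / 10) (27 / 5) (by norm_num) (by norm_num)
    (by norm_num) (by norm_num) (by norm_num) (by norm_num) (by norm_num) (by norm_num)
    b1 b2 b3 b5
  have b6 : ‖v + (X ^ 2 / 2) • mon wW 2‖ ≤ 92 / 5 * X ^ 3 := a6.trans (by nlinarith)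
  obtain ⟨c1, -, -, -, c5, c6, c7, -⟩ := hA1 wW
  have b7 : cf (v + (X ^ 2 / 2) • mon wW 2) 2 = cf v 2 + X ^ 2 / 2 := by
    rw [c1, c5, c6]
    simp
  have b8 := c7 (v + (X ^ 2 / 2) • mon wW 2) 2
  rw [b7, sgn_wW2] at b8
  refine ⟨b1, b4, b5, b2, b3, ?_⟩
  have b9 := abs_nonneg (cf v 2 + X ^ 2 / 2)
  linarith

/-- SC-SGN -/
theorem proof_SGN (hA1 : S_A1) (hA2 : S_A2) (hAB : S_AB) (hHG : S_HG) (hVG : S_VG)
    (hYG : S_YG) (hRV : S_RV) (hGG : S_GG) : S_SGN := by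
  intro P X h v y H
  have ha1 := H.good.a0
  have ha2 := H.good.a0'
  have hn1 := H.good.nu1
  have hn2 := H.good.nu2
  set s := Real.sqrt (P.a 0) with hs
  have hss : s ^ 2 = P.a 0 := Real.sq_sqrt (by linarith)
  have hs0 : 0 < s := Real.sqrt_pos.2 (by linarith)
  have hs1 : s ≤ 5568 / 10 ^ 8 := by
    rw [hs, Real.sqrt_le_left (by norm_num)]
    refine ha2.trans ?_
    norm_num
  have hX0 : 0 < X := hs0.trans_le H.X1
  have hX : X ≤ 2784 / 10 ^ 7 := by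
    have := H.X2
    linarith
  obtain ⟨b1, b4, b5, b2, b3, b6⟩ := sgn_bounds hA1 hHG hVG hYG P X h v y H hX0 hX
  have g := hGG P X h v y H b1 b4 b5 b2 b3
  obtain ⟨r1, -⟩ := hRV P X h v y H
  set r := cf (qq P h v y 1) 2 with hr
  set v2 := cf v 2 with hv2
  set G := cf (OO P X h v y) 1 with hG
  set nu := P.nu with hnu
  have hX2 : 0 < X ^ 2 := by positivity
  have hX3 : 0 < X ^ 3 := by positivity
  have hX4 : 0 < X ^ 4 := by positivity
  rw [abs_le] at b6 g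
  have d1 : |v2| ≤ X ^ 2 / 2 + 92 / 5 * X ^ 3 := by
    rw [abs_le]
    constructor <;> linarith
  have d2 : |r| ≤ 5 / 16 * (X ^ 2 / 2 + 92 / 5 * X ^ 3) := by
    refine r1.trans ?_
    rw [div_le_iff₀ (by linarith)]
    have e0 : 0 ≤ X ^ 2 / 2 + 92 / 5 * X ^ 3 := by positivity
    nlinarith
  rw [abs_le] at d2
  have d3 : X / 2 * |r| ≤ X ^ 3 * (5 / 64) + X ^ 4 * (23 / 8) := by
    have : |r| ≤ 5 / 16 * (X ^ 2 / 2 + 92 / 5 * X ^ 3) := abs_le.2 d2
    calc X / 2 * |r| ≤ X / 2 * (5 / 16 * (X ^ 2 / 2 + 92 / 5 * X ^ 3)) :=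
          mul_le_mul_of_nonneg_left this (by positivity)
      _ = _ := by ring
  have d4 : |X / 2 * r| ≤ X ^ 3 * (5 / 64) + X ^ 4 * (23 / 8) := by
    rw [abs_mul, abs_of_pos (by positivity)]
    exact d3
  rw [abs_le] at d4
  -- nu / 2 * X * (v2 + X^2/2)
  have d5 : |nu / 2 * X * (v2 + X ^ 2 / 2)| ≤ 41 / 100 * (92 / 5) * X ^ 4 := by
    rw [abs_mul, abs_of_pos (by positivity : (0:ℝ) < nu / 2 * X)]
    have e1 : |v2 + X ^ 2 / 2| ≤ 92 / 5 * X ^ 3 := abs_le.2 b6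
    calc nu / 2 * X * |v2 + X ^ 2 / 2| ≤ (41 / 100) * X * (92 / 5 * X ^ 3) := by
          apply mul_le_mul _ e1 (abs_nonneg _) (by positivity)
          apply mul_le_mul_of_nonneg_right _ hX0.le
          linarith
      _ = _ := by ring
  rw [abs_le] at d5
  have d6 : nu / 2 * X * v2 = nu / 2 * X * (v2 + X ^ 2 / 2) - nu / 4 * X ^ 3 := by ring
  rw [d6] at g
  have d7 : 4 / 5 * X ^ 3 ≤ nu * X ^ 3 := mul_le_mul_of_nonneg_right hn1 hX3.le
  have d8 : nu * X ^ 3 ≤ 41 / 50 * X ^ 3 := mul_le_mul_of_nonneg_right hn2 hX3.le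
  constructor
  · intro hXs
    have e1 : X * P.a 0 = X ^ 3 := by rw [← hss, ← hXs]; ring
    have e2 : X ^ 4 ≤ 5568 / 10 ^ 8 * X ^ 3 := by
      have : X ^ 4 = X * X ^ 3 := by ring
      rw [this]
      exact mul_le_mul_of_nonneg_right (by rw [hXs]; exact hs1) hX3.le
    rw [e1] at g
    linarith [g.1]
  · intro hXs
    have e1 : X * P.a 0 = X ^ 3 / 25 := by
      have : P.a 0 = (X / 5) ^ 2 := by rw [← hss, hXs]; ring
      rw [this]
      ring
    have e2 : X ^ 4 ≤ 2784 / 10 ^ 7 * X ^ 3 := by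
      have : X ^ 4 = X * X ^ 3 := by ring
      rw [this]
      exact mul_le_mul_of_nonneg_right hX hX3.le
    rw [e1] at g
    linarith [g.2]

end Pool.Agent.H812.SF
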