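import Pool.Agent.H812.SF.Stm2

/-!
Project SF (helper812), problem MP_83fd13_an: statements about the number of the domains near one
disc.  The proofs are in the docstrings.
-/

set_option autoImplicit false

open Set Filter Topology MeasureTheory

namespace Pool.Agent.H812.SF

open Pool.Agent.N229.SC

/-- The rotations about `0` which preserve `Ω` are exactly the rotations by multiples of
`2 π / n`. -/
def RotN (n : ℕ) (Ω : Set ℂ) : Prop :=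
  ∀ ω : ℂ, ‖ω‖ = 1 → ((fun z : ℂ => ω * z) '' Ω = Ω ↔ ω ^ n = 1)

/-- SF-PARK: many parameters for one zero of `J_1`.

Proof from `S_DYN` and `S_N1` (`proof_N1` in the library file N229/SC/N1.lean; as `S_PAR`, with `K` disjoint windows).
`φ = (1 + √5)/2`, `x m = Fb ρ m`, `c m = 2 (m + 1) / ρ`; `δ, L` from `S_DYN` for `ε`;
`R = max 10000 (2 (K (L + 1) + 5) / δ)`, `M = ⌈ρ (φ + δ) / 2⌉`, `M_k = M + k (L + 1)`, `k < K`,
so that `c m ∈ [φ + δ, φ + 2 δ]` for `M_k ≤ m ≤ M_k + L`.  Two consecutive zeros `x_j = x_{j+1} = 0` would give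
`x m = 0` for all `m ≥ j`, against `0 < Fb ρ m` for `m ≥ ρ`.  So `S_DYN` gives `n_k ∈ [M_k, M_k + L]` with
`-(x n / x (n+1)) ∈ [ε, 3 ε]`, and `x 2 ≠ 0` as `x 1 = 0`.  Take `P k = ⟨ρ, n_k, fun i => -(x (n + i) / x (n + 1)),
fun i => -(x (1 + i) / x 2)⟩`; `b 0 = 0`, `a 1 = b 1 = -1`; `ra`, `rb` from the recurrence of `Fb`;
`P.nu = n / ρ ∈ [4/5, 41/50]` because `2 n / ρ ≥ φ + δ - 2/ρ` etc., `φ = 1.618...`. -/
def S_PARK : Prop :=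
  ∀ ε : ℝ, 0 < ε → ε ≤ 1 / 10 ^ 9 → ∀ K : ℕ, ∃ R : ℝ, ∀ ρ : ℝ, R ≤ ρ → Fb ρ 1 = 0 →
    ∃ P : ℕ → Par, (∀ k < K, Good (P k) ∧ (P k).ρ = ρ ∧ (P k).a 0 ≤ 3 * ε ∧
      (P k).a 0 = -(Fb ρ (P k).n / Fb ρ ((P k).n + 1)) ∧
      ∃ C, ∀ i, |(P k).a i| ≤ C ∧ |(P k).b i| ≤ C) ∧
    ∀ j k, j < k → k < K → (P j).n < (P k).n

/-- SF-ONEN: the parameters for given `ρ`, `n` (as in `S_PARK`; `proof_N1` for boundedness). -/
def S_ONEN : Prop :=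
  ∀ (ρ : ℝ) (n : ℕ), 10 ^ 4 ≤ ρ → 4 / 5 * ρ ≤ n → n ≤ 41 / 50 * ρ → Fb ρ 1 = 0 →
    0 < -(Fb ρ n / Fb ρ (n + 1)) → -(Fb ρ n / Fb ρ (n + 1)) ≤ 31 / 10 ^ 10 →
    ∃ P : Par, Good P ∧ P.ρ = ρ ∧ P.n = n ∧ P.a 0 = -(Fb ρ n / Fb ρ (n + 1)) ∧
      ∃ C, ∀ i, |P.a i| ≤ C ∧ |P.b i| ≤ C

/-- SF-ROT: the symmetry group of the domain.

Proof.  `f = fF P h`, `f z = ρ z exp (g (z ^ n) / n)`, `g = evh (Phi P h)`, so `f (ω z) = ω f z` if `ω ^ n = 1`,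
which gives `ω • Om f = Om f`.  Conversely let `ω • Om f = Om f`, `‖ω‖ = 1`.  `f` is injective and holomorphic on
`ball 0 (rF P)` (`S_INJ`, `S_FN1`), so `f⁻¹ (ω f z)` is a holomorphic bijection of the unit disc onto itself which fixes `0`
and has the derivative `ω` at `0`; by the Schwarz lemma it is `ω z` (apply the lemma to it and to its inverse).  So
`f (ω z) = ω f z` for `|z| < 1`, that is `exp (g (ω ^ n z ^ n) / n) = exp (g (z ^ n) / n)`; both exponents are small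
(`|g| ≤ ‖Phi P h‖ ≤ 1/1000`), so `g (ω ^ n w) = g w` for `|w| < 1`, and the coefficients of `w` give
`ω ^ n c = c`, `c = cf (Phi P h) 1 = ν (cf h 1 + cf h (-1)) = 2 ν cf h 1` (`conj h = h`).  `c ≠ 0`:
`|cf h 1 - X / 2| ≤ ‖h - X • cc‖ ≤ 15 X ^ 2 < X / 2`. -/
def S_ROT : Prop :=
  ∀ (P : Par) (X : ℝ) (h v : W) (y : ℕ → A), Full P X h v y → RotN P.n (Om (fF P h))

/-- SF-NSIM: domains with different rotation groups are not similar.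

Proof.  Identify `E2` with `ℂ`; the similarity is `z ↦ κ z + b` or `z ↦ κ conj z + b`, `κ ≠ 0`.  `Ω'` is bounded,
nonempty and invariant under the rotation by `2 π / n'` about `0` and under the rotation by `± 2 π / n` about `b`; the
commutator of the two rotations is the translation by `± (1 - ω) (1 - ω') b`-like vector, which vanishes because `Ω'` is bounded;
`ω, ω' ≠ 1` as `n, n' ≥ 2`; so `b = 0`.  Then for `‖ω‖ = 1`: `ω ^ n = 1` iff `ω • Ω = Ω` iff (`ω • Ω' = Ω'`, or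
`conj ω • Ω' = Ω'` in the second case) iff `ω ^ n' = 1`.  Take `ω = exp (2 π i / n)` and
`exp (2 π i / n')`: `n ∣ n'` and `n' ∣ n`. -/
def S_NSIM : Prop :=
  ∀ (Ω Ω' : Set ℂ) (n n' : ℕ), Bornology.IsBounded Ω → Bornology.IsBounded Ω' → Ω.Nonempty →
    2 ≤ n → 2 ≤ n' → RotN n Ω → RotN n' Ω' →
    Similar ((fun z : ℂ => (!₂[z.re, z.im] : E2)) '' Ω)
      ((fun z : ℂ => (!₂[z.re, z.im] : E2)) '' Ω') → n = n'

/-- SF-DOM: the domain for given parameters (the common part of `S_ONE` and `S_MUL`). -/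
def S_DOM : Prop :=
  ∀ P : Par, Good P → (∃ C, ∀ i, |P.a i| ≤ C ∧ |P.b i| ≤ C) → ∃ D : Set ℂ,
    IsOpen D ∧ Bornology.IsBounded D ∧ D.Nonempty ∧ RotN P.n D ∧
    ∃ Ω : Set E2, Ω = (fun z : ℂ => (!₂[z.re, z.im] : E2)) '' D ∧
      PlaneDomain Ω ∧ Schiffer Ω 1 ∧ ¬ IsDisc Ω ∧ NearDisc (100 * Real.sqrt (P.a 0)) P.ρ Ω ∧
      Metric.ball 0 (P.ρ - 100 * Real.sqrt (P.a 0)) ⊆ Ω ∧
      Ω ⊆ Metric.ball 0 (P.ρ + 100 * Real.sqrt (P.a 0))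

/-- SF-MUL: many non-similar domains near one disc.  From `S_PARK`, `S_DOM`, `S_NSIM`. -/
def S_MUL : Prop :=
  ∀ ε : ℝ, 0 < ε → ∀ K : ℕ, ∃ R : ℝ, ∀ ρ : ℝ, R ≤ ρ → Fb ρ 1 = 0 → ∃ Ω : ℕ → Set E2,
    (∀ k < K, PlaneDomain (Ω k) ∧ Schiffer (Ω k) 1 ∧ ¬ IsDisc (Ω k) ∧ NearDisc ε ρ (Ω k) ∧
      Metric.ball 0 (ρ - ε) ⊆ Ω k ∧ Ω k ⊆ Metric.ball 0 (ρ + ε)) ∧
    ∀ j k, j < K → k < K → j ≠ k → ¬ Similar (Ω j) (Ω k)

end Pool.Agent.H812.SF
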