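import Pool.Agent.H812.SF.Stm4

/-!
Project SF (helper812), problem MP_83fd13_an: statements of the quantitative version.
-/

set_option autoImplicit false

open Set Filter Topology MeasureTheory

namespace Pool.Agent.H812.SF

open Pool.Agent.N229.SC

/-- SF-CLO2: the derivative of the conformal map is Lipschitz on the closed unit disc with constant `O(s ρ ^ 2)`.

Proof. As in `proof_CLO` (file Pool/Agent/H307/SfCLO.lean, store helper307_SfCLO.lean): `f' = ρ exp (G z) (1 + B z)`, `G z = evh (Phi P h) (z ^ n) / n`,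
`B z = evh (beta P h) (z ^ n)`.  (1) `|z ^ n - w ^ n| ≤ n |z - w|` for `|z|, |w| ≤ 1`.  (2) `|evh c z - evh c w| ≤ 400 ‖c‖ |z - w|`
for `|z|, |w| ≤ 1` and `c` in `A` or `W`: `evh c z = ∑ cf c k z ^ k`, `∑ |cf c k| Rad ^ k ≤ ‖c‖` (`S_A1`), and
`k ≤ 400 Rad ^ k`, `Rad = 1001/1000` (`max k Rad ^ (-k) < 369`; e.g. `Rad ^ k ≥ exp (k * log Rad)`, `log Rad ≥ 1/1001`, `exp x ≥ e x`).
(3) `‖Phi P h‖ ≤ ν s`, `‖beta P h‖ ≤ 8 ν s`, `n = ν ρ`, `ν ≤ 41/50`: `|B z - B w| ≤ 400 * 8 ν s * n |z - w| ≤ 2160 ρ s |z - w|`,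
`|exp (G z) - exp (G w)| ≤ 1.01 * 400 * ν s |z - w|`. -/
def S_CLO2 : Prop :=
  ∀ (P : Par) (h : W) (s : ℝ), Good P → ‖h‖ ≤ s → s ≤ 1 / 1000 → ∀ z w : ℂ, ‖z‖ ≤ 1 → ‖w‖ ≤ 1 →
    ‖deriv (fF P h) z - deriv (fF P h) w‖ ≤ 3000 * s * P.ρ ^ 2 * ‖z - w‖

/-- SF-PARG: many parameters for one zero of `J_1`, with a rate. -/
def S_PARG : Prop :=
  ∀ ρ ε : ℝ, 10 ^ 30 ≤ ρ → Fb ρ 1 = 0 → 2 * 10 ^ 5 / Real.sqrt ρ ≤ ε → ε ≤ 1 / 10 ^ 9 →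
    ∃ P : ℕ → Par, (∀ k : ℕ, (k : ℝ) ≤ ε ^ 2 * ρ / 10 ^ 11 → Good (P k) ∧ (P k).ρ = ρ ∧
      (P k).a 0 ≤ 3 * ε ∧ (P k).a 0 = -(Fb ρ (P k).n / Fb ρ ((P k).n + 1)) ∧
      ∃ C, ∀ i, |(P k).a i| ≤ C ∧ |(P k).b i| ≤ C) ∧
    ∀ j k : ℕ, j < k → (k : ℝ) ≤ ε ^ 2 * ρ / 10 ^ 11 → (P j).n < (P k).n

end Pool.Agent.H812.SF
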